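import Pool.Agent.V7H71.SufIP.Basic

/-!
# Commutative semi-universally flexible loops with the inverse property are Moufang
-/

namespace Pool.Agent.V7H71.UF

namespace LoopStr

set_option linter.unusedVariables false

section closure

variable {Q : Type*} {L : LoopStr Q} (hS : L.SUF)
include hS

theorem SUF.s5 {u z d b y v r c e : Q} (h0 : L.mul z b = y) (h1 : L.mul u y = c)
    (h2 : L.mul d b = c) (h3 : L.mul u b = v) (h4 : L.mul z v = r) (h6 : L.mul d v = e) :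
    L.mul u r = e := by
  have := hS.left u z b
  rwa [h0, h1, rdiv_eq h2, h3, h4, h6] at this

theorem SUF.s6 {u z d b y v r c e : Q} (h0 : L.mul z b = y) (h1 : L.mul u y = c)
    (h2 : L.mul d b = c) (h3 : L.mul u b = v) (h4 : L.mul z v = r) (h5 : L.mul u r = e) :
    L.mul d v = e := (hS.s5 h0 h1 h2 h3 h4 rfl).symm.trans h5

theorem SUF.s4 {u z d b y v r c e : Q} (h0 : L.mul z b = y) (h1 : L.mul u y = c)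
    (h2 : L.mul d b = c) (h3 : L.mul u b = v) (h5 : L.mul u r = e) (h6 : L.mul d v = e) :
    L.mul z v = r := lcancel ((hS.s5 h0 h1 h2 h3 rfl h6).trans h5.symm)

theorem SUF.s2 {u z d b y v r c e : Q} (h0 : L.mul z b = y) (h1 : L.mul u y = c)
    (h3 : L.mul u b = v) (h4 : L.mul z v = r) (h5 : L.mul u r = e) (h6 : L.mul d v = e) :
    L.mul d b = c := by
  have e1 : L.mul (L.rdiv c b) b = c := L.rdiv_mul _ _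
  have e2 := hS.s6 h0 h1 e1 h3 h4 h5
  rw [← rcancel (e2.trans h6.symm)]
  exact e1

theorem SUF.s1 {u z d b y v r c e : Q} (h0 : L.mul z b = y) (h2 : L.mul d b = c)
    (h3 : L.mul u b = v) (h4 : L.mul z v = r) (h5 : L.mul u r = e) (h6 : L.mul d v = e) :
    L.mul u y = c := (hS.s2 h0 rfl h3 h4 h5 h6).symm.trans h2

theorem SUF.s0 {u z d b y v r c e : Q} (h1 : L.mul u y = c) (h2 : L.mul d b = c)
    (h3 : L.mul u b = v) (h4 : L.mul z v = r) (h5 : L.mul u r = e) (h6 : L.mul d v = e) :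
    L.mul z b = y := lcancel ((hS.s1 rfl h2 h3 h4 h5 h6).trans h1.symm)

end closure

/-- A commutative SUF loop with the inverse property is Moufang. -/
theorem SUF.moufang_of_comm {Q : Type*} {L : LoopStr Q} (hS : L.SUF) (hI : L.IP)
    (hC : ∀ x y, L.mul x y = L.mul y x) : L.Moufang := by
  intro q1 q3 q5
  obtain ⟨q1', I1⟩ : ∃ q', L.mul q1 q' = L.one := ⟨_, L.mul_ldiv _ _⟩
  have J1 := hI.symm I1
  obtain ⟨q3', I3⟩ : ∃ q', L.mul q3 q' = L.one := ⟨_, L.mul_ldiv _ _⟩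
  have J3 := hI.symm I3
  obtain ⟨q5', I5⟩ : ∃ q', L.mul q5 q' = L.one := ⟨_, L.mul_ldiv _ _⟩
  have J5 := hI.symm I5
  obtain ⟨q7, h0⟩ : ∃ q, L.mul q1 q3 = q := ⟨_, rfl⟩
  obtain ⟨q7', I7⟩ : ∃ q', L.mul q7 q' = L.one := ⟨_, L.mul_ldiv _ _⟩
  have J7 := hI.symm I7
  obtain ⟨q9, h1⟩ : ∃ q, L.mul q5 q1 = q := ⟨_, rfl⟩
  obtain ⟨q9', I9⟩ : ∃ q', L.mul q9 q' = L.one := ⟨_, L.mul_ldiv _ _⟩
  have J9 := hI.symm I9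
  obtain ⟨q11, h2⟩ : ∃ q, L.mul q3 q5 = q := ⟨_, rfl⟩
  obtain ⟨q11', I11⟩ : ∃ q', L.mul q11 q' = L.one := ⟨_, L.mul_ldiv _ _⟩
  have J11 := hI.symm I11
  obtain ⟨q13, h3⟩ : ∃ q, L.mul q7 q9 = q := ⟨_, rfl⟩
  obtain ⟨q13', I13⟩ : ∃ q', L.mul q13 q' = L.one := ⟨_, L.mul_ldiv _ _⟩
  have J13 := hI.symm I13
  obtain ⟨q15, h4⟩ : ∃ q, L.mul q1 q11 = q := ⟨_, rfl⟩
  obtain ⟨q15', I15⟩ : ∃ q', L.mul q15 q' = L.one := ⟨_, L.mul_ldiv _ _⟩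
  have J15 := hI.symm I15
  obtain ⟨q17, h5⟩ : ∃ q, L.mul q7 q5 = q := ⟨_, rfl⟩
  obtain ⟨q17', I17⟩ : ∃ q', L.mul q17 q' = L.one := ⟨_, L.mul_ldiv _ _⟩
  have J17 := hI.symm I17
  obtain ⟨q19, h6⟩ : ∃ q, L.mul q9 q3' = q := ⟨_, rfl⟩
  obtain ⟨q19', I19⟩ : ∃ q', L.mul q19 q' = L.one := ⟨_, L.mul_ldiv _ _⟩
  have J19 := hI.symm I19
  obtain ⟨q21, h7⟩ : ∃ q, L.mul q13 q1 = q := ⟨_, rfl⟩
  obtain ⟨q21', I21⟩ : ∃ q', L.mul q21 q' = L.one := ⟨_, L.mul_ldiv _ _⟩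
  have J21 := hI.symm I21
  obtain ⟨q23, h8⟩ : ∃ q, L.mul q13 q3' = q := ⟨_, rfl⟩
  obtain ⟨q23', I23⟩ : ∃ q', L.mul q23 q' = L.one := ⟨_, L.mul_ldiv _ _⟩
  have J23 := hI.symm I23
  obtain ⟨q25, h9⟩ : ∃ q, L.mul q13 q5 = q := ⟨_, rfl⟩
  obtain ⟨q25', I25⟩ : ∃ q', L.mul q25 q' = L.one := ⟨_, L.mul_ldiv _ _⟩
  have J25 := hI.symm I25
  obtain ⟨q27, h10⟩ : ∃ q, L.mul q15 q3' = q := ⟨_, rfl⟩
  obtain ⟨q27', I27⟩ : ∃ q', L.mul q27 q' = L.one := ⟨_, L.mul_ldiv _ _⟩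
  have J27 := hI.symm I27
  obtain ⟨q29, h11⟩ : ∃ q, L.mul q15 q5' = q := ⟨_, rfl⟩
  obtain ⟨q29', I29⟩ : ∃ q', L.mul q29 q' = L.one := ⟨_, L.mul_ldiv _ _⟩
  have J29 := hI.symm I29
  obtain ⟨q31, h12⟩ : ∃ q, L.mul q17 q1 = q := ⟨_, rfl⟩
  obtain ⟨q31', I31⟩ : ∃ q', L.mul q31 q' = L.one := ⟨_, L.mul_ldiv _ _⟩
  have J31 := hI.symm I31
  obtain ⟨q33, h13⟩ : ∃ q, L.mul q17 q3' = q := ⟨_, rfl⟩
  obtain ⟨q33', I33⟩ : ∃ q', L.mul q33 q' = L.one := ⟨_, L.mul_ldiv _ _⟩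
  have J33 := hI.symm I33
  obtain ⟨q35, h14⟩ : ∃ q, L.mul q17 q5 = q := ⟨_, rfl⟩
  obtain ⟨q35', I35⟩ : ∃ q', L.mul q35 q' = L.one := ⟨_, L.mul_ldiv _ _⟩
  have J35 := hI.symm I35
  obtain ⟨q37, h15⟩ : ∃ q, L.mul q19 q1' = q := ⟨_, rfl⟩
  obtain ⟨q37', I37⟩ : ∃ q', L.mul q37 q' = L.one := ⟨_, L.mul_ldiv _ _⟩
  have J37 := hI.symm I37
  obtain ⟨q39, h16⟩ : ∃ q, L.mul q25 q1 = q := ⟨_, rfl⟩
  obtain ⟨q39', I39⟩ : ∃ q', L.mul q39 q' = L.one := ⟨_, L.mul_ldiv _ _⟩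
  have J39 := hI.symm I39
  obtain ⟨q41, h17⟩ : ∃ q, L.mul q27 q1' = q := ⟨_, rfl⟩
  obtain ⟨q41', I41⟩ : ∃ q', L.mul q41 q' = L.one := ⟨_, L.mul_ldiv _ _⟩
  have J41 := hI.symm I41
  obtain ⟨q43, h18⟩ : ∃ q, L.mul q27 q3' = q := ⟨_, rfl⟩
  obtain ⟨q43', I43⟩ : ∃ q', L.mul q43 q' = L.one := ⟨_, L.mul_ldiv _ _⟩
  have J43 := hI.symm I43
  have h19 : L.mul q9 q31 = q39 :=
    hS.s5 (hI.n2 I5 h5) ((hC _ _).trans h3) (hI.n2 I5 h9) ((hC _ _).trans (hI.n1 I5 h1)) h12 h16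
  have h20 : L.mul q37' q7' = q33' :=
    hS.s2 (hI.n3 I7 I5 I17 h5) (hI.n3 I17 J3 I33 h13) (hI.n5 I1 I7 h0) ((hC _ _).trans (hI.n3 I5 I1 I9 h1)) (hI.n3 I9 J3 I19 h6) ((hC _ _).trans (hI.n5 I19 I37 h15))
  have h21 : L.mul q27' q7' = q31' :=
    hS.s0 (hI.n5 I17 I31 h12) (hI.n3 I7 I5 I17 h5) ((hC _ _).trans (hI.n4 I3 I7 h0)) ((hC _ _).trans (hI.n5 I15 I27 h10)) ((hC _ _).trans (hI.n4 I11 I15 h4)) (hI.n3 I3 I5 I11 h2)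
  have h22 : L.mul q1' q33' = q23' :=
    hS.s5 (hI.n4 I5 I17 h5) (hI.n3 I5 I1 I9 h1) (hI.n4 I9 I13 h3) (hI.n1 I1 h0) ((hC _ _).trans (hI.n3 I17 J3 I33 h13)) ((hC _ _).trans (hI.n3 I13 J3 I23 h8))
  have h23 : L.mul q25 q17' = q27 :=
    hS.s2 (hI.n5 I7 I17 h5) ((hC _ _).trans (hI.n5 J27 J31 h21)) ((hC _ _).trans (hI.n1 I17 h12)) h1 ((hC _ _).trans h19) h16
  have h24 : L.mul q27 q39' = q13' :=
    hS.s1 (hI.n3 I25 I1 I39 h16) (hI.n5 I13 I25 h9) ((hC _ _).trans (hI.n1 I25 h23)) (hI.n3 I17 I1 I31 h12) (hI.n1 J27 h21) (hI.n5 I7 I17 h5)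
  have h25 : L.mul q41 q3' = q37 :=
    hS.s6 h12 (hI.n5 J27 J31 h21) (hI.n2 J1 h17) (hI.n4 I3 I7 h0) h13 (hI.n5 J37 J33 h20)
  have h26 : L.mul q23 q7' = q43 :=
    hS.s6 (hI.n2 I1 h12) ((hC _ _).trans h13) (hI.n4 J33 J23 h22) (hI.n3 I1 I3 I7 h0) ((hC _ _).trans (hI.n5 J27 J31 h21)) ((hC _ _).trans h18)
  have h27 : L.mul q29 q27' = q37' :=
    hS.s0 (hI.n5 I41 I37 h25) (hI.n3 I27 J1 I41 h17) (hI.n5 I15 I27 h10) ((hC _ _).trans (hI.n1 I15 h11)) ((hC _ _).trans (hI.n3 I3 I5 I11 h2)) ((hC _ _).trans (hI.n4 I11 I15 h4))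
  have h28 : L.mul q17 q41' = q29 :=
    hS.s4 h12 ((hC _ _).trans (hI.n4 J7 J31 h21)) ((hC _ _).trans h0) ((hC _ _).trans (hI.n3 I27 J1 I41 h17)) ((hC _ _).trans h27) (hI.n3 I41 J3 I37 h25)
  have h29 : L.mul q33' q31 = q29 :=
    hS.s1 ((hC _ _).trans h12) ((hC _ _).trans h28) (hI.n4 J3 I33 h13) h0 (hI.n2 J7 h20) ((hC _ _).trans (hI.n3 I41 J3 I37 h25))
  have h30 : L.mul q29' q23' = q21' :=
    hS.s6 (hI.n5 I17 I33 h13) (hI.n3 I17 I1 I31 h12) (hI.n4 I31 I29 h29) h22 (hI.n5 I13 I23 h8) (hI.n3 I13 I1 I21 h7)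
  have h31 : L.mul q27 q13' = q29' :=
    hS.s2 (hI.n3 I13 I1 I21 h7) ((hC _ _).trans (hI.n2 J23 h30)) ((hC _ _).trans (hI.n1 I13 h8)) ((hC _ _).trans (hI.n3 I1 I3 I7 h0)) h26 h18
  have h32 : L.mul q1 q25' = q35' :=
    hS.s0 ((hC _ _).trans (hI.n4 I5 I35 h14)) ((hC _ _).trans (hI.n4 I5 I25 h9)) (hI.n3 I25 J17 I27 h23) (hI.n3 I27 J1 I41 h17) h28 (hI.n3 I27 J13 J29 h31)
  have h33 : L.mul q1 q13' = q15' :=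
    hS.s2 h31 (hI.n5 I15 I29 h11) (hI.n3 I13 I5 I25 h9) ((hC _ _).trans (hI.n1 I25 h23)) (hI.n3 I17 I5 I35 h14) h32
  rw [h2, h4, h0, h1, h3]
  exact (hI.n4 J13 J15 h33)

end LoopStr

end Pool.Agent.V7H71.UF
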