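import Pool.Agent.V7H71.SufIP.Basic

/-!
# Moufang loops are universally flexible
-/

namespace Pool.Agent.V7H71.UF

namespace LoopStr

set_option linter.unusedVariables false

/-- The identity behind the flexibility of the isotopes of a Moufang loop. -/
theorem Moufang.iso_aux {Q : Type*} {L : LoopStr Q} (hM : L.Moufang) (q1 q3 q5 q7 : Q) :
    L.mul (L.mul (L.mul q1 q7) q3)
      (L.mul (L.ldiv q1 L.one) (L.mul (L.mul (L.mul q1 q5) q3) q7)) =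
    L.mul (L.mul (L.mul (L.mul (L.mul q1 q7) q3) q5) q3) q7 := by
  have hI := hM.ip
  obtain ⟨q1', I1⟩ : ∃ q', L.mul q1 q' = L.one := ⟨_, L.mul_ldiv _ _⟩
  have J1 := hI.symm I1
  obtain ⟨q3', I3⟩ : ∃ q', L.mul q3 q' = L.one := ⟨_, L.mul_ldiv _ _⟩
  have J3 := hI.symm I3
  obtain ⟨q5', I5⟩ : ∃ q', L.mul q5 q' = L.one := ⟨_, L.mul_ldiv _ _⟩
  have J5 := hI.symm I5
  obtain ⟨q7', I7⟩ : ∃ q', L.mul q7 q' = L.one := ⟨_, L.mul_ldiv _ _⟩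
  have J7 := hI.symm I7
  obtain ⟨q9, h0⟩ : ∃ q, L.mul q1 q7 = q := ⟨_, rfl⟩
  obtain ⟨q9', I9⟩ : ∃ q', L.mul q9 q' = L.one := ⟨_, L.mul_ldiv _ _⟩
  have J9 := hI.symm I9
  obtain ⟨q11, h1⟩ : ∃ q, L.mul q9 q3 = q := ⟨_, rfl⟩
  obtain ⟨q11', I11⟩ : ∃ q', L.mul q11 q' = L.one := ⟨_, L.mul_ldiv _ _⟩
  have J11 := hI.symm I11
  obtain ⟨q13, h2⟩ : ∃ q, L.mul q11 q5 = q := ⟨_, rfl⟩
  obtain ⟨q13', I13⟩ : ∃ q', L.mul q13 q' = L.one := ⟨_, L.mul_ldiv _ _⟩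
  have J13 := hI.symm I13
  obtain ⟨q15, h3⟩ : ∃ q, L.mul q13 q3 = q := ⟨_, rfl⟩
  obtain ⟨q15', I15⟩ : ∃ q', L.mul q15 q' = L.one := ⟨_, L.mul_ldiv _ _⟩
  have J15 := hI.symm I15
  obtain ⟨q17, h4⟩ : ∃ q, L.mul q15 q7 = q := ⟨_, rfl⟩
  obtain ⟨q17', I17⟩ : ∃ q', L.mul q17 q' = L.one := ⟨_, L.mul_ldiv _ _⟩
  have J17 := hI.symm I17
  obtain ⟨q19, h5⟩ : ∃ q, L.mul q1 q5 = q := ⟨_, rfl⟩
  obtain ⟨q19', I19⟩ : ∃ q', L.mul q19 q' = L.one := ⟨_, L.mul_ldiv _ _⟩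
  have J19 := hI.symm I19
  obtain ⟨q21, h6⟩ : ∃ q, L.mul q19 q3 = q := ⟨_, rfl⟩
  obtain ⟨q21', I21⟩ : ∃ q', L.mul q21 q' = L.one := ⟨_, L.mul_ldiv _ _⟩
  have J21 := hI.symm I21
  obtain ⟨q23, h7⟩ : ∃ q, L.mul q21 q7 = q := ⟨_, rfl⟩
  obtain ⟨q23', I23⟩ : ∃ q', L.mul q23 q' = L.one := ⟨_, L.mul_ldiv _ _⟩
  have J23 := hI.symm I23
  obtain ⟨q25, h8⟩ : ∃ q, L.mul q1' q23 = q := ⟨_, rfl⟩
  obtain ⟨q25', I25⟩ : ∃ q', L.mul q25 q' = L.one := ⟨_, L.mul_ldiv _ _⟩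
  have J25 := hI.symm I25
  obtain ⟨q27, h9⟩ : ∃ q, L.mul q7' q1 = q := ⟨_, rfl⟩
  obtain ⟨q27', I27⟩ : ∃ q', L.mul q27 q' = L.one := ⟨_, L.mul_ldiv _ _⟩
  have J27 := hI.symm I27
  obtain ⟨q29, h10⟩ : ∃ q, L.mul q3 q7 = q := ⟨_, rfl⟩
  obtain ⟨q29', I29⟩ : ∃ q', L.mul q29 q' = L.one := ⟨_, L.mul_ldiv _ _⟩
  have J29 := hI.symm I29
  obtain ⟨q31, h11⟩ : ∃ q, L.mul q7 q3 = q := ⟨_, rfl⟩
  obtain ⟨q31', I31⟩ : ∃ q', L.mul q31 q' = L.one := ⟨_, L.mul_ldiv _ _⟩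
  have J31 := hI.symm I31
  obtain ⟨q33, h12⟩ : ∃ q, L.mul q5 q7' = q := ⟨_, rfl⟩
  obtain ⟨q33', I33⟩ : ∃ q', L.mul q33 q' = L.one := ⟨_, L.mul_ldiv _ _⟩
  have J33 := hI.symm I33
  obtain ⟨q35, h13⟩ : ∃ q, L.mul q9 q5' = q := ⟨_, rfl⟩
  obtain ⟨q35', I35⟩ : ∃ q', L.mul q35 q' = L.one := ⟨_, L.mul_ldiv _ _⟩
  have J35 := hI.symm I35
  obtain ⟨q37, h14⟩ : ∃ q, L.mul q11 q7 = q := ⟨_, rfl⟩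
  obtain ⟨q37', I37⟩ : ∃ q', L.mul q37 q' = L.one := ⟨_, L.mul_ldiv _ _⟩
  have J37 := hI.symm I37
  obtain ⟨q39, h15⟩ : ∃ q, L.mul q7' q11 = q := ⟨_, rfl⟩
  obtain ⟨q39', I39⟩ : ∃ q', L.mul q39 q' = L.one := ⟨_, L.mul_ldiv _ _⟩
  have J39 := hI.symm I39
  obtain ⟨q41, h16⟩ : ∃ q, L.mul q13 q7' = q := ⟨_, rfl⟩
  obtain ⟨q41', I41⟩ : ∃ q', L.mul q41 q' = L.one := ⟨_, L.mul_ldiv _ _⟩
  have J41 := hI.symm I41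
  obtain ⟨q43, h17⟩ : ∃ q, L.mul q7' q15 = q := ⟨_, rfl⟩
  obtain ⟨q43', I43⟩ : ∃ q', L.mul q43 q' = L.one := ⟨_, L.mul_ldiv _ _⟩
  have J43 := hI.symm I43
  obtain ⟨q45, h18⟩ : ∃ q, L.mul q19 q7' = q := ⟨_, rfl⟩
  obtain ⟨q45', I45⟩ : ∃ q', L.mul q45 q' = L.one := ⟨_, L.mul_ldiv _ _⟩
  have J45 := hI.symm I45
  obtain ⟨q47, h19⟩ : ∃ q, L.mul q25 q7' = q := ⟨_, rfl⟩
  obtain ⟨q47', I47⟩ : ∃ q', L.mul q47 q' = L.one := ⟨_, L.mul_ldiv _ _⟩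
  have J47 := hI.symm I47
  obtain ⟨q49, h20⟩ : ∃ q, L.mul q7 q29 = q := ⟨_, rfl⟩
  obtain ⟨q49', I49⟩ : ∃ q', L.mul q49 q' = L.one := ⟨_, L.mul_ldiv _ _⟩
  have J49 := hI.symm I49
  obtain ⟨q51, h21⟩ : ∃ q, L.mul q35 q1' = q := ⟨_, rfl⟩
  obtain ⟨q51', I51⟩ : ∃ q', L.mul q51 q' = L.one := ⟨_, L.mul_ldiv _ _⟩
  have J51 := hI.symm I51
  obtain ⟨q53, h22⟩ : ∃ q, L.mul q7' q35 = q := ⟨_, rfl⟩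
  obtain ⟨q53', I53⟩ : ∃ q', L.mul q53 q' = L.one := ⟨_, L.mul_ldiv _ _⟩
  have J53 := hI.symm I53
  obtain ⟨q55, h23⟩ : ∃ q, L.mul q7' q41 = q := ⟨_, rfl⟩
  obtain ⟨q55', I55⟩ : ∃ q', L.mul q55 q' = L.one := ⟨_, L.mul_ldiv _ _⟩
  have J55 := hI.symm I55
  have h24 : L.mul q39' q27 = q31' :=
    hM.b5 (hI.n4 I11 I39 h15) (hI.n4 I3 I11 h1) (hI.n3 I7 I3 I31 h11) (hI.n2 I7 h0) h9
  have h25 : L.mul q53' q27 = q33 :=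
    hM.b5 (hI.n4 I35 I53 h22) (hI.n4 J5 I35 h13) h12 (hI.n2 I7 h0) h9
  have h26 : L.mul q1 q49 = q37 :=
    hM.b5 h0 h1 h14 h10 h20
  have h27 : L.mul q41 q49 = q17 :=
    hM.b5 (hI.n2 J7 h16) h3 h4 h10 h20
  have h28 : L.mul q45 q49 = q23 :=
    hM.b5 (hI.n2 J7 h18) h6 h7 h10 h20
  have h29 : L.mul q31' q49 = q7 :=
    hM.b5 (hI.n4 I3 I31 h11) J3 (L.one_mul _) h10 h20
  have h30 : L.mul q31 q43' = q55' :=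
    hM.a2 h11 (hI.n3 J7 I15 I43 h17) (hI.n5 I13 I15 h3) (hI.n3 I13 J7 I41 h16) (hI.n3 J7 I41 I55 h23)
  have h31 : L.mul q33 q55' = q39' :=
    hM.b1 h12 (hI.n4 I11 I39 h15) (hI.n4 I41 I55 h23) (hI.n5 I13 I41 h16) (hI.n5 I11 I13 h2)
  have h32 : L.mul q1 q45' = q51 :=
    hM.a4 h0 (hI.n4 I5 I19 h5) h13 (hI.n3 I19 J7 I45 h18) (hI.n2 J1 h21)
  have h33 : L.mul q37' q35 = q25' :=
    hM.b1 (hI.n3 I1 I49 I37 h26) (hI.n4 I23 I25 h8) h21 (hI.n1 I1 h32) (hI.n3 I45 I49 I23 h28)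
  have h34 : L.mul q53 q47 = q39 :=
    hM.a3 (hI.n1 J7 h22) (hI.n2 J7 h19) (hI.n5 J37 J25 h33) (hI.n1 J7 h15) h14
  have h35 : L.mul q47' q39' = q43' :=
    hM.a5 h24 (hI.n1 I33 h31) (hI.n1 I31 h30) (hI.n5 J53 I33 h25) (hI.n4 I47 I39 h34)
  have h36 : L.mul q25' q11' = q17' :=
    hM.a3 (hI.n3 I25 J7 I47 h19) (hI.n3 J7 I11 I39 h15) h35 (hI.n5 I15 I17 h4) (hI.n3 J7 I15 I43 h17)
  have eb : L.ldiv q1 L.one = q1' := ldiv_eq I1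
  rw [eb, h0, h1, h2, h3, h4, h5, h6, h7, h8]
  exact (hI.n3 J25 J11 J17 h36)

end LoopStr

end Pool.Agent.V7H71.UF
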