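import Pool.Agent.V7H71.SufIP.Comm

/-!
# Semi-universally flexible loops with a one-sided inverse property or one alternative law
-/

namespace Pool.Agent.V7H71.UF

namespace LoopStr

set_option linter.unusedVariables false

variable {Q : Type*} {L : LoopStr Q}

/-- The left inverse property `x⁻¹ (x y) = y`. -/
def LIP (L : LoopStr Q) : Prop := ∀ x y, L.mul (L.ldiv x L.one) (L.mul x y) = y

/-- The right inverse property `(y x) x⁻¹ = y`. -/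
def RIP (L : LoopStr Q) : Prop := ∀ x y, L.mul (L.mul y x) (L.rdiv L.one x) = y

/-- The left alternative law `x (x y) = (x x) y`. -/
def LAlt (L : LoopStr Q) : Prop := ∀ x y, L.mul x (L.mul x y) = L.mul (L.mul x x) y

/-- The right alternative law `(y x) x = y (x x)`. -/
def RAlt (L : LoopStr Q) : Prop := ∀ x y, L.mul (L.mul y x) x = L.mul y (L.mul x x)

/-- Flexibility. -/
def Flex (L : LoopStr Q) : Prop := ∀ x y, L.mul x (L.mul y x) = L.mul (L.mul x y) x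

/-- Flexibility of the right isotopes, without divisions. -/
theorem SUF.right (h : L.SUF) (u z b : Q) :
    L.mul (L.mul (L.mul b u) z) u = L.mul (L.mul b u) (L.ldiv b (L.mul (L.mul b z) u)) := by
  have := h.2 b (L.mul b u) (L.mul b z)
  have e : ∀ y, L.rdiv y L.one = y := fun y => rdiv_eq (L.mul_one y)
  simp only [isot, e, L.ldiv_mul] at this
  exact this.symm

theorem SUF.flex (h : L.SUF) : L.Flex := by
  intro u z
  have := h.left u z L.one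
  have e : ∀ y, L.rdiv y L.one = y := fun y => rdiv_eq (L.mul_one y)
  rwa [L.mul_one, L.mul_one, e] at this

theorem SUF.isym (h : L.SUF) {q q' : Q} (i : L.mul q q' = L.one) : L.mul q' q = L.one := by
  have := h.flex q q'
  rw [i, L.one_mul] at this
  exact lcancel (this.trans (L.mul_one q).symm)

section closure

variable (hS : L.SUF)
include hS

theorem SUF.t5 {u z d b y v r c e : Q} (h0 : L.mul b z = y) (h1 : L.mul y u = c)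
    (h2 : L.mul b d = c) (h3 : L.mul b u = v) (h4 : L.mul v z = r) (h6 : L.mul v d = e) :
    L.mul r u = e := by
  have := hS.right u z b
  rwa [h0, h1, ldiv_eq h2, h3, h4, h6] at this

theorem SUF.t6 {u z d b y v r c e : Q} (h0 : L.mul b z = y) (h1 : L.mul y u = c)
    (h2 : L.mul b d = c) (h3 : L.mul b u = v) (h4 : L.mul v z = r) (h5 : L.mul r u = e) :
    L.mul v d = e := (hS.t5 h0 h1 h2 h3 h4 rfl).symm.trans h5

theorem SUF.t4 {u z d b y v r c e : Q} (h0 : L.mul b z = y) (h1 : L.mul y u = c)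
    (h2 : L.mul b d = c) (h3 : L.mul b u = v) (h5 : L.mul r u = e) (h6 : L.mul v d = e) :
    L.mul v z = r := rcancel ((hS.t5 h0 h1 h2 h3 rfl h6).trans h5.symm)

theorem SUF.t2 {u z d b y v r c e : Q} (h0 : L.mul b z = y) (h1 : L.mul y u = c)
    (h3 : L.mul b u = v) (h4 : L.mul v z = r) (h5 : L.mul r u = e) (h6 : L.mul v d = e) :
    L.mul b d = c := by
  have e1 : L.mul b (L.ldiv b c) = c := L.mul_ldiv _ _
  have e2 := hS.t6 h0 h1 e1 h3 h4 h5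
  rw [← lcancel (e2.trans h6.symm)]
  exact e1

theorem SUF.t1 {u z d b y v r c e : Q} (h0 : L.mul b z = y) (h2 : L.mul b d = c)
    (h3 : L.mul b u = v) (h4 : L.mul v z = r) (h5 : L.mul r u = e) (h6 : L.mul v d = e) :
    L.mul y u = c := (hS.t2 h0 rfl h3 h4 h5 h6).symm.trans h2

theorem SUF.t0 {u z d b y v r c e : Q} (h1 : L.mul y u = c) (h2 : L.mul b d = c)
    (h3 : L.mul b u = v) (h4 : L.mul v z = r) (h5 : L.mul r u = e) (h6 : L.mul v d = e) :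
    L.mul b z = y := rcancel ((hS.t1 rfl h2 h3 h4 h5 h6).trans h1.symm)

end closure

theorem Flex.x3 (h : L.Flex) {x y t l m : Q} (h0 : L.mul x y = t) (h1 : L.mul t x = l)
    (h2 : L.mul y x = m) : L.mul x m = l := by rw [← h2, h, h0, h1]

theorem Flex.x1 (h : L.Flex) {x y t l m : Q} (h0 : L.mul x y = t) (h2 : L.mul y x = m)
    (h3 : L.mul x m = l) : L.mul t x = l := by rw [← h0, ← h, h2, h3]

theorem Flex.x0 (h : L.Flex) {x y t l m : Q} (h1 : L.mul t x = l) (h2 : L.mul y x = m)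
    (h3 : L.mul x m = l) : L.mul x y = t := rcancel ((h.x1 rfl h2 h3).trans h1.symm)

theorem Flex.x2 (h : L.Flex) {x y t l m : Q} (h0 : L.mul x y = t) (h1 : L.mul t x = l)
    (h3 : L.mul x m = l) : L.mul y x = m := lcancel ((h.x3 h0 h1 rfl).trans h3.symm)

theorem LAlt.l3 (h : L.LAlt) {x y s m l : Q} (h0 : L.mul x x = m) (h1 : L.mul x y = s)
    (h2 : L.mul x s = l) : L.mul m y = l := by rw [← h0, ← h, h1, h2]

theorem LAlt.l2 (h : L.LAlt) {x y s m l : Q} (h0 : L.mul x x = m) (h1 : L.mul x y = s)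
    (h3 : L.mul m y = l) : L.mul x s = l := by rw [← h1, h, h0, h3]

theorem LAlt.l1 (h : L.LAlt) {x y s m l : Q} (h0 : L.mul x x = m) (h2 : L.mul x s = l)
    (h3 : L.mul m y = l) : L.mul x y = s := lcancel ((h.l2 h0 rfl h3).trans h2.symm)

theorem LIP.n1 (h : L.LIP) {r R c s : Q} (i : L.mul r R = L.one) (k : L.mul r c = s) :
    L.mul R s = c := by
  have e : L.ldiv r L.one = R := ldiv_eq i
  rw [← e, ← k, h]

/-- A SUF loop with the left inverse property has the right inverse property. -/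
theorem SUF.rip_aux (hS : L.SUF) (hI : L.LIP) (q1 q3 : Q) :
    L.mul (L.mul q1 q3) (L.ldiv q3 L.one) = q1 := by
  have hF := hS.flex
  obtain ⟨q1', I1⟩ : ∃ q', L.mul q1 q' = L.one := ⟨_, L.mul_ldiv _ _⟩
  have J1 := hS.isym I1
  obtain ⟨q3', I3⟩ : ∃ q', L.mul q3 q' = L.one := ⟨_, L.mul_ldiv _ _⟩
  have J3 := hS.isym I3
  obtain ⟨q5, h0⟩ : ∃ q, L.mul q1 q3 = q := ⟨_, rfl⟩
  obtain ⟨q5', I5⟩ : ∃ q', L.mul q5 q' = L.one := ⟨_, L.mul_ldiv _ _⟩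
  have J5 := hS.isym I5
  obtain ⟨q7, h1⟩ : ∃ q, L.mul q3 q1 = q := ⟨_, rfl⟩
  obtain ⟨q7', I7⟩ : ∃ q', L.mul q7 q' = L.one := ⟨_, L.mul_ldiv _ _⟩
  have J7 := hS.isym I7
  obtain ⟨q9, h2⟩ : ∃ q, L.mul q5 q1 = q := ⟨_, rfl⟩
  obtain ⟨q9', I9⟩ : ∃ q', L.mul q9 q' = L.one := ⟨_, L.mul_ldiv _ _⟩
  have J9 := hS.isym I9
  obtain ⟨q11, h3⟩ : ∃ q, L.mul q q1 = q5' := ⟨_, L.rdiv_mul _ _⟩
  obtain ⟨q11', I11⟩ : ∃ q', L.mul q11 q' = L.one := ⟨_, L.mul_ldiv _ _⟩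
  have J11 := hS.isym I11
  obtain ⟨q13, h4⟩ : ∃ q, L.mul q5' q3 = q := ⟨_, rfl⟩
  obtain ⟨q13', I13⟩ : ∃ q', L.mul q13 q' = L.one := ⟨_, L.mul_ldiv _ _⟩
  have J13 := hS.isym I13
  obtain ⟨q15, h5⟩ : ∃ q, L.mul q5' q7 = q := ⟨_, rfl⟩
  obtain ⟨q15', I15⟩ : ∃ q', L.mul q15 q' = L.one := ⟨_, L.mul_ldiv _ _⟩
  have J15 := hS.isym I15
  have h6 : L.mul q1' q9 = q7 :=
    hS.s1 h2 h1 J1 (L.mul_one _) (hI.n1 I1 h0) (L.mul_one _)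
  have h7 : L.mul q11 q9 = q15 :=
    hS.s4 h3 I5 J1 h2 (hI.n1 J5 h5) h6
  have h8 : L.mul q5' q1' = q11 :=
    hS.t0 h7 h5 (hI.n1 I5 h2) I1 (L.one_mul _) (hI.n1 J1 h6)
  have h9 : L.mul q11 q5 = q13 :=
    hS.s2 (hI.n1 I1 h0) h4 J5 (L.mul_one _) h8 (L.mul_one _)
  have h10 : L.mul q13 q1 = q15 :=
    hS.t1 h9 h7 h3 J5 (L.one_mul _) (hI.n1 I5 h2)
  have h11 : L.mul q15 q1' = q13 :=
    hS.t5 (hI.n1 I5 h2) I1 J5 h8 h7 h9
  have h12 : L.mul q13 q5' = q11 :=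
    hS.s6 h2 h7 h10 h3 I5 (L.mul_one _)
  have h13 : L.mul q3 q5' = q1' :=
    hS.s2 h12 (hI.n1 J5 h8) I5 (L.mul_one _) (hI.n1 J5 h4) (L.mul_one _)
  have h14 : L.mul q5' q1 = q3' :=
    hS.t0 (hI.n1 I3 h13) (L.mul_one _) h8 h3 h8 (L.mul_one _)
  have e : L.ldiv q3 L.one = q3' := ldiv_eq I3
  rw [e, h0]
  exact (hI.n1 J5 h14)

/-- A SUF loop with the left alternative law has the left inverse property. -/
theorem SUF.lip_of_lalt (hS : L.SUF) (hA : L.LAlt) : L.LIP := by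
  intro q1 q3
  have hF := hS.flex
  obtain ⟨q1', I1⟩ : ∃ q', L.mul q1 q' = L.one := ⟨_, L.mul_ldiv _ _⟩
  have J1 := hS.isym I1
  obtain ⟨q3', I3⟩ : ∃ q', L.mul q3 q' = L.one := ⟨_, L.mul_ldiv _ _⟩
  have J3 := hS.isym I3
  obtain ⟨q5, h0⟩ : ∃ q, L.mul q1 q3 = q := ⟨_, rfl⟩
  obtain ⟨q5', I5⟩ : ∃ q', L.mul q5 q' = L.one := ⟨_, L.mul_ldiv _ _⟩
  have J5 := hS.isym I5
  obtain ⟨q7, h1⟩ : ∃ q, L.mul q1 q1 = q := ⟨_, rfl⟩
  obtain ⟨q7', I7⟩ : ∃ q', L.mul q7 q' = L.one := ⟨_, L.mul_ldiv _ _⟩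
  have J7 := hS.isym I7
  obtain ⟨q9, h2⟩ : ∃ q, L.mul q3 q1 = q := ⟨_, rfl⟩
  obtain ⟨q9', I9⟩ : ∃ q', L.mul q9 q' = L.one := ⟨_, L.mul_ldiv _ _⟩
  have J9 := hS.isym I9
  obtain ⟨q11, h3⟩ : ∃ q, L.mul q q1 = q3 := ⟨_, L.rdiv_mul _ _⟩
  obtain ⟨q11', I11⟩ : ∃ q', L.mul q11 q' = L.one := ⟨_, L.mul_ldiv _ _⟩
  have J11 := hS.isym I11
  obtain ⟨q13, h4⟩ : ∃ q, L.mul q q3 = q1 := ⟨_, L.rdiv_mul _ _⟩
  obtain ⟨q13', I13⟩ : ∃ q', L.mul q13 q' = L.one := ⟨_, L.mul_ldiv _ _⟩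
  have J13 := hS.isym I13
  obtain ⟨q15, h5⟩ : ∃ q, L.mul q3 q = q1 := ⟨_, L.mul_ldiv _ _⟩
  obtain ⟨q15', I15⟩ : ∃ q', L.mul q15 q' = L.one := ⟨_, L.mul_ldiv _ _⟩
  have J15 := hS.isym I15
  obtain ⟨q17, h6⟩ : ∃ q, L.mul q1 q5 = q := ⟨_, rfl⟩
  obtain ⟨q17', I17⟩ : ∃ q', L.mul q17 q' = L.one := ⟨_, L.mul_ldiv _ _⟩
  have J17 := hS.isym I17
  obtain ⟨q19, h7⟩ : ∃ q, L.mul q5 q1 = q := ⟨_, rfl⟩
  obtain ⟨q19', I19⟩ : ∃ q', L.mul q19 q' = L.one := ⟨_, L.mul_ldiv _ _⟩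
  have J19 := hS.isym I19
  obtain ⟨q21, h8⟩ : ∃ q, L.mul q5 q = q1 := ⟨_, L.mul_ldiv _ _⟩
  obtain ⟨q21', I21⟩ : ∃ q', L.mul q21 q' = L.one := ⟨_, L.mul_ldiv _ _⟩
  have J21 := hS.isym I21
  obtain ⟨q23, h9⟩ : ∃ q, L.mul q3 q5 = q := ⟨_, rfl⟩
  obtain ⟨q23', I23⟩ : ∃ q', L.mul q23 q' = L.one := ⟨_, L.mul_ldiv _ _⟩
  have J23 := hS.isym I23
  obtain ⟨q25, h10⟩ : ∃ q, L.mul q5 q3 = q := ⟨_, rfl⟩
  obtain ⟨q25', I25⟩ : ∃ q', L.mul q25 q' = L.one := ⟨_, L.mul_ldiv _ _⟩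
  have J25 := hS.isym I25
  obtain ⟨q27, h11⟩ : ∃ q, L.mul q q5 = q3 := ⟨_, L.rdiv_mul _ _⟩
  obtain ⟨q27', I27⟩ : ∃ q', L.mul q27 q' = L.one := ⟨_, L.mul_ldiv _ _⟩
  have J27 := hS.isym I27
  obtain ⟨q29, h12⟩ : ∃ q, L.mul q5 q5 = q := ⟨_, rfl⟩
  obtain ⟨q29', I29⟩ : ∃ q', L.mul q29 q' = L.one := ⟨_, L.mul_ldiv _ _⟩
  have J29 := hS.isym I29
  obtain ⟨q31, h13⟩ : ∃ q, L.mul q7 q1 = q := ⟨_, rfl⟩
  obtain ⟨q31', I31⟩ : ∃ q', L.mul q31 q' = L.one := ⟨_, L.mul_ldiv _ _⟩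
  have J31 := hS.isym I31
  obtain ⟨q33, h14⟩ : ∃ q, L.mul q3 q7 = q := ⟨_, rfl⟩
  obtain ⟨q33', I33⟩ : ∃ q', L.mul q33 q' = L.one := ⟨_, L.mul_ldiv _ _⟩
  have J33 := hS.isym I33
  obtain ⟨q35, h15⟩ : ∃ q, L.mul q q3 = q7 := ⟨_, L.rdiv_mul _ _⟩
  obtain ⟨q35', I35⟩ : ∃ q', L.mul q35 q' = L.one := ⟨_, L.mul_ldiv _ _⟩
  have J35 := hS.isym I35
  obtain ⟨q37, h16⟩ : ∃ q, L.mul q5 q7 = q := ⟨_, rfl⟩
  obtain ⟨q37', I37⟩ : ∃ q', L.mul q37 q' = L.one := ⟨_, L.mul_ldiv _ _⟩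
  have J37 := hS.isym I37
  obtain ⟨q39, h17⟩ : ∃ q, L.mul q3 q9 = q := ⟨_, rfl⟩
  obtain ⟨q39', I39⟩ : ∃ q', L.mul q39 q' = L.one := ⟨_, L.mul_ldiv _ _⟩
  have J39 := hS.isym I39
  obtain ⟨q41, h18⟩ : ∃ q, L.mul q11 q5 = q := ⟨_, rfl⟩
  obtain ⟨q41', I41⟩ : ∃ q', L.mul q41 q' = L.one := ⟨_, L.mul_ldiv _ _⟩
  have J41 := hS.isym I41
  obtain ⟨q43, h19⟩ : ∃ q, L.mul q5 q13 = q := ⟨_, rfl⟩
  obtain ⟨q43', I43⟩ : ∃ q', L.mul q43 q' = L.one := ⟨_, L.mul_ldiv _ _⟩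
  have J43 := hS.isym I43
  obtain ⟨q45, h20⟩ : ∃ q, L.mul q5 q = q13 := ⟨_, L.mul_ldiv _ _⟩
  obtain ⟨q45', I45⟩ : ∃ q', L.mul q45 q' = L.one := ⟨_, L.mul_ldiv _ _⟩
  have J45 := hS.isym I45
  obtain ⟨q47, h21⟩ : ∃ q, L.mul q3 q17 = q := ⟨_, rfl⟩
  obtain ⟨q47', I47⟩ : ∃ q', L.mul q47 q' = L.one := ⟨_, L.mul_ldiv _ _⟩
  have J47 := hS.isym I47
  obtain ⟨q49, h22⟩ : ∃ q, L.mul q5 q17 = q := ⟨_, rfl⟩
  obtain ⟨q49', I49⟩ : ∃ q', L.mul q49 q' = L.one := ⟨_, L.mul_ldiv _ _⟩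
  have J49 := hS.isym I49
  obtain ⟨q51, h23⟩ : ∃ q, L.mul q5 q = q17 := ⟨_, L.mul_ldiv _ _⟩
  obtain ⟨q51', I51⟩ : ∃ q', L.mul q51 q' = L.one := ⟨_, L.mul_ldiv _ _⟩
  have J51 := hS.isym I51
  obtain ⟨q53, h24⟩ : ∃ q, L.mul q3 q19 = q := ⟨_, rfl⟩
  obtain ⟨q53', I53⟩ : ∃ q', L.mul q53 q' = L.one := ⟨_, L.mul_ldiv _ _⟩
  have J53 := hS.isym I53
  have h25 : L.mul q1' q7 = q1 :=
    hS.s1 h1 (L.one_mul _) J1 (L.mul_one _) J1 (L.one_mul _)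
  have h26 : L.mul q1' q31 = q7 :=
    hS.s1 h13 h1 J1 (L.mul_one _) h25 (L.mul_one _)
  have h27 : L.mul q7' q1 = q1' :=
    hS.s0 I1 J1 h1 J7 (L.mul_one _) h25
  have h28 : L.mul q1 q7 = q31 :=
    hS.s0 h26 (L.one_mul _) h25 h1 h25 (L.one_mul _)
  have h29 : L.mul q7 q1' = q1 :=
    hS.t1 h1 (L.mul_one _) I1 (L.one_mul _) I1 (L.one_mul _)
  have h30 : L.mul q31 q1' = q7 :=
    hS.t4 h29 h1 (L.mul_one _) h13 h13 (L.mul_one _)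
  have h31 : L.mul q1 q7' = q1' :=
    hS.t0 J1 I1 h1 I7 (L.one_mul _) h29
  have h32 : L.mul q7' q31 = q1 :=
    hS.t2 J7 (L.one_mul _) h27 h25 h1 h26
  have h33 : L.mul q31 q7' = q1 :=
    hS.t4 I7 (L.one_mul _) h29 h13 h1 h30
  have h34 : L.mul q1' q1' = q7' :=
    hS.t0 J7 J1 h25 I1 (L.one_mul _) h1
  have h35 : L.mul q7 q3 = q17 :=
    hA.l3 h1 h0 h6
  have h36 : L.mul q9 q3 = q23 :=
    hF.x1 h2 h0 h9
  have h37 : L.mul q1 q9 = q19 :=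
    hF.x3 h0 h7 h2
  have h38 : L.mul q1 q21 = q13 :=
    hS.t0 h4 (L.mul_one _) h0 h8 h0 (L.mul_one _)
  have h39 : L.mul q27 q17 = q5 :=
    hS.s1 h6 (L.one_mul _) h11 h0 h11 (L.one_mul _)
  have h40 : L.mul q19 q3 = q29 :=
    hS.t5 h1 h35 h6 h0 h7 h12
  have h41 : L.mul q21 q5 = q51 :=
    hF.x2 h8 h6 h23
  have h42 : L.mul q19 q5 = q49 :=
    hF.x1 h7 h6 h22
  have h43 : L.mul q1 q33 = q37 :=
    hS.s5 h2 h37 h7 h1 h14 h16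
  have h44 : L.mul q29 q21 = q19 :=
    hA.l3 h12 h8 h7
  have h45 : L.mul q29 q51 = q49 :=
    hS.t6 h8 h6 h23 h12 h44 h42
  have h46 : L.mul q25 q21 = q5 :=
    hS.t4 h8 h0 (L.mul_one _) h10 h10 (L.mul_one _)
  have h47 : L.mul q25 q45 = q1 :=
    hS.t2 h46 h8 h46 h8 h38 h20
  have h48 : L.mul q17 q21 = q7 :=
    hS.t5 h12 h44 h7 h8 h6 h1
  have h49 : L.mul q5' q29 = q5 :=
    hS.s1 h12 (L.one_mul _) J5 (L.mul_one _) J5 (L.one_mul _)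
  have h50 : L.mul q29' q5 = q5' :=
    hS.s0 I5 J5 h12 J29 (L.mul_one _) h49
  have h51 : L.mul q29 q5' = q5 :=
    hS.s2 I5 (L.mul_one _) I5 (L.mul_one _) h12 (L.mul_one _)
  have h52 : L.mul q5' q5' = q29' :=
    hS.s0 I29 I5 h51 J5 (L.mul_one _) h12
  have h53 : L.mul q5 q29' = q5' :=
    hS.t0 J5 I5 h12 I29 (L.one_mul _) h51
  have h54 : L.mul q29 q45 = q43 :=
    hA.l3 h12 h20 h19
  have h55 : L.mul q31' q1 = q7' :=
    hS.s0 I7 J1 h13 J31 (L.mul_one _) h26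
  have h56 : L.mul q1' q7' = q31' :=
    hS.s0 I31 I7 h33 J1 (L.mul_one _) h13
  have h57 : L.mul q7 q31' = q1' :=
    hS.t0 J1 I7 h13 I31 (L.one_mul _) h33
  have h58 : L.mul q33 q3 = q47 :=
    hF.x1 h14 h35 h21
  have h59 : L.mul q7 q21 = q35 :=
    hS.t0 h15 (L.mul_one _) h35 h48 h35 (L.mul_one _)
  have h60 : L.mul q31' q7 = q1' :=
    hS.s2 J7 (L.mul_one _) h25 h27 h34 h55
  have h61 : L.mul q7' q1' = q31' :=
    hS.t0 h60 h27 J7 (L.one_mul _) h25 (L.one_mul _)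
  have h62 : L.mul q1 q31' = q7' :=
    hS.t0 h27 h31 h1 h57 J1 I7
  have h63 : L.mul q1 q13 = q35 :=
    hA.l2 h1 h38 h59
  have h64 : L.mul q19 q21 = q43 :=
    hS.t1 h7 h19 h8 h1 h59 h63
  have h65 : L.mul q43 q3 = q19 :=
    hS.t5 h63 h15 h1 h0 h19 h7
  have h66 : L.mul q19 q1 = q37 :=
    hS.s6 h38 h19 h64 h8 h1 h16
  have h67 : L.mul q9 q1 = q33 :=
    hF.x2 h37 h66 h43
  have h68 : L.mul q9 q9 = q53 :=
    hS.s6 h1 h14 h67 h2 h37 h24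
  have h69 : L.mul q11 q7 = q9 :=
    hS.t2 h3 h2 h3 h2 h67 h14
  have h70 : L.mul q9' q53 = q9 :=
    hS.s1 h68 (L.one_mul _) J9 (L.mul_one _) J9 (L.one_mul _)
  have h71 : L.mul q53' q9 = q9' :=
    hS.s0 I9 J9 h68 J53 (L.mul_one _) h70
  have h72 : L.mul q53 q9' = q9 :=
    hS.t1 h68 (L.mul_one _) I9 (L.one_mul _) I9 (L.one_mul _)
  have h73 : L.mul q9 q53' = q9' :=
    hS.t0 J9 I9 h68 I53 (L.one_mul _) h72
  have h74 : L.mul q9' q9' = q53' :=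
    hS.t0 J53 J9 h70 I9 (L.one_mul _) h68
  have h75 : L.mul q3 q3 = q41 :=
    hS.s6 h1 h69 h2 h3 h0 h18
  have h76 : L.mul q3' q41 = q3 :=
    hS.s1 h75 (L.one_mul _) J3 (L.mul_one _) J3 (L.one_mul _)
  have h77 : L.mul q41' q3 = q3' :=
    hS.s0 I3 J3 h75 J41 (L.mul_one _) h76
  have h78 : L.mul q41 q3' = q3 :=
    hS.s2 I3 (L.mul_one _) I3 (L.mul_one _) h75 (L.mul_one _)
  have h79 : L.mul q3' q3' = q41' :=
    hS.s0 I41 I3 h78 J3 (L.mul_one _) h75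
  have h80 : L.mul q3 q41' = q3' :=
    hS.t0 J3 I3 h75 I41 (L.one_mul _) h78
  have h81 : L.mul q41 q1 = q39 :=
    hA.l3 h75 h2 h17
  have h82 : L.mul q41 q15 = q9 :=
    hA.l3 h75 h5 h2
  have h83 : L.mul q23 q1 = q53 :=
    hS.t5 h75 h81 h17 h2 h36 h68
  have h84 : L.mul q5 q15 = q7 :=
    hS.t5 h75 h82 h2 h5 h0 h1
  have h85 : L.mul q23 q15 = q33 :=
    hS.s2 h84 h14 h5 h7 h24 h83
  have h86 : L.mul q11 q19 = q39 :=
    hS.t2 h18 h81 h3 h9 h83 h24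
  have h87 : L.mul q29 q15 = q37 :=
    hA.l3 h12 h84 h16
  have h88 : L.mul q17 q15 = q31 :=
    hS.t5 h9 h85 h14 h5 h6 h28
  have h89 : L.mul q11 q31 = q33 :=
    hS.s1 h28 h14 h69 h37 h86 h17
  have h90 : L.mul q25 q15 = q19 :=
    hS.t1 h10 h7 h84 h35 h88 h13
  have h91 : L.mul q11 q17 = q23 :=
    hS.s5 h13 h89 h67 h3 h35 h36
  have h92 : L.mul q25 q51 = q29 :=
    hS.t0 h44 h90 h46 h23 h48 h84
  have h93 : L.mul q21 q21 = q45 :=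
    hS.s0 h47 h8 h46 h41 h92 h12
  have h94 : L.mul q21' q45 = q21 :=
    hS.s1 h93 (L.one_mul _) J21 (L.mul_one _) J21 (L.one_mul _)
  have h95 : L.mul q21 q1 = q15 :=
    hS.s4 h93 h20 h38 h8 h84 h1
  have h96 : L.mul q45' q21 = q21' :=
    hS.s0 I21 J21 h93 J45 (L.mul_one _) h94
  have h97 : L.mul q45 q21' = q21 :=
    hS.s2 I21 (L.mul_one _) I21 (L.mul_one _) h93 (L.mul_one _)
  have h98 : L.mul q21' q21' = q45' :=
    hS.s0 I45 I21 h97 J21 (L.mul_one _) h93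
  have h99 : L.mul q21 q45' = q21' :=
    hS.t0 J21 I21 h93 I45 (L.one_mul _) h97
  have h100 : L.mul q21 q9 = q1 :=
    hS.s4 h95 h5 (L.one_mul _) h2 h2 (L.one_mul _)
  have h101 : L.mul q21 q39 = q9 :=
    hS.s1 h81 h2 h95 h82 h100 h5
  have h102 : L.mul q45 q9 = q15 :=
    hA.l3 h93 h100 h95
  have h103 : L.mul q51 q21 = q15 :=
    hF.x1 h41 h8 h95
  have h104 : L.mul q45 q39 = q1 :=
    hS.s2 h101 h100 h101 h100 h95 h102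
  have h105 : L.mul q13 q9 = q7 :=
    hS.t5 h93 h102 h95 h100 h38 h1
  have h106 : L.mul q13 q41 = q5 :=
    hS.s1 h75 h0 h4 h2 h105 h1
  have h107 : L.mul q43 q9 = q37 :=
    hS.t5 h38 h105 h1 h37 h64 h66
  have h108 : L.mul q1 q41 = q25 :=
    hS.t6 h4 h0 h106 h4 h0 h10
  have h109 : L.mul q1 q23 = q29 :=
    hS.s5 h75 h108 h10 h0 h9 h12
  have h110 : L.mul q1 q47 = q49 :=
    hS.s5 h9 h109 h12 h6 h21 h22
  have h111 : L.mul q9 q5 = q47 :=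
    hS.s4 h36 h109 h40 h0 h110 h42
  have h112 : L.mul q13 q23 = q17 :=
    hS.t4 h109 h44 h37 h38 h48 h105
  have h113 : L.mul q27 q1 = L.one :=
    hS.t0 (L.one_mul _) h39 h11 h2 h111 h21
  have e : q1 = q27' := Eq.symm (lcancel (I27.trans h113.symm))
  subst e
  have e : q1' = q27 := lcancel (I1.trans J27.symm)
  subst e
  have e : L.ldiv q1 L.one = q1' := ldiv_eq I1
  rw [e, h0]
  exact h11

theorem SUF.ip_of_lip (hS : L.SUF) (h : L.LIP) : L.IP := by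
  intro x
  have i : L.mul x (L.ldiv x L.one) = L.one := L.mul_ldiv _ _
  refine ⟨rdiv_eq (hS.isym i), fun y => ?_, fun y => ?_⟩
  · have := h x (L.ldiv x y)
    rw [L.mul_ldiv] at this
    exact this.symm
  · have := hS.rip_aux h (L.rdiv y x) x
    rw [L.rdiv_mul] at this
    exact this.symm

/-- The opposite loop. -/
def opp (L : LoopStr Q) : LoopStr Q where
  mul a b := L.mul b a
  ldiv a b := L.rdiv b a
  rdiv b a := L.ldiv a b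
  one := L.one
  mul_ldiv a b := L.rdiv_mul a b
  ldiv_mul a b := L.mul_rdiv a b
  rdiv_mul a b := L.mul_ldiv a b
  mul_rdiv a b := L.ldiv_mul a b
  one_mul a := L.mul_one a
  mul_one a := L.one_mul a

theorem opp_SUF (h : L.SUF) : L.opp.SUF :=
  ⟨fun a x y => (h.2 a x y).symm, fun a x y => (h.1 a x y).symm⟩

theorem IP_of_opp (h : L.opp.IP) : L.IP := by
  have e : ∀ x, L.rdiv L.one x = L.ldiv x L.one := fun x => ((h x).1).symm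
  intro x
  refine ⟨e x, fun y => ?_, fun y => ?_⟩
  · rw [← e x]; exact (h x).2.2 y
  · rw [← e x]; exact (h x).2.1 y

theorem SUF.ip_of_weak (hS : L.SUF) (h : L.LIP ∨ L.RIP ∨ L.LAlt ∨ L.RAlt) : L.IP := by
  rcases h with h | h | h | h
  · exact hS.ip_of_lip h
  · exact IP_of_opp ((opp_SUF hS).ip_of_lip fun x y => h x y)
  · exact hS.ip_of_lip (hS.lip_of_lalt h)
  · exact IP_of_opp ((opp_SUF hS).ip_of_lip ((opp_SUF hS).lip_of_lalt fun x y => h x y))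

end LoopStr

end Pool.Agent.V7H71.UF
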