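import Pool.Agent.V7H71.UF.Basic

/-!
# Semi-universally flexible loops with the inverse property: definitions and extension lemmas
-/

namespace Pool.Agent.V7H71.UF

namespace LoopStr

variable {Q : Type*} (L : LoopStr Q)

/-- The product `x ∘ y = (x / a) (b \ y)` of the principal isotope given by `a`, `b`. -/
def isot (a b x y : Q) : Q := L.mul (L.rdiv x a) (L.ldiv b y)

/-- Semi-universally flexible: all left isotopes (`b = 1`) and all right isotopes (`a = 1`) are
flexible. -/
def SUF : Prop :=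
  (∀ a x y : Q, L.isot a L.one x (L.isot a L.one y x) = L.isot a L.one (L.isot a L.one x y) x) ∧
  (∀ b x y : Q, L.isot L.one b x (L.isot L.one b y x) = L.isot L.one b (L.isot L.one b x y) x)

/-- The inverse property: `1 / x = x \ 1` and, with `x⁻¹` this common value, `x \ y = x⁻¹ y` and
`y / x = y x⁻¹`. -/
def IP : Prop := ∀ x : Q, L.rdiv L.one x = L.ldiv x L.one ∧
  (∀ y, L.ldiv x y = L.mul (L.ldiv x L.one) y) ∧ (∀ y, L.rdiv y x = L.mul y (L.ldiv x L.one))

/-- The Moufang identity `(x (y z)) x = (x y) (z x)`. -/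
def Moufang : Prop := ∀ x y z : Q,
  L.mul (L.mul x (L.mul y z)) x = L.mul (L.mul x y) (L.mul z x)

/-- `k` lies in the nucleus. -/
def Nuclear (k : Q) : Prop :=
  (∀ x y, L.mul (L.mul k x) y = L.mul k (L.mul x y)) ∧
  (∀ x y, L.mul (L.mul x k) y = L.mul x (L.mul k y)) ∧
  (∀ x y, L.mul (L.mul x y) k = L.mul x (L.mul y k))

variable {L}

/-- Flexibility of the left isotopes, without divisions by `x`. -/
theorem SUF.left (h : L.SUF) (u z b : Q) :
    L.mul u (L.mul z (L.mul u b)) = L.mul (L.rdiv (L.mul u (L.mul z b)) b) (L.mul u b) := by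
  have := h.1 b (L.mul u b) (L.mul z b)
  have e : ∀ y, L.ldiv L.one y = y := fun y => ldiv_eq (L.one_mul y)
  simp only [isot, e, L.mul_rdiv] at this
  exact this

section ip

theorem IP.l (hI : L.IP) {r R c t : Q} (i : L.mul r R = L.one) (h : L.mul r c = t) :
    L.mul R t = c := by
  have e : L.ldiv r L.one = R := ldiv_eq i
  have := (hI r).2.1 t
  rw [e, ldiv_eq h] at this
  exact this.symm

theorem IP.r (hI : L.IP) {r c C t : Q} (i : L.mul c C = L.one) (h : L.mul r c = t) :
    L.mul t C = r := by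
  have e : L.ldiv c L.one = C := ldiv_eq i
  have := (hI c).2.2 t
  rw [e, rdiv_eq h] at this
  exact this.symm

theorem IP.symm (hI : L.IP) {r R : Q} (i : L.mul r R = L.one) : L.mul R r = L.one :=
  hI.l i (L.mul_one r)

theorem IP.n1 (hI : L.IP) {r R c s : Q} (i : L.mul r R = L.one) (h : L.mul r c = s) :
    L.mul R s = c := hI.l i h

theorem IP.n2 (hI : L.IP) {r c C s : Q} (j : L.mul c C = L.one) (h : L.mul r c = s) :
    L.mul s C = r := hI.r j h

theorem IP.n4 (hI : L.IP) {r c C s S : Q} (j : L.mul c C = L.one)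
    (k : L.mul s S = L.one) (h : L.mul r c = s) : L.mul S r = C := hI.l k (hI.r j h)

theorem IP.n5 (hI : L.IP) {r R c s S : Q} (i : L.mul r R = L.one)
    (k : L.mul s S = L.one) (h : L.mul r c = s) : L.mul c S = R := hI.r k (hI.l i h)

theorem IP.n3 (hI : L.IP) {r R c C s S : Q} (i : L.mul r R = L.one) (j : L.mul c C = L.one)
    (k : L.mul s S = L.one) (h : L.mul r c = s) : L.mul C R = S := hI.r i (hI.n4 j k h)

end ip

/-! ### Moufang loops -/

theorem Moufang.flex (h : L.Moufang) (x z : Q) :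
    L.mul (L.mul x z) x = L.mul x (L.mul z x) := by
  have := h x L.one z
  rwa [L.one_mul, L.mul_one] at this

theorem Moufang.ip (h : L.Moufang) : L.IP := by
  have h1 : ∀ x z, L.mul x (L.mul (L.ldiv x L.one) z) = z := fun x z => by
    have := h x (L.ldiv x L.one) z
    rw [L.mul_ldiv, L.one_mul] at this
    exact rcancel this
  have h2 : ∀ x y, L.mul (L.mul y (L.rdiv L.one x)) x = y := fun x y => by
    have := h x y (L.rdiv L.one x)
    rw [L.rdiv_mul, L.mul_one, h.flex] at this
    exact lcancel this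
  have h3 : ∀ x, L.rdiv L.one x = L.ldiv x L.one := fun x => by
    have := h1 x x
    have e : L.mul (L.ldiv x L.one) x = L.one := lcancel (this.trans (L.mul_one x).symm)
    exact rdiv_eq e
  intro x
  refine ⟨h3 x, fun y => ldiv_eq (h1 x y), fun y => ?_⟩
  rw [← h3 x]
  exact rdiv_eq (h2 x y)

/-- The right Moufang identity. -/
theorem Moufang.right (h : L.Moufang) (x y z : Q) :
    L.mul (L.mul (L.mul x y) z) y = L.mul x (L.mul y (L.mul z y)) := by
  have hI := h.ip
  have ix : L.mul x (L.ldiv x L.one) = L.one := L.mul_ldiv _ _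
  have iy : L.mul y (L.ldiv y L.one) = L.one := L.mul_ldiv _ _
  have ixy : L.mul (L.mul x y) (L.ldiv (L.mul x y) L.one) = L.one := L.mul_ldiv _ _
  have e1 : L.mul y (L.ldiv (L.mul x y) L.one) = L.ldiv x L.one := hI.n5 ix ixy rfl
  have e2 := h y (L.ldiv (L.mul x y) L.one) (L.mul (L.mul x y) z)
  rw [hI.l ixy rfl, e1, h.flex] at e2
  exact (hI.l (hI.symm ix) e2.symm).symm

section closure

variable (h : L.Moufang)
include h

theorem Moufang.a5 {x y z p q l r s : Q} (h0 : L.mul x y = p) (h1 : L.mul z x = q)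
    (h2 : L.mul p q = l) (h3 : L.mul y z = r) (h4 : L.mul x r = s) : L.mul s x = l := by
  rw [← h4, ← h3, h, h0, h1, h2]

theorem Moufang.a2 {x y z p q l r s : Q} (h0 : L.mul x y = p) (h1 : L.mul z x = q)
    (h3 : L.mul y z = r) (h4 : L.mul x r = s) (h5 : L.mul s x = l) : L.mul p q = l := by
  rw [← h0, ← h1, ← h, h3, h4, h5]

theorem Moufang.a0 {x y z p q l r s : Q} (h1 : L.mul z x = q) (h2 : L.mul p q = l)
    (h3 : L.mul y z = r) (h4 : L.mul x r = s) (h5 : L.mul s x = l) : L.mul x y = p :=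
  rcancel ((h.a2 rfl h1 h3 h4 h5).trans h2.symm)

theorem Moufang.a1 {x y z p q l r s : Q} (h0 : L.mul x y = p) (h2 : L.mul p q = l)
    (h3 : L.mul y z = r) (h4 : L.mul x r = s) (h5 : L.mul s x = l) : L.mul z x = q :=
  lcancel ((h.a2 h0 rfl h3 h4 h5).trans h2.symm)

theorem Moufang.a4 {x y z p q l r s : Q} (h0 : L.mul x y = p) (h1 : L.mul z x = q)
    (h2 : L.mul p q = l) (h3 : L.mul y z = r) (h5 : L.mul s x = l) : L.mul x r = s :=
  rcancel ((h.a5 h0 h1 h2 h3 rfl).trans h5.symm)

theorem Moufang.a3 {x y z p q l r s : Q} (h0 : L.mul x y = p) (h1 : L.mul z x = q)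
    (h2 : L.mul p q = l) (h4 : L.mul x r = s) (h5 : L.mul s x = l) : L.mul y z = r :=
  lcancel ((h.a4 h0 h1 h2 rfl h5).trans h4.symm)

theorem Moufang.b2 {x y z a b l c d : Q} (h0 : L.mul x y = a) (h1 : L.mul a z = b)
    (h3 : L.mul z y = c) (h4 : L.mul y c = d) (h5 : L.mul x d = l) : L.mul b y = l := by
  rw [← h1, ← h0, h.right, h3, h4, h5]

theorem Moufang.b5 {x y z a b l c d : Q} (h0 : L.mul x y = a) (h1 : L.mul a z = b)
    (h2 : L.mul b y = l) (h3 : L.mul z y = c) (h4 : L.mul y c = d) : L.mul x d = l := by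
  rw [← h4, ← h3, ← h.right, h0, h1, h2]

theorem Moufang.b1 {x y z a b l c d : Q} (h0 : L.mul x y = a) (h2 : L.mul b y = l)
    (h3 : L.mul z y = c) (h4 : L.mul y c = d) (h5 : L.mul x d = l) : L.mul a z = b :=
  rcancel ((h.b2 h0 rfl h3 h4 h5).trans h2.symm)

theorem Moufang.b0 {x y z a b l c d : Q} (h1 : L.mul a z = b) (h2 : L.mul b y = l)
    (h3 : L.mul z y = c) (h4 : L.mul y c = d) (h5 : L.mul x d = l) : L.mul x y = a :=
  rcancel ((h.b1 rfl h2 h3 h4 h5).trans h1.symm)

theorem Moufang.b4 {x y z a b l c d : Q} (h0 : L.mul x y = a) (h1 : L.mul a z = b)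
    (h2 : L.mul b y = l) (h3 : L.mul z y = c) (h5 : L.mul x d = l) : L.mul y c = d :=
  lcancel ((h.b5 h0 h1 h2 h3 rfl).trans h5.symm)

theorem Moufang.b3 {x y z a b l c d : Q} (h0 : L.mul x y = a) (h1 : L.mul a z = b)
    (h2 : L.mul b y = l) (h4 : L.mul y c = d) (h5 : L.mul x d = l) : L.mul z y = c :=
  lcancel ((h.b4 h0 h1 h2 rfl h5).trans h4.symm)

theorem Moufang.ra (x y : Q) : L.mul (L.mul x y) y = L.mul x (L.mul y y) := by
  have := h.right x y L.one
  rwa [L.mul_one, L.one_mul] at this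

theorem Moufang.r1 {x y t m l : Q} (h0 : L.mul x y = t) (h2 : L.mul y y = m)
    (h3 : L.mul x m = l) : L.mul t y = l := by
  rw [← h0, h.ra, h2, h3]

theorem Moufang.r3 {x y t m l : Q} (h0 : L.mul x y = t) (h1 : L.mul t y = l)
    (h2 : L.mul y y = m) : L.mul x m = l := by
  rw [← h2, ← h.ra, h0, h1]

theorem Moufang.r0 {x y t m l : Q} (h1 : L.mul t y = l) (h2 : L.mul y y = m)
    (h3 : L.mul x m = l) : L.mul x y = t :=
  rcancel ((h.r1 rfl h2 h3).trans h1.symm)

theorem Moufang.r2 {x y t m l : Q} (h0 : L.mul x y = t) (h1 : L.mul t y = l)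
    (h3 : L.mul x m = l) : L.mul y y = m :=
  lcancel ((h.r3 h0 h1 rfl).trans h3.symm)

end closure

/-! ### extensions by an abelian normal subgroup contained in the nucleus -/

/-- An extension of the loop `M` by the abelian group `A`, with total space `L`, such that `A` is
contained in the nucleus of `L`. -/
structure NExt {N : Type*} (L : LoopStr Q) (M : LoopStr N) (A : Type*) [AddCommGroup A] where
  pr : Q → N
  sm : A → Q → Q
  act : Q → A → A
  sm_zero : ∀ x, sm 0 x = x
  sm_add : ∀ c d x, sm (c + d) x = sm c (sm d x)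
  sm_mul : ∀ c x y, L.mul (sm c x) y = sm c (L.mul x y)
  mul_sm : ∀ c x y, L.mul x (sm c y) = sm (act x c) (L.mul x y)
  act_add : ∀ x c d, act x (c + d) = act x c + act x d
  act_mul : ∀ x y c, act (L.mul x y) c = act x (act y c)
  act_sm : ∀ x d c, act (sm d x) c = act x c
  sm_inj : ∀ {x c d}, sm c x = sm d x → c = d
  pr_mul : ∀ x y, M.mul (pr x) (pr y) = pr (L.mul x y)
  pr_eq : ∀ {x y}, pr x = pr y → ∃ c, x = sm c y

namespace NExt

variable {N A : Type*} [AddCommGroup A] {M : LoopStr N} (X : NExt L M A)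

theorem lift {x y z : Q} (h : M.mul (X.pr x) (X.pr y) = X.pr z) :
    ∃ c : A, L.mul x y = X.sm c z := by
  rw [X.pr_mul] at h
  exact X.pr_eq h

theorem pr_of {x y z : Q} (h : L.mul x y = z) : M.mul (X.pr x) (X.pr y) = X.pr z := by
  rw [X.pr_mul, h]

theorem pr_one : X.pr L.one = M.one := by
  apply rcancel (L := M) (a := X.pr L.one)
  rw [X.pr_mul, L.one_mul, M.one_mul]

theorem pr_inv {x y : Q} (h : L.mul x y = L.one) : M.mul (X.pr x) (X.pr y) = M.one := by
  rw [X.pr_mul, h, X.pr_one]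

theorem act_zero (x : Q) : X.act x 0 = 0 := by
  have := X.act_add x 0 0
  rw [add_zero] at this
  exact left_eq_add.mp this

theorem act_neg (x : Q) (c : A) : X.act x (-c) = - X.act x c := by
  apply eq_neg_of_add_eq_zero_left
  rw [← X.act_add, neg_add_cancel, X.act_zero]

theorem act_sub (x : Q) (c d : A) : X.act x (c - d) = X.act x c - X.act x d := by
  rw [sub_eq_add_neg, X.act_add, X.act_neg, sub_eq_add_neg]

theorem act_one (c : A) : X.act L.one c = c := by
  have := X.mul_sm c L.one L.one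
  rw [L.one_mul, L.one_mul] at this
  exact (X.sm_inj this).symm

theorem act_of {x y z : Q} {c : A} (h : L.mul x y = X.sm c z) (t : A) :
    X.act z t = X.act x (X.act y t) := by
  rw [← X.act_mul, h, X.act_sm]

theorem act_of' {x y z : Q} (h : L.mul x y = z) (t : A) :
    X.act z t = X.act x (X.act y t) := by
  rw [← X.act_mul, h]

theorem act_c {x y : Q} (h : L.mul x y = L.one) (t : A) : X.act x (X.act y t) = t := by
  rw [← X.act_mul, h, X.act_one]

theorem act_inv_eq {x y : Q} (h : L.mul y x = L.one) {s t : A} (e : X.act x s = t) :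
    X.act y t = s := by
  rw [← e, X.act_c h]

theorem one_l (x : Q) : L.mul L.one x = X.sm 0 x := by rw [L.one_mul, X.sm_zero]

theorem one_r (x : Q) : L.mul x L.one = X.sm 0 x := by rw [L.mul_one, X.sm_zero]

theorem z {x y t : Q} (h : L.mul x y = t) : L.mul x y = X.sm 0 t := by rw [h, X.sm_zero]

section forms

variable (hI : L.IP)
include hI

theorem f1 {r R c s : Q} {f : A} (i : L.mul r R = L.one) (h : L.mul r c = X.sm f s) :
    L.mul R s = X.sm (- X.act R f) c := by
  have := hI.l i h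
  rw [X.mul_sm] at this
  rw [← this, ← X.sm_add, neg_add_cancel, X.sm_zero]

theorem f2 {r c C s : Q} {f : A} (j : L.mul c C = L.one) (h : L.mul r c = X.sm f s) :
    L.mul s C = X.sm (-f) r := by
  have := hI.r j h
  rw [X.sm_mul] at this
  rw [← this, ← X.sm_add, neg_add_cancel, X.sm_zero]

theorem f4 {r c C s S : Q} {f : A} (j : L.mul c C = L.one)
    (k : L.mul s S = L.one) (h : L.mul r c = X.sm f s) : L.mul S r = X.sm (X.act S f) C := by
  have := X.f1 hI k (X.f2 hI j h)
  rwa [X.act_neg, neg_neg] at this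

theorem f5 {r R c s S : Q} {f : A} (i : L.mul r R = L.one)
    (k : L.mul s S = L.one) (h : L.mul r c = X.sm f s) : L.mul c S = X.sm (X.act R f) R := by
  have := X.f2 hI k (X.f1 hI i h)
  rwa [neg_neg] at this

theorem f3 {r R c C s S : Q} {f : A} (i : L.mul r R = L.one) (j : L.mul c C = L.one)
    (k : L.mul s S = L.one) (h : L.mul r c = X.sm f s) :
    L.mul C R = X.sm (- X.act S f) S := X.f2 hI i (X.f4 hI j k h)

/-- The relation given by the flexibility of the left isotopes. -/
theorem rel (hS : L.SUF) {u z d b y v r c e : Q} {c0 c1 c2 c3 c4 c5 c6 : A}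
    (h0 : L.mul u b = X.sm c0 v) (h1 : L.mul z b = X.sm c1 y) (h2 : L.mul u y = X.sm c2 c)
    (h3 : L.mul d b = X.sm c3 c) (h4 : L.mul z v = X.sm c4 r) (h5 : L.mul u r = X.sm c5 e)
    (h6 : L.mul d v = X.sm c6 e) :
    X.act u c4 + c5 - X.act u c1 - c2 + c3 - c6 = 0 := by
  have ib : L.mul b (L.ldiv b L.one) = L.one := L.mul_ldiv _ _
  have e0 : ∀ t, X.act d t = X.act u (X.act z t) := fun t => by
    have k1 : ∀ t, X.act d (X.act b t) = X.act u (X.act z (X.act b t)) := fun t => by
      rw [← X.act_of h3, X.act_of h2, ← X.act_of h1]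
    have := k1 (X.act (L.ldiv b L.one) t)
    rwa [X.act_c ib] at this
  have e1 : L.rdiv (L.mul u (L.mul z b)) b = X.sm (X.act u c1 + c2 - c3) d := by
    apply rdiv_eq
    rw [X.sm_mul, h3, ← X.sm_add, h1, X.mul_sm, h2, ← X.sm_add, sub_add_cancel]
  have e2 := hS.left u z b
  rw [e1, h0, X.mul_sm, h4, ← X.sm_add, X.mul_sm, h5, ← X.sm_add, X.sm_mul, X.mul_sm, h6,
    ← X.sm_add, ← X.sm_add, X.act_add, e0] at e2
  have e3 := X.sm_inj e2
  have : X.act u c4 + c5 - X.act u c1 - c2 + c3 - c6 =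
    (X.act u (X.act z c0) + X.act u c4 + c5) -
      (X.act u c1 + c2 - c3 + (X.act u (X.act z c0) + c6)) := by abel
  rw [this, e3]; abel

end forms

end NExt

end LoopStr

end Pool.Agent.V7H71.UF
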