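import Pool.Agent.V7H71.SufIP.Basic

/-!
# A loop with Moufang quotient by an abelian nuclear normal subgroup (generated computation)
-/

namespace Pool.Agent.V7H71.UF

namespace LoopStr

set_option linter.unusedVariables false
set_option linter.unusedSimpArgs false

theorem NExt.moufang {Q N A : Type*} [AddCommGroup A] {L : LoopStr Q} {M : LoopStr N}
    (X : NExt L M A) (hI : L.IP) (hS : L.SUF) (hM : M.Moufang) : L.Moufang := by
  intro q1 q3 q5
  have hIM : M.IP := hM.ip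
  obtain ⟨q1', I1⟩ : ∃ q', L.mul q1 q' = L.one := ⟨_, L.mul_ldiv _ _⟩
  have J1 : L.mul q1' q1 = L.one := hI.symm I1
  have i1 := X.pr_inv I1
  have j1 := X.pr_inv J1
  obtain ⟨q3', I3⟩ : ∃ q', L.mul q3 q' = L.one := ⟨_, L.mul_ldiv _ _⟩
  have J3 : L.mul q3' q3 = L.one := hI.symm I3
  have i3 := X.pr_inv I3
  have j3 := X.pr_inv J3
  obtain ⟨q5', I5⟩ : ∃ q', L.mul q5 q' = L.one := ⟨_, L.mul_ldiv _ _⟩
  have J5 : L.mul q5' q5 = L.one := hI.symm I5
  have i5 := X.pr_inv I5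
  have j5 := X.pr_inv J5
  have C1 := X.act_c I1
  have D1 := X.act_c J1
  have C3 := X.act_c I3
  have D3 := X.act_c J3
  have C5 := X.act_c I5
  have D5 := X.act_c J5
  obtain ⟨q7, d0⟩ : ∃ q, L.mul q1 q3 = q := ⟨_, rfl⟩
  obtain ⟨q7', I7⟩ : ∃ q', L.mul q7 q' = L.one := ⟨_, L.mul_ldiv _ _⟩
  have J7 : L.mul q7' q7 = L.one := hI.symm I7
  have i7 := X.pr_inv I7
  have j7 := X.pr_inv J7
  have h0 := X.pr_of d0
  have W7 : ∀ t, X.act q7 t = X.act q1 (X.act q3 t) := fun t => by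
    simp only [X.act_of' d0, C1, D1, C3, D3, C5, D5]
  have W7' : ∀ t, X.act q7' t = X.act q3' (X.act q1' t) := fun t =>
    X.act_inv_eq J7 (by simp only [W7, C1, D1, C3, D3, C5, D5])
  obtain ⟨q9, d1⟩ : ∃ q, L.mul q5 q1 = q := ⟨_, rfl⟩
  obtain ⟨q9', I9⟩ : ∃ q', L.mul q9 q' = L.one := ⟨_, L.mul_ldiv _ _⟩
  have J9 : L.mul q9' q9 = L.one := hI.symm I9
  have i9 := X.pr_inv I9
  have j9 := X.pr_inv J9
  have h1 := X.pr_of d1
  have W9 : ∀ t, X.act q9 t = X.act q5 (X.act q1 t) := fun t => by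
    simp only [X.act_of' d1, C1, D1, C3, D3, C5, D5]
  have W9' : ∀ t, X.act q9' t = X.act q1' (X.act q5' t) := fun t =>
    X.act_inv_eq J9 (by simp only [W9, C1, D1, C3, D3, C5, D5])
  obtain ⟨q11, d2⟩ : ∃ q, L.mul q3 q5 = q := ⟨_, rfl⟩
  obtain ⟨q11', I11⟩ : ∃ q', L.mul q11 q' = L.one := ⟨_, L.mul_ldiv _ _⟩
  have J11 : L.mul q11' q11 = L.one := hI.symm I11
  have i11 := X.pr_inv I11
  have j11 := X.pr_inv J11
  have h2 := X.pr_of d2
  have W11 : ∀ t, X.act q11 t = X.act q3 (X.act q5 t) := fun t => by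
    simp only [X.act_of' d2, C1, D1, C3, D3, C5, D5]
  have W11' : ∀ t, X.act q11' t = X.act q5' (X.act q3' t) := fun t =>
    X.act_inv_eq J11 (by simp only [W11, C1, D1, C3, D3, C5, D5])
  obtain ⟨q13, d3⟩ : ∃ q, L.mul q7 q9 = q := ⟨_, rfl⟩
  obtain ⟨q13', I13⟩ : ∃ q', L.mul q13 q' = L.one := ⟨_, L.mul_ldiv _ _⟩
  have J13 : L.mul q13' q13 = L.one := hI.symm I13
  have i13 := X.pr_inv I13
  have j13 := X.pr_inv J13
  have h3 := X.pr_of d3
  have W13 : ∀ t, X.act q13 t = X.act q1 (X.act q3 (X.act q5 (X.act q1 t))) := fun t => by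
    simp only [X.act_of' d3, W7, W9, C1, D1, C3, D3, C5, D5]
  obtain ⟨q15, d4⟩ : ∃ q, L.mul q1 q11 = q := ⟨_, rfl⟩
  obtain ⟨q15', I15⟩ : ∃ q', L.mul q15 q' = L.one := ⟨_, L.mul_ldiv _ _⟩
  have J15 : L.mul q15' q15 = L.one := hI.symm I15
  have i15 := X.pr_inv I15
  have j15 := X.pr_inv J15
  have h4 := X.pr_of d4
  have W15 : ∀ t, X.act q15 t = X.act q1 (X.act q3 (X.act q5 t)) := fun t => by
    simp only [X.act_of' d4, W11, C1, D1, C3, D3, C5, D5]
  have W15' : ∀ t, X.act q15' t = X.act q5' (X.act q3' (X.act q1' t)) := fun t =>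
    X.act_inv_eq J15 (by simp only [W15, C1, D1, C3, D3, C5, D5])
  have h5 : M.mul (X.pr q15) (X.pr q1) = (X.pr q13) :=
    hM.a5 h0 h1 h3 h2 h4
  obtain ⟨c5, g5⟩ := X.lift h5
  obtain ⟨q19, d7⟩ : ∃ q, L.mul q5' q1 = q := ⟨_, rfl⟩
  obtain ⟨q19', I19⟩ : ∃ q', L.mul q19 q' = L.one := ⟨_, L.mul_ldiv _ _⟩
  have J19 : L.mul q19' q19 = L.one := hI.symm I19
  have i19 := X.pr_inv I19
  have j19 := X.pr_inv J19
  have h7 := X.pr_of d7
  have W19 : ∀ t, X.act q19 t = X.act q5' (X.act q1 t) := fun t => by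
    simp only [X.act_of' d7, C1, D1, C3, D3, C5, D5]
  obtain ⟨q21, d8⟩ : ∃ q, L.mul q1 q7 = q := ⟨_, rfl⟩
  obtain ⟨q21', I21⟩ : ∃ q', L.mul q21 q' = L.one := ⟨_, L.mul_ldiv _ _⟩
  have J21 : L.mul q21' q21 = L.one := hI.symm I21
  have i21 := X.pr_inv I21
  have j21 := X.pr_inv J21
  have h8 := X.pr_of d8
  obtain ⟨q23, d9⟩ : ∃ q, L.mul q7 q1 = q := ⟨_, rfl⟩
  obtain ⟨q23', I23⟩ : ∃ q', L.mul q23 q' = L.one := ⟨_, L.mul_ldiv _ _⟩
  have J23 : L.mul q23' q23 = L.one := hI.symm I23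
  have i23 := X.pr_inv I23
  have j23 := X.pr_inv J23
  have h9 := X.pr_of d9
  have W23 : ∀ t, X.act q23 t = X.act q1 (X.act q3 (X.act q1 t)) := fun t => by
    simp only [X.act_of' d9, W7, C1, D1, C3, D3, C5, D5]
  obtain ⟨q25, d10⟩ : ∃ q, L.mul q11 q1 = q := ⟨_, rfl⟩
  obtain ⟨q25', I25⟩ : ∃ q', L.mul q25 q' = L.one := ⟨_, L.mul_ldiv _ _⟩
  have J25 : L.mul q25' q25 = L.one := hI.symm I25
  have i25 := X.pr_inv I25
  have j25 := X.pr_inv J25
  have h10 := X.pr_of d10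
  obtain ⟨q27, d11⟩ : ∃ q, L.mul q1 q11' = q := ⟨_, rfl⟩
  obtain ⟨q27', I27⟩ : ∃ q', L.mul q27 q' = L.one := ⟨_, L.mul_ldiv _ _⟩
  have J27 : L.mul q27' q27 = L.one := hI.symm I27
  have i27 := X.pr_inv I27
  have j27 := X.pr_inv J27
  have h11 := X.pr_of d11
  obtain ⟨q31, d13⟩ : ∃ q, L.mul q3 q3 = q := ⟨_, rfl⟩
  obtain ⟨q31', I31⟩ : ∃ q', L.mul q31 q' = L.one := ⟨_, L.mul_ldiv _ _⟩
  have J31 : L.mul q31' q31 = L.one := hI.symm I31
  have i31 := X.pr_inv I31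
  have j31 := X.pr_inv J31
  have h13 := X.pr_of d13
  obtain ⟨q33, d14⟩ : ∃ q, L.mul q3 q5' = q := ⟨_, rfl⟩
  obtain ⟨q33', I33⟩ : ∃ q', L.mul q33 q' = L.one := ⟨_, L.mul_ldiv _ _⟩
  have J33 : L.mul q33' q33 = L.one := hI.symm I33
  have i33 := X.pr_inv I33
  have j33 := X.pr_inv J33
  have h14 := X.pr_of d14
  have W33 : ∀ t, X.act q33 t = X.act q3 (X.act q5' t) := fun t => by
    simp only [X.act_of' d14, C1, D1, C3, D3, C5, D5]
  obtain ⟨q37, d16⟩ : ∃ q, L.mul q3 q7 = q := ⟨_, rfl⟩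
  obtain ⟨q37', I37⟩ : ∃ q', L.mul q37 q' = L.one := ⟨_, L.mul_ldiv _ _⟩
  have J37 : L.mul q37' q37 = L.one := hI.symm I37
  have i37 := X.pr_inv I37
  have j37 := X.pr_inv J37
  have h16 := X.pr_of d16
  obtain ⟨q41, d18⟩ : ∃ q, L.mul q3 q9 = q := ⟨_, rfl⟩
  obtain ⟨q41', I41⟩ : ∃ q', L.mul q41 q' = L.one := ⟨_, L.mul_ldiv _ _⟩
  have J41 : L.mul q41' q41 = L.one := hI.symm I41
  have i41 := X.pr_inv I41
  have j41 := X.pr_inv J41
  have h18 := X.pr_of d18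
  obtain ⟨q43, d19⟩ : ∃ q, L.mul q9 q3 = q := ⟨_, rfl⟩
  obtain ⟨q43', I43⟩ : ∃ q', L.mul q43 q' = L.one := ⟨_, L.mul_ldiv _ _⟩
  have J43 : L.mul q43' q43 = L.one := hI.symm I43
  have i43 := X.pr_inv I43
  have j43 := X.pr_inv J43
  have h19 := X.pr_of d19
  have W43 : ∀ t, X.act q43 t = X.act q5 (X.act q1 (X.act q3 t)) := fun t => by
    simp only [X.act_of' d19, W9, C1, D1, C3, D3, C5, D5]
  have W43' : ∀ t, X.act q43' t = X.act q3' (X.act q1' (X.act q5' t)) := fun t =>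
    X.act_inv_eq J43 (by simp only [W43, C1, D1, C3, D3, C5, D5])
  obtain ⟨q47, d21⟩ : ∃ q, L.mul q9' q3 = q := ⟨_, rfl⟩
  obtain ⟨q47', I47⟩ : ∃ q', L.mul q47 q' = L.one := ⟨_, L.mul_ldiv _ _⟩
  have J47 : L.mul q47' q47 = L.one := hI.symm I47
  have i47 := X.pr_inv I47
  have j47 := X.pr_inv J47
  have h21 := X.pr_of d21
  obtain ⟨q51, d23⟩ : ∃ q, L.mul q5 q5 = q := ⟨_, rfl⟩
  obtain ⟨q51', I51⟩ : ∃ q', L.mul q51 q' = L.one := ⟨_, L.mul_ldiv _ _⟩
  have J51 : L.mul q51' q51 = L.one := hI.symm I51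
  have i51 := X.pr_inv I51
  have j51 := X.pr_inv J51
  have h23 := X.pr_of d23
  obtain ⟨q53, d24⟩ : ∃ q, L.mul q5 q7 = q := ⟨_, rfl⟩
  obtain ⟨q53', I53⟩ : ∃ q', L.mul q53 q' = L.one := ⟨_, L.mul_ldiv _ _⟩
  have J53 : L.mul q53' q53 = L.one := hI.symm I53
  have i53 := X.pr_inv I53
  have j53 := X.pr_inv J53
  have h24 := X.pr_of d24
  obtain ⟨q55, d25⟩ : ∃ q, L.mul q7 q5 = q := ⟨_, rfl⟩
  obtain ⟨q55', I55⟩ : ∃ q', L.mul q55 q' = L.one := ⟨_, L.mul_ldiv _ _⟩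
  have J55 : L.mul q55' q55 = L.one := hI.symm I55
  have i55 := X.pr_inv I55
  have j55 := X.pr_inv J55
  have h25 := X.pr_of d25
  obtain ⟨q61, d28⟩ : ∃ q, L.mul q5 q9 = q := ⟨_, rfl⟩
  obtain ⟨q61', I61⟩ : ∃ q', L.mul q61 q' = L.one := ⟨_, L.mul_ldiv _ _⟩
  have J61 : L.mul q61' q61 = L.one := hI.symm I61
  have i61 := X.pr_inv I61
  have j61 := X.pr_inv J61
  have h28 := X.pr_of d28
  obtain ⟨q65, d30⟩ : ∃ q, L.mul q11 q5 = q := ⟨_, rfl⟩
  obtain ⟨q65', I65⟩ : ∃ q', L.mul q65 q' = L.one := ⟨_, L.mul_ldiv _ _⟩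
  have J65 : L.mul q65' q65 = L.one := hI.symm I65
  have i65 := X.pr_inv I65
  have j65 := X.pr_inv J65
  have h30 := X.pr_of d30
  have W65 : ∀ t, X.act q65 t = X.act q3 (X.act q5 (X.act q5 t)) := fun t => by
    simp only [X.act_of' d30, W11, C1, D1, C3, D3, C5, D5]
  obtain ⟨q67, d31⟩ : ∃ q, L.mul q7 q7 = q := ⟨_, rfl⟩
  obtain ⟨q67', I67⟩ : ∃ q', L.mul q67 q' = L.one := ⟨_, L.mul_ldiv _ _⟩
  have J67 : L.mul q67' q67 = L.one := hI.symm I67
  have i67 := X.pr_inv I67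
  have j67 := X.pr_inv J67
  have h31 := X.pr_of d31
  have W67 : ∀ t, X.act q67 t = X.act q1 (X.act q3 (X.act q1 (X.act q3 t))) := fun t => by
    simp only [X.act_of' d31, W7, W7, C1, D1, C3, D3, C5, D5]
  obtain ⟨q71, d33⟩ : ∃ q, L.mul q9' q7 = q := ⟨_, rfl⟩
  obtain ⟨q71', I71⟩ : ∃ q', L.mul q71 q' = L.one := ⟨_, L.mul_ldiv _ _⟩
  have J71 : L.mul q71' q71 = L.one := hI.symm I71
  have i71 := X.pr_inv I71
  have j71 := X.pr_inv J71
  have h33 := X.pr_of d33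
  have W71 : ∀ t, X.act q71 t = X.act q1' (X.act q5' (X.act q1 (X.act q3 t))) := fun t => by
    simp only [X.act_of' d33, W9', W7, C1, D1, C3, D3, C5, D5]
  obtain ⟨q73, d34⟩ : ∃ q, L.mul q11 q7 = q := ⟨_, rfl⟩
  obtain ⟨q73', I73⟩ : ∃ q', L.mul q73 q' = L.one := ⟨_, L.mul_ldiv _ _⟩
  have J73 : L.mul q73' q73 = L.one := hI.symm I73
  have i73 := X.pr_inv I73
  have j73 := X.pr_inv J73
  have h34 := X.pr_of d34
  have W73 : ∀ t, X.act q73 t = X.act q3 (X.act q5 (X.act q1 (X.act q3 t))) := fun t => by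
    simp only [X.act_of' d34, W11, W7, C1, D1, C3, D3, C5, D5]
  have W73' : ∀ t, X.act q73' t = X.act q3' (X.act q1' (X.act q5' (X.act q3' t))) := fun t =>
    X.act_inv_eq J73 (by simp only [W73, C1, D1, C3, D3, C5, D5])
  obtain ⟨q75, d35⟩ : ∃ q, L.mul q7 q11' = q := ⟨_, rfl⟩
  obtain ⟨q75', I75⟩ : ∃ q', L.mul q75 q' = L.one := ⟨_, L.mul_ldiv _ _⟩
  have J75 : L.mul q75' q75 = L.one := hI.symm I75
  have i75 := X.pr_inv I75
  have j75 := X.pr_inv J75
  have h35 := X.pr_of d35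
  have W75 : ∀ t, X.act q75 t = X.act q1 (X.act q3 (X.act q5' (X.act q3' t))) := fun t => by
    simp only [X.act_of' d35, W7, W11', C1, D1, C3, D3, C5, D5]
  obtain ⟨q79, d37⟩ : ∃ q, L.mul q9 q11 = q := ⟨_, rfl⟩
  obtain ⟨q79', I79⟩ : ∃ q', L.mul q79 q' = L.one := ⟨_, L.mul_ldiv _ _⟩
  have J79 : L.mul q79' q79 = L.one := hI.symm I79
  have i79 := X.pr_inv I79
  have j79 := X.pr_inv J79
  have h37 := X.pr_of d37
  have W79 : ∀ t, X.act q79 t = X.act q5 (X.act q1 (X.act q3 (X.act q5 t))) := fun t => by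
    simp only [X.act_of' d37, W9, W11, C1, D1, C3, D3, C5, D5]
  obtain ⟨q89, d42⟩ : ∃ q, L.mul q13 q3 = q := ⟨_, rfl⟩
  obtain ⟨q89', I89⟩ : ∃ q', L.mul q89 q' = L.one := ⟨_, L.mul_ldiv _ _⟩
  have J89 : L.mul q89' q89 = L.one := hI.symm I89
  have i89 := X.pr_inv I89
  have j89 := X.pr_inv J89
  have h42 := X.pr_of d42
  have W89 : ∀ t, X.act q89 t = X.act q1 (X.act q3 (X.act q5 (X.act q1 (X.act q3 t)))) := fun t => by
    simp only [X.act_of' d42, W13, C1, D1, C3, D3, C5, D5]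
  obtain ⟨q91, d43⟩ : ∃ q, L.mul q5 q13 = q := ⟨_, rfl⟩
  obtain ⟨q91', I91⟩ : ∃ q', L.mul q91 q' = L.one := ⟨_, L.mul_ldiv _ _⟩
  have J91 : L.mul q91' q91 = L.one := hI.symm I91
  have i91 := X.pr_inv I91
  have j91 := X.pr_inv J91
  have h43 := X.pr_of d43
  obtain ⟨q95, d45⟩ : ∃ q, L.mul q5' q13 = q := ⟨_, rfl⟩
  obtain ⟨q95', I95⟩ : ∃ q', L.mul q95 q' = L.one := ⟨_, L.mul_ldiv _ _⟩
  have J95 : L.mul q95' q95 = L.one := hI.symm I95
  have i95 := X.pr_inv I95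
  have j95 := X.pr_inv J95
  have h45 := X.pr_of d45
  have W95 : ∀ t, X.act q95 t = X.act q5' (X.act q1 (X.act q3 (X.act q5 (X.act q1 t)))) := fun t => by
    simp only [X.act_of' d45, W13, C1, D1, C3, D3, C5, D5]
  obtain ⟨q97, d46⟩ : ∃ q, L.mul q13 q7 = q := ⟨_, rfl⟩
  obtain ⟨q97', I97⟩ : ∃ q', L.mul q97 q' = L.one := ⟨_, L.mul_ldiv _ _⟩
  have J97 : L.mul q97' q97 = L.one := hI.symm I97
  have i97 := X.pr_inv I97
  have j97 := X.pr_inv J97
  have h46 := X.pr_of d46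
  obtain ⟨q99, d47⟩ : ∃ q, L.mul q7 q13 = q := ⟨_, rfl⟩
  obtain ⟨q99', I99⟩ : ∃ q', L.mul q99 q' = L.one := ⟨_, L.mul_ldiv _ _⟩
  have J99 : L.mul q99' q99 = L.one := hI.symm I99
  have i99 := X.pr_inv I99
  have j99 := X.pr_inv J99
  have h47 := X.pr_of d47
  obtain ⟨q101, d48⟩ : ∃ q, L.mul q13 q11 = q := ⟨_, rfl⟩
  obtain ⟨q101', I101⟩ : ∃ q', L.mul q101 q' = L.one := ⟨_, L.mul_ldiv _ _⟩
  have J101 : L.mul q101' q101 = L.one := hI.symm I101
  have i101 := X.pr_inv I101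
  have j101 := X.pr_inv J101
  have h48 := X.pr_of d48
  have W101 : ∀ t, X.act q101 t = X.act q1 (X.act q3 (X.act q5 (X.act q1 (X.act q3 (X.act q5 t))))) := fun t => by
    simp only [X.act_of' d48, W13, W11, C1, D1, C3, D3, C5, D5]
  obtain ⟨q109, d52⟩ : ∃ q, L.mul q1 q15 = q := ⟨_, rfl⟩
  obtain ⟨q109', I109⟩ : ∃ q', L.mul q109 q' = L.one := ⟨_, L.mul_ldiv _ _⟩
  have J109 : L.mul q109' q109 = L.one := hI.symm I109
  have i109 := X.pr_inv I109
  have j109 := X.pr_inv J109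
  have h52 := X.pr_of d52
  obtain ⟨q111, d53⟩ : ∃ q, L.mul q15 q1' = q := ⟨_, rfl⟩
  obtain ⟨q111', I111⟩ : ∃ q', L.mul q111 q' = L.one := ⟨_, L.mul_ldiv _ _⟩
  have J111 : L.mul q111' q111 = L.one := hI.symm I111
  have i111 := X.pr_inv I111
  have j111 := X.pr_inv J111
  have h53 := X.pr_of d53
  obtain ⟨q113, d54⟩ : ∃ q, L.mul q3 q15 = q := ⟨_, rfl⟩
  obtain ⟨q113', I113⟩ : ∃ q', L.mul q113 q' = L.one := ⟨_, L.mul_ldiv _ _⟩
  have J113 : L.mul q113' q113 = L.one := hI.symm I113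
  have i113 := X.pr_inv I113
  have j113 := X.pr_inv J113
  have h54 := X.pr_of d54
  obtain ⟨q115, d55⟩ : ∃ q, L.mul q15 q3' = q := ⟨_, rfl⟩
  obtain ⟨q115', I115⟩ : ∃ q', L.mul q115 q' = L.one := ⟨_, L.mul_ldiv _ _⟩
  have J115 : L.mul q115' q115 = L.one := hI.symm I115
  have i115 := X.pr_inv I115
  have j115 := X.pr_inv J115
  have h55 := X.pr_of d55
  obtain ⟨q117, d56⟩ : ∃ q, L.mul q15 q9 = q := ⟨_, rfl⟩
  obtain ⟨q117', I117⟩ : ∃ q', L.mul q117 q' = L.one := ⟨_, L.mul_ldiv _ _⟩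
  have J117 : L.mul q117' q117 = L.one := hI.symm I117
  have i117 := X.pr_inv I117
  have j117 := X.pr_inv J117
  have h56 := X.pr_of d56
  have W117 : ∀ t, X.act q117 t = X.act q1 (X.act q3 (X.act q5 (X.act q5 (X.act q1 t)))) := fun t => by
    simp only [X.act_of' d56, W15, W9, C1, D1, C3, D3, C5, D5]
  obtain ⟨q119, d57⟩ : ∃ q, L.mul q9' q15 = q := ⟨_, rfl⟩
  obtain ⟨q119', I119⟩ : ∃ q', L.mul q119 q' = L.one := ⟨_, L.mul_ldiv _ _⟩
  have J119 : L.mul q119' q119 = L.one := hI.symm I119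
  have i119 := X.pr_inv I119
  have j119 := X.pr_inv J119
  have h57 := X.pr_of d57
  have W119 : ∀ t, X.act q119 t = X.act q1' (X.act q5' (X.act q1 (X.act q3 (X.act q5 t)))) := fun t => by
    simp only [X.act_of' d57, W9', W15, C1, D1, C3, D3, C5, D5]
  have W119' : ∀ t, X.act q119' t = X.act q5' (X.act q3' (X.act q1' (X.act q5 (X.act q1 t)))) := fun t =>
    X.act_inv_eq J119 (by simp only [W119, C1, D1, C3, D3, C5, D5])
  obtain ⟨q121, d58⟩ : ∃ q, L.mul q15 q11 = q := ⟨_, rfl⟩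
  obtain ⟨q121', I121⟩ : ∃ q', L.mul q121 q' = L.one := ⟨_, L.mul_ldiv _ _⟩
  have J121 : L.mul q121' q121 = L.one := hI.symm I121
  have i121 := X.pr_inv I121
  have j121 := X.pr_inv J121
  have h58 := X.pr_of d58
  obtain ⟨q123, d59⟩ : ∃ q, L.mul q11 q15 = q := ⟨_, rfl⟩
  obtain ⟨q123', I123⟩ : ∃ q', L.mul q123 q' = L.one := ⟨_, L.mul_ldiv _ _⟩
  have J123 : L.mul q123' q123 = L.one := hI.symm I123
  have i123 := X.pr_inv I123
  have j123 := X.pr_inv J123
  have h59 := X.pr_of d59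
  obtain ⟨q129, d62⟩ : ∃ q, L.mul q19 q3 = q := ⟨_, rfl⟩
  obtain ⟨q129', I129⟩ : ∃ q', L.mul q129 q' = L.one := ⟨_, L.mul_ldiv _ _⟩
  have J129 : L.mul q129' q129 = L.one := hI.symm I129
  have i129 := X.pr_inv I129
  have j129 := X.pr_inv J129
  have h62 := X.pr_of d62
  have W129 : ∀ t, X.act q129 t = X.act q5' (X.act q1 (X.act q3 t)) := fun t => by
    simp only [X.act_of' d62, W19, C1, D1, C3, D3, C5, D5]
  have W129' : ∀ t, X.act q129' t = X.act q3' (X.act q1' (X.act q5 t)) := fun t =>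
    X.act_inv_eq J129 (by simp only [W129, C1, D1, C3, D3, C5, D5])
  obtain ⟨q131, d63⟩ : ∃ q, L.mul q5' q19 = q := ⟨_, rfl⟩
  obtain ⟨q131', I131⟩ : ∃ q', L.mul q131 q' = L.one := ⟨_, L.mul_ldiv _ _⟩
  have J131 : L.mul q131' q131 = L.one := hI.symm I131
  have i131 := X.pr_inv I131
  have j131 := X.pr_inv J131
  have h63 := X.pr_of d63
  obtain ⟨q133, d64⟩ : ∃ q, L.mul q7 q19 = q := ⟨_, rfl⟩
  obtain ⟨q133', I133⟩ : ∃ q', L.mul q133 q' = L.one := ⟨_, L.mul_ldiv _ _⟩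
  have J133 : L.mul q133' q133 = L.one := hI.symm I133
  have i133 := X.pr_inv I133
  have j133 := X.pr_inv J133
  have h64 := X.pr_of d64
  obtain ⟨q135, d65⟩ : ∃ q, L.mul q7' q19 = q := ⟨_, rfl⟩
  obtain ⟨q135', I135⟩ : ∃ q', L.mul q135 q' = L.one := ⟨_, L.mul_ldiv _ _⟩
  have J135 : L.mul q135' q135 = L.one := hI.symm I135
  have i135 := X.pr_inv I135
  have j135 := X.pr_inv J135
  have h65 := X.pr_of d65
  have W135 : ∀ t, X.act q135 t = X.act q3' (X.act q1' (X.act q5' (X.act q1 t))) := fun t => by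
    simp only [X.act_of' d65, W7', W19, C1, D1, C3, D3, C5, D5]
  obtain ⟨q137, d66⟩ : ∃ q, L.mul q19 q11 = q := ⟨_, rfl⟩
  obtain ⟨q137', I137⟩ : ∃ q', L.mul q137 q' = L.one := ⟨_, L.mul_ldiv _ _⟩
  have J137 : L.mul q137' q137 = L.one := hI.symm I137
  have i137 := X.pr_inv I137
  have j137 := X.pr_inv J137
  have h66 := X.pr_of d66
  have W137 : ∀ t, X.act q137 t = X.act q5' (X.act q1 (X.act q3 (X.act q5 t))) := fun t => by
    simp only [X.act_of' d66, W19, W11, C1, D1, C3, D3, C5, D5]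
  have W137' : ∀ t, X.act q137' t = X.act q5' (X.act q3' (X.act q1' (X.act q5 t))) := fun t =>
    X.act_inv_eq J137 (by simp only [W137, C1, D1, C3, D3, C5, D5])
  obtain ⟨q141, d68⟩ : ∃ q, L.mul q5 q23 = q := ⟨_, rfl⟩
  obtain ⟨q141', I141⟩ : ∃ q', L.mul q141 q' = L.one := ⟨_, L.mul_ldiv _ _⟩
  have J141 : L.mul q141' q141 = L.one := hI.symm I141
  have i141 := X.pr_inv I141
  have j141 := X.pr_inv J141
  have h68 := X.pr_of d68
  have W141 : ∀ t, X.act q141 t = X.act q5 (X.act q1 (X.act q3 (X.act q1 t))) := fun t => by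
    simp only [X.act_of' d68, W23, C1, D1, C3, D3, C5, D5]
  obtain ⟨q143, d69⟩ : ∃ q, L.mul q5' q23 = q := ⟨_, rfl⟩
  obtain ⟨q143', I143⟩ : ∃ q', L.mul q143 q' = L.one := ⟨_, L.mul_ldiv _ _⟩
  have J143 : L.mul q143' q143 = L.one := hI.symm I143
  have i143 := X.pr_inv I143
  have j143 := X.pr_inv J143
  have h69 := X.pr_of d69
  obtain ⟨q145, d70⟩ : ∃ q, L.mul q7 q23 = q := ⟨_, rfl⟩
  obtain ⟨q145', I145⟩ : ∃ q', L.mul q145 q' = L.one := ⟨_, L.mul_ldiv _ _⟩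
  have J145 : L.mul q145' q145 = L.one := hI.symm I145
  have i145 := X.pr_inv I145
  have j145 := X.pr_inv J145
  have h70 := X.pr_of d70
  have W145 : ∀ t, X.act q145 t = X.act q1 (X.act q3 (X.act q1 (X.act q3 (X.act q1 t)))) := fun t => by
    simp only [X.act_of' d70, W7, W23, C1, D1, C3, D3, C5, D5]
  obtain ⟨q147, d71⟩ : ∃ q, L.mul q23 q9' = q := ⟨_, rfl⟩
  obtain ⟨q147', I147⟩ : ∃ q', L.mul q147 q' = L.one := ⟨_, L.mul_ldiv _ _⟩
  have J147 : L.mul q147' q147 = L.one := hI.symm I147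
  have i147 := X.pr_inv I147
  have j147 := X.pr_inv J147
  have h71 := X.pr_of d71
  have W147 : ∀ t, X.act q147 t = X.act q1 (X.act q3 (X.act q5' t)) := fun t => by
    simp only [X.act_of' d71, W23, W9', C1, D1, C3, D3, C5, D5]
  obtain ⟨q149, d72⟩ : ∃ q, L.mul q23 q11 = q := ⟨_, rfl⟩
  obtain ⟨q149', I149⟩ : ∃ q', L.mul q149 q' = L.one := ⟨_, L.mul_ldiv _ _⟩
  have J149 : L.mul q149' q149 = L.one := hI.symm I149
  have i149 := X.pr_inv I149
  have j149 := X.pr_inv J149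
  have h72 := X.pr_of d72
  have W149 : ∀ t, X.act q149 t = X.act q1 (X.act q3 (X.act q1 (X.act q3 (X.act q5 t)))) := fun t => by
    simp only [X.act_of' d72, W23, W11, C1, D1, C3, D3, C5, D5]
  obtain ⟨q163, d79⟩ : ∃ q, L.mul q9 q31 = q := ⟨_, rfl⟩
  obtain ⟨q163', I163⟩ : ∃ q', L.mul q163 q' = L.one := ⟨_, L.mul_ldiv _ _⟩
  have J163 : L.mul q163' q163 = L.one := hI.symm I163
  have i163 := X.pr_inv I163
  have j163 := X.pr_inv J163
  have h79 := X.pr_of d79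
  obtain ⟨q167, d81⟩ : ∃ q, L.mul q33 q5' = q := ⟨_, rfl⟩
  obtain ⟨q167', I167⟩ : ∃ q', L.mul q167 q' = L.one := ⟨_, L.mul_ldiv _ _⟩
  have J167 : L.mul q167' q167 = L.one := hI.symm I167
  have i167 := X.pr_inv I167
  have j167 := X.pr_inv J167
  have h81 := X.pr_of d81
  obtain ⟨q169, d82⟩ : ∃ q, L.mul q9 q33 = q := ⟨_, rfl⟩
  obtain ⟨q169', I169⟩ : ∃ q', L.mul q169 q' = L.one := ⟨_, L.mul_ldiv _ _⟩
  have J169 : L.mul q169' q169 = L.one := hI.symm I169
  have i169 := X.pr_inv I169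
  have j169 := X.pr_inv J169
  have h82 := X.pr_of d82
  have W169 : ∀ t, X.act q169 t = X.act q5 (X.act q1 (X.act q3 (X.act q5' t))) := fun t => by
    simp only [X.act_of' d82, W9, W33, C1, D1, C3, D3, C5, D5]
  have W169' : ∀ t, X.act q169' t = X.act q5 (X.act q3' (X.act q1' (X.act q5' t))) := fun t =>
    X.act_inv_eq J169 (by simp only [W169, C1, D1, C3, D3, C5, D5])
  obtain ⟨q177, d86⟩ : ∃ q, L.mul q43 q11' = q := ⟨_, rfl⟩
  obtain ⟨q177', I177⟩ : ∃ q', L.mul q177 q' = L.one := ⟨_, L.mul_ldiv _ _⟩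
  have J177 : L.mul q177' q177 = L.one := hI.symm I177
  have i177 := X.pr_inv I177
  have j177 := X.pr_inv J177
  have h86 := X.pr_of d86
  obtain ⟨q195, d95⟩ : ∃ q, L.mul q1 q65 = q := ⟨_, rfl⟩
  obtain ⟨q195', I195⟩ : ∃ q', L.mul q195 q' = L.one := ⟨_, L.mul_ldiv _ _⟩
  have J195 : L.mul q195' q195 = L.one := hI.symm I195
  have i195 := X.pr_inv I195
  have j195 := X.pr_inv J195
  have h95 := X.pr_of d95
  have W195 : ∀ t, X.act q195 t = X.act q1 (X.act q3 (X.act q5 (X.act q5 t))) := fun t => by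
    simp only [X.act_of' d95, W65, C1, D1, C3, D3, C5, D5]
  have W195' : ∀ t, X.act q195' t = X.act q5' (X.act q5' (X.act q3' (X.act q1' t))) := fun t =>
    X.act_inv_eq J195 (by simp only [W195, C1, D1, C3, D3, C5, D5])
  obtain ⟨q197, d96⟩ : ∃ q, L.mul q9' q67 = q := ⟨_, rfl⟩
  obtain ⟨q197', I197⟩ : ∃ q', L.mul q197 q' = L.one := ⟨_, L.mul_ldiv _ _⟩
  have J197 : L.mul q197' q197 = L.one := hI.symm I197
  have i197 := X.pr_inv I197
  have j197 := X.pr_inv J197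
  have h96 := X.pr_of d96
  have W197 : ∀ t, X.act q197 t = X.act q1' (X.act q5' (X.act q1 (X.act q3 (X.act q1 (X.act q3 t))))) := fun t => by
    simp only [X.act_of' d96, W9', W67, C1, D1, C3, D3, C5, D5]
  have W197' : ∀ t, X.act q197' t = X.act q3' (X.act q1' (X.act q3' (X.act q1' (X.act q5 (X.act q1 t))))) := fun t =>
    X.act_inv_eq J197 (by simp only [W197, C1, D1, C3, D3, C5, D5])
  obtain ⟨q199, d97⟩ : ∃ q, L.mul q3' q71 = q := ⟨_, rfl⟩
  obtain ⟨q199', I199⟩ : ∃ q', L.mul q199 q' = L.one := ⟨_, L.mul_ldiv _ _⟩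
  have J199 : L.mul q199' q199 = L.one := hI.symm I199
  have i199 := X.pr_inv I199
  have j199 := X.pr_inv J199
  have h97 := X.pr_of d97
  have W199 : ∀ t, X.act q199 t = X.act q3' (X.act q1' (X.act q5' (X.act q1 (X.act q3 t)))) := fun t => by
    simp only [X.act_of' d97, W71, C1, D1, C3, D3, C5, D5]
  obtain ⟨q201, d98⟩ : ∃ q, L.mul q73 q3 = q := ⟨_, rfl⟩
  obtain ⟨q201', I201⟩ : ∃ q', L.mul q201 q' = L.one := ⟨_, L.mul_ldiv _ _⟩
  have J201 : L.mul q201' q201 = L.one := hI.symm I201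
  have i201 := X.pr_inv I201
  have j201 := X.pr_inv J201
  have h98 := X.pr_of d98
  obtain ⟨q207, d101⟩ : ∃ q, L.mul q75 q1' = q := ⟨_, rfl⟩
  obtain ⟨q207', I207⟩ : ∃ q', L.mul q207 q' = L.one := ⟨_, L.mul_ldiv _ _⟩
  have J207 : L.mul q207' q207 = L.one := hI.symm I207
  have i207 := X.pr_inv I207
  have j207 := X.pr_inv J207
  have h101 := X.pr_of d101
  have W207 : ∀ t, X.act q207 t = X.act q1 (X.act q3 (X.act q5' (X.act q3' (X.act q1' t)))) := fun t => by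
    simp only [X.act_of' d101, W75, C1, D1, C3, D3, C5, D5]
  have W207' : ∀ t, X.act q207' t = X.act q1 (X.act q3 (X.act q5 (X.act q3' (X.act q1' t)))) := fun t =>
    X.act_inv_eq J207 (by simp only [W207, C1, D1, C3, D3, C5, D5])
  obtain ⟨q211, d103⟩ : ∃ q, L.mul q1' q79 = q := ⟨_, rfl⟩
  obtain ⟨q211', I211⟩ : ∃ q', L.mul q211 q' = L.one := ⟨_, L.mul_ldiv _ _⟩
  have J211 : L.mul q211' q211 = L.one := hI.symm I211
  have i211 := X.pr_inv I211
  have j211 := X.pr_inv J211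
  have h103 := X.pr_of d103
  have W211 : ∀ t, X.act q211 t = X.act q1' (X.act q5 (X.act q1 (X.act q3 (X.act q5 t)))) := fun t => by
    simp only [X.act_of' d103, W79, C1, D1, C3, D3, C5, D5]
  have W211' : ∀ t, X.act q211' t = X.act q5' (X.act q3' (X.act q1' (X.act q5' (X.act q1 t)))) := fun t =>
    X.act_inv_eq J211 (by simp only [W211, C1, D1, C3, D3, C5, D5])
  obtain ⟨q213, d104⟩ : ∃ q, L.mul q79 q3' = q := ⟨_, rfl⟩
  obtain ⟨q213', I213⟩ : ∃ q', L.mul q213 q' = L.one := ⟨_, L.mul_ldiv _ _⟩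
  have J213 : L.mul q213' q213 = L.one := hI.symm I213
  have i213 := X.pr_inv I213
  have j213 := X.pr_inv J213
  have h104 := X.pr_of d104
  obtain ⟨q221, d108⟩ : ∃ q, L.mul q89 q1 = q := ⟨_, rfl⟩
  obtain ⟨q221', I221⟩ : ∃ q', L.mul q221 q' = L.one := ⟨_, L.mul_ldiv _ _⟩
  have J221 : L.mul q221' q221 = L.one := hI.symm I221
  have i221 := X.pr_inv I221
  have j221 := X.pr_inv J221
  have h108 := X.pr_of d108
  have W221 : ∀ t, X.act q221 t = X.act q1 (X.act q3 (X.act q5 (X.act q1 (X.act q3 (X.act q1 t))))) := fun t => by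
    simp only [X.act_of' d108, W89, C1, D1, C3, D3, C5, D5]
  obtain ⟨q229, d112⟩ : ∃ q, L.mul q89 q9 = q := ⟨_, rfl⟩
  obtain ⟨q229', I229⟩ : ∃ q', L.mul q229 q' = L.one := ⟨_, L.mul_ldiv _ _⟩
  have J229 : L.mul q229' q229 = L.one := hI.symm I229
  have i229 := X.pr_inv I229
  have j229 := X.pr_inv J229
  have h112 := X.pr_of d112
  obtain ⟨q231, d113⟩ : ∃ q, L.mul q9' q89 = q := ⟨_, rfl⟩
  obtain ⟨q231', I231⟩ : ∃ q', L.mul q231 q' = L.one := ⟨_, L.mul_ldiv _ _⟩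
  have J231 : L.mul q231' q231 = L.one := hI.symm I231
  have i231 := X.pr_inv I231
  have j231 := X.pr_inv J231
  have h113 := X.pr_of d113
  obtain ⟨q235, d115⟩ : ∃ q, L.mul q7' q95 = q := ⟨_, rfl⟩
  obtain ⟨q235', I235⟩ : ∃ q', L.mul q235 q' = L.one := ⟨_, L.mul_ldiv _ _⟩
  have J235 : L.mul q235' q235 = L.one := hI.symm I235
  have i235 := X.pr_inv I235
  have j235 := X.pr_inv J235
  have h115 := X.pr_of d115
  obtain ⟨q239, d117⟩ : ∃ q, L.mul q3 q101 = q := ⟨_, rfl⟩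
  obtain ⟨q239', I239⟩ : ∃ q', L.mul q239 q' = L.one := ⟨_, L.mul_ldiv _ _⟩
  have J239 : L.mul q239' q239 = L.one := hI.symm I239
  have i239 := X.pr_inv I239
  have j239 := X.pr_inv J239
  have h117 := X.pr_of d117
  obtain ⟨q241, d118⟩ : ∃ q, L.mul q101 q9 = q := ⟨_, rfl⟩
  obtain ⟨q241', I241⟩ : ∃ q', L.mul q241 q' = L.one := ⟨_, L.mul_ldiv _ _⟩
  have J241 : L.mul q241' q241 = L.one := hI.symm I241
  have i241 := X.pr_inv I241
  have j241 := X.pr_inv J241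
  have h118 := X.pr_of d118
  have W241 : ∀ t, X.act q241 t = X.act q1 (X.act q3 (X.act q5 (X.act q1 (X.act q3 (X.act q5 (X.act q5 (X.act q1 t))))))) := fun t => by
    simp only [X.act_of' d118, W101, W9, C1, D1, C3, D3, C5, D5]
  obtain ⟨q253, d124⟩ : ∃ q, L.mul q11 q111 = q := ⟨_, rfl⟩
  obtain ⟨q253', I253⟩ : ∃ q', L.mul q253 q' = L.one := ⟨_, L.mul_ldiv _ _⟩
  have J253 : L.mul q253' q253 = L.one := hI.symm I253
  have i253 := X.pr_inv I253
  have j253 := X.pr_inv J253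
  have h124 := X.pr_of d124
  obtain ⟨q255, d125⟩ : ∃ q, L.mul q111 q11' = q := ⟨_, rfl⟩
  obtain ⟨q255', I255⟩ : ∃ q', L.mul q255 q' = L.one := ⟨_, L.mul_ldiv _ _⟩
  have J255 : L.mul q255' q255 = L.one := hI.symm I255
  have i255 := X.pr_inv I255
  have j255 := X.pr_inv J255
  have h125 := X.pr_of d125
  obtain ⟨q259, d127⟩ : ∃ q, L.mul q113 q5 = q := ⟨_, rfl⟩
  obtain ⟨q259', I259⟩ : ∃ q', L.mul q259 q' = L.one := ⟨_, L.mul_ldiv _ _⟩
  have J259 : L.mul q259' q259 = L.one := hI.symm I259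
  have i259 := X.pr_inv I259
  have j259 := X.pr_inv J259
  have h127 := X.pr_of d127
  obtain ⟨q261, d128⟩ : ∃ q, L.mul q113 q7' = q := ⟨_, rfl⟩
  obtain ⟨q261', I261⟩ : ∃ q', L.mul q261 q' = L.one := ⟨_, L.mul_ldiv _ _⟩
  have J261 : L.mul q261' q261 = L.one := hI.symm I261
  have i261 := X.pr_inv I261
  have j261 := X.pr_inv J261
  have h128 := X.pr_of d128
  obtain ⟨q263, d129⟩ : ∃ q, L.mul q5' q115 = q := ⟨_, rfl⟩
  obtain ⟨q263', I263⟩ : ∃ q', L.mul q263 q' = L.one := ⟨_, L.mul_ldiv _ _⟩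
  have J263 : L.mul q263' q263 = L.one := hI.symm I263
  have i263 := X.pr_inv I263
  have j263 := X.pr_inv J263
  have h129 := X.pr_of d129
  obtain ⟨q265, d130⟩ : ∃ q, L.mul q7 q115 = q := ⟨_, rfl⟩
  obtain ⟨q265', I265⟩ : ∃ q', L.mul q265 q' = L.one := ⟨_, L.mul_ldiv _ _⟩
  have J265 : L.mul q265' q265 = L.one := hI.symm I265
  have i265 := X.pr_inv I265
  have j265 := X.pr_inv J265
  have h130 := X.pr_of d130
  obtain ⟨q267, d131⟩ : ∃ q, L.mul q5' q117 = q := ⟨_, rfl⟩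
  obtain ⟨q267', I267⟩ : ∃ q', L.mul q267 q' = L.one := ⟨_, L.mul_ldiv _ _⟩
  have J267 : L.mul q267' q267 = L.one := hI.symm I267
  have i267 := X.pr_inv I267
  have j267 := X.pr_inv J267
  have h131 := X.pr_of d131
  have W267 : ∀ t, X.act q267 t = X.act q5' (X.act q1 (X.act q3 (X.act q5 (X.act q5 (X.act q1 t))))) := fun t => by
    simp only [X.act_of' d131, W117, C1, D1, C3, D3, C5, D5]
  obtain ⟨q269, d132⟩ : ∃ q, L.mul q7 q117 = q := ⟨_, rfl⟩
  obtain ⟨q269', I269⟩ : ∃ q', L.mul q269 q' = L.one := ⟨_, L.mul_ldiv _ _⟩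
  have J269 : L.mul q269' q269 = L.one := hI.symm I269
  have i269 := X.pr_inv I269
  have j269 := X.pr_inv J269
  have h132 := X.pr_of d132
  have W269 : ∀ t, X.act q269 t = X.act q1 (X.act q3 (X.act q1 (X.act q3 (X.act q5 (X.act q5 (X.act q1 t)))))) := fun t => by
    simp only [X.act_of' d132, W7, W117, C1, D1, C3, D3, C5, D5]
  obtain ⟨q271, d133⟩ : ∃ q, L.mul q119 q5 = q := ⟨_, rfl⟩
  obtain ⟨q271', I271⟩ : ∃ q', L.mul q271 q' = L.one := ⟨_, L.mul_ldiv _ _⟩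
  have J271 : L.mul q271' q271 = L.one := hI.symm I271
  have i271 := X.pr_inv I271
  have j271 := X.pr_inv J271
  have h133 := X.pr_of d133
  obtain ⟨q273, d134⟩ : ∃ q, L.mul q119 q7' = q := ⟨_, rfl⟩
  obtain ⟨q273', I273⟩ : ∃ q', L.mul q273 q' = L.one := ⟨_, L.mul_ldiv _ _⟩
  have J273 : L.mul q273' q273 = L.one := hI.symm I273
  have i273 := X.pr_inv I273
  have j273 := X.pr_inv J273
  have h134 := X.pr_of d134
  have h146 : M.mul (X.pr q1) (X.pr q131') = (X.pr q51) :=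
    hM.a3 h7 (hIM.n4 i19 i131 h63) i19 (hIM.n1 i5 h23) i5
  have h147 : M.mul (X.pr q19) (X.pr q9') = (X.pr q51') :=
    hM.a2 h7 (hIM.n3 i5 i1 i9 h1) i1 (M.mul_one _) (hIM.n3 i5 i5 i51 h23)
  have h148 : M.mul (X.pr q1) (X.pr q143') = (X.pr q129') :=
    hM.a0 h7 (hIM.n4 i3 i129 h62) (hIM.n4 i23 i143 h69) (hIM.n5 i7 i23 h9) (hIM.n4 i3 i7 h0)
  obtain ⟨c148, g148⟩ := X.lift h148
  have h149 : M.mul (X.pr q1) (X.pr q61') = (X.pr q51') :=
    hM.a4 (hIM.n5 i5 i9 h1) h7 h63 (hIM.n3 i5 i9 i61 h28) (hIM.n4 j131 i51 h146)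
  have h150 : M.mul (X.pr q1) (X.pr q95') = (X.pr q137') :=
    hM.a0 h7 (hIM.n4 i11 i137 h66) (hIM.n4 i13 i95 h45) (hIM.n5 i15 i13 h5) (hIM.n4 i11 i15 h4)
  obtain ⟨c150, g150⟩ := X.lift h150
  have h151 : M.mul (X.pr q15) (X.pr q19) = (X.pr q23) :=
    hM.a2 h4 h7 (hIM.n2 i5 h2) h0 h9
  obtain ⟨c151, g151⟩ := X.lift h151
  have h152 : M.mul (X.pr q195) (X.pr q19) = (X.pr q13) :=
    hM.a2 h95 h7 (hIM.n2 i5 h30) h4 h5
  obtain ⟨c152, g152⟩ := X.lift h152
  have h153 : M.mul (X.pr q11') (X.pr q113) = (X.pr q137) :=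
    hM.a4 (hIM.n4 i5 i11 h2) (hIM.n2 i11 h4) h7 h54 (hIM.n2 i11 h66)
  obtain ⟨c153, g153⟩ := X.lift h153
  have h154 : M.mul (X.pr q1) (X.pr q71) = (X.pr q129) :=
    hM.a0 (hIM.n4 i3 i7 h0) (hIM.n2 i3 h62) (hIM.n2 i7 h33) (hIM.n5 i5 i9 h1) h7
  obtain ⟨c154, g154⟩ := X.lift h154
  have h155 : M.mul (X.pr q147) (X.pr q1) = (X.pr q133) :=
    hM.a1 (hIM.n5 i7 i23 h9) (hIM.n1 i7 h64) (hIM.n1 i23 h71) (hIM.n5 i5 i9 h1) h7
  obtain ⟨c155, g155⟩ := X.lift h155
  have h156 : M.mul (X.pr q43') (X.pr q1) = (X.pr q135) :=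
    hM.a1 h0 (hIM.n1 j7 h65) (hIM.n5 i9 i43 h19) (hIM.n5 i5 i9 h1) h7
  obtain ⟨c156, g156⟩ := X.lift h156
  have h157 : M.mul (X.pr q1) (X.pr q119) = (X.pr q137) :=
    hM.a0 (hIM.n4 i11 i15 h4) (hIM.n2 i11 h66) (hIM.n2 i15 h57) (hIM.n5 i5 i9 h1) h7
  have h158 : M.mul (X.pr q1) (X.pr q117') = (X.pr q195') :=
    hM.a0 h5 (hIM.n1 i195 h152) (hIM.n4 i9 i117 h56) (hIM.n5 i5 i9 h1) h7
  obtain ⟨c158, g158⟩ := X.lift h158
  have h159 : M.mul (X.pr q15) (X.pr q211') = (X.pr q19) :=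
    hM.a2 h4 (hIM.n3 j1 i79 i211 h103) (hIM.n5 i9 i79 h37) (hIM.n5 i5 i9 h1) h7
  obtain ⟨c159, g159⟩ := X.lift h159
  have h160 : M.mul (X.pr q11') (X.pr q37) = (X.pr q129) :=
    hM.b5 (hIM.n4 i5 i11 h2) h7 h62 h0 h16
  obtain ⟨c160, g160⟩ := X.lift h160
  have h161 : M.mul (X.pr q65') (X.pr q123) = (X.pr q137) :=
    hM.b5 (hIM.n4 i5 i65 h30) h7 h66 h4 h59
  obtain ⟨c161, g161⟩ := X.lift h161
  have h163 : M.mul (X.pr q123) (X.pr q11') = (X.pr q25) :=
    hM.b3 (hIM.n3 i11 i5 i65 h30) h161 (hIM.n2 i11 h66) (hIM.n1 i11 h10) h7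
  have h164 : M.mul (X.pr q137) (X.pr q19) = (X.pr q143) :=
    hM.a5 h62 (hIM.n1 j5 h7) (hIM.n4 j143 j129 h148) h2 h66
  obtain ⟨c164, g164⟩ := X.lift h164
  have h165 : M.mul (X.pr q135') (X.pr q5) = (X.pr q211) :=
    hM.a3 (hIM.n5 j7 i135 h65) (hIM.n1 j5 h7) h9 (hIM.n2 j211 h159) h151
  obtain ⟨c165, g165⟩ := X.lift h165
  have h166 : M.mul (X.pr q19) (X.pr q141') = (X.pr q79') :=
    hM.a0 (hIM.n1 j5 h7) (hIM.n3 j1 i79 i211 h103) (hIM.n4 i23 i141 h68) (hIM.n5 i15 i23 h151) (hIM.n1 i15 h159)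
  have h168 : M.mul (X.pr q135') (X.pr q129') = (X.pr q131') :=
    hM.a3 (hIM.n5 j7 i135 h65) (hIM.n4 i3 i129 h62) (hIM.n2 i3 h0) (hIM.n5 j5 i131 h63) (hIM.n1 j5 h7)
  obtain ⟨c168, g168⟩ := X.lift h168
  have h169 : M.mul (X.pr q23') (X.pr q195) = (X.pr q131') :=
    hM.a3 (hIM.n5 i15 i23 h151) h152 (hIM.n1 i15 h5) (hIM.n5 j5 i131 h63) (hIM.n1 j5 h7)
  have h170 : M.mul (X.pr q211) (X.pr q137') = (X.pr q131') :=
    hM.a3 (hIM.n2 j211 h159) (hIM.n4 i11 i137 h66) (hIM.n2 i11 h4) (hIM.n5 j5 i131 h63) (hIM.n1 j5 h7)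
  obtain ⟨c170, g170⟩ := X.lift h170
  have h171 : M.mul (X.pr q33') (X.pr q1') = (X.pr q147') :=
    hM.b3 (hIM.n2 i1 h7) (hIM.n5 i3 i33 h14) (hIM.n3 i1 i3 i7 h0) (hIM.n3 i147 i1 i133 h155) (hIM.n5 i7 i133 h64)
  obtain ⟨c171, g171⟩ := X.lift h171
  have h172 : M.mul (X.pr q141) (X.pr q1') = (X.pr q43) :=
    hM.b3 (hIM.n2 i1 h7) (hIM.n1 i5 h68) (hIM.n2 i1 h9) (hIM.n3 j43 i1 i135 h156) (hIM.n5 j7 i135 h65)
  obtain ⟨c172, g172⟩ := X.lift h172
  have h173 : M.mul (X.pr q91) (X.pr q1') = (X.pr q79) :=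
    hM.b3 (hIM.n2 i1 h7) (hIM.n1 i5 h43) (hIM.n2 i1 h5) h103 (hIM.n2 j211 h159)
  have h174 : M.mul (X.pr q5') (X.pr q71') = (X.pr q119') :=
    hM.b1 (hIM.n2 i1 h7) (hIM.n3 i1 i119 i137 h157) (hIM.n3 i1 i71 i129 h154) (hIM.n1 i1 h148) (hIM.n5 i137 i143 h164)
  obtain ⟨c174, g174⟩ := X.lift h174
  have h175 : M.mul (X.pr q95) (X.pr q9') = (X.pr q129) :=
    hM.b5 (hIM.n3 i1 j95 j137 h150) h164 (hIM.n3 i1 j143 j129 h148) (hIM.n2 i1 h7) (hIM.n3 i5 i1 i9 h1)
  obtain ⟨c175, g175⟩ := X.lift h175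
  have h176 : M.mul (X.pr q91) (X.pr q9') = (X.pr q43) :=
    hM.b5 h173 (hIM.n4 j141 j79 h166) h172 (hIM.n2 i1 h7) (hIM.n3 i5 i1 i9 h1)
  obtain ⟨c176, g176⟩ := X.lift h176
  have h177 : M.mul (X.pr q5) (X.pr q79') = (X.pr q53') :=
    hM.a4 (hIM.n5 j135 i211 h165) (hIM.n3 j5 i1 i19 h7) (hIM.n2 i19 h65) (hIM.n4 i79 i211 h103) (hIM.n4 i7 i53 h24)
  have h178 : M.mul (X.pr q5) (X.pr q55) = (X.pr q79) :=
    hM.b4 (hIM.n3 j5 i1 i19 h7) (hIM.n3 j7 i19 i135 h65) h165 h25 h103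
  have h180 : M.mul (X.pr q55) (X.pr q21) = (X.pr q97) :=
    hM.a2 h25 h8 h1 h3 h46
  have h181 : M.mul (X.pr q7) (X.pr q89') = (X.pr q55') :=
    hM.a0 h46 (hIM.n1 i55 h180) (hIM.n4 i3 i89 h42) (hIM.n2 i3 h0) h8
  have h182 : M.mul (X.pr q221') (X.pr q7) = (X.pr q141') :=
    hM.a1 h9 (hIM.n5 i5 i141 h68) (hIM.n5 i89 i221 h108) h181 (hIM.n4 i5 i55 h25)
  obtain ⟨c182, g182⟩ := X.lift h182
  have h185 : M.mul (X.pr q23) (X.pr q135') = (X.pr q89) :=
    hM.a2 h9 (hIM.n3 j7 i19 i135 h65) (hIM.n5 j5 i19 h7) h25 (hIM.n4 j89 j55 h181)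
  have h187 : M.mul (X.pr q1) (X.pr q99') = (X.pr q149') :=
    hM.a0 h9 (hIM.n4 i11 i149 h72) (hIM.n4 i13 i99 h47) (hIM.n5 i15 i13 h5) (hIM.n4 i11 i15 h4)
  obtain ⟨c187, g187⟩ := X.lift h187
  have h188 : M.mul (X.pr q117') (X.pr q7) = (X.pr q61') :=
    hM.a3 h158 h9 (hIM.n3 j23 i195 j131 h169) h149 (hIM.n4 j131 i51 h146)
  have h189 : M.mul (X.pr q207') (X.pr q23) = (X.pr q13) :=
    hM.a2 (hIM.n3 i75 j1 i207 h101) h9 (hIM.n4 j11 i75 h35) h4 h5
  obtain ⟨c189, g189⟩ := X.lift h189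
  have h190 : M.mul (X.pr q13) (X.pr q117') = (X.pr q207) :=
    hM.a4 (hIM.n2 i9 h3) (hIM.n1 i15 h5) h9 (hIM.n3 i15 i9 i117 h56) (hIM.n1 j207 h189)
  obtain ⟨c190, g190⟩ := X.lift h190
  have h191 : M.mul (X.pr q1) (X.pr q113) = (X.pr q149) :=
    hM.a0 (hIM.n4 i11 i15 h4) (hIM.n2 i11 h72) (hIM.n2 i15 h54) h0 h9
  obtain ⟨c191, g191⟩ := X.lift h191
  have h193 : M.mul (X.pr q1) (X.pr q115') = (X.pr q207) :=
    hM.a0 h5 (hIM.n1 j207 h189) (hIM.n4 j3 i115 h55) h0 h9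
  have h194 : M.mul (X.pr q15') (X.pr q221) = (X.pr q23) :=
    hM.a2 (hIM.n5 i15 i13 h5) h108 (hIM.n1 i13 h42) h0 h9
  obtain ⟨c194, g194⟩ := X.lift h194
  have h195 : M.mul (X.pr q13) (X.pr q61') = (X.pr q147) :=
    hM.b5 (hIM.n2 i9 h3) h9 h71 (hIM.n5 i5 i9 h1) (hIM.n3 i5 i9 i61 h28)
  obtain ⟨c195, g195⟩ := X.lift h195
  have h197 : M.mul (X.pr q53') (X.pr q7') = (X.pr q89') :=
    hM.a5 (hIM.n1 i7 h9) (hIM.n2 i7 h182) (hIM.n5 i89 i221 h108) (hIM.n5 i5 i141 h68) (hIM.n3 i5 i7 i53 h24)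
  have h198 : M.mul (X.pr q207) (X.pr q23) = (X.pr q133) :=
    hM.a5 h71 (hIM.n1 i7 h9) h155 (hIM.n3 i7 i9 i13 h3) (hIM.n5 j207 i13 h189)
  obtain ⟨c198, g198⟩ := X.lift h198
  have h199 : M.mul (X.pr q141') (X.pr q147') = (X.pr q145') :=
    hM.a3 (hIM.n5 i5 i141 h68) (hIM.n4 j9 i147 h71) (hIM.n1 i5 h1) (hIM.n5 i7 i145 h70) (hIM.n1 i7 h9)
  obtain ⟨c199, g199⟩ := X.lift h199
  have h201 : M.mul (X.pr q221') (X.pr q207') = (X.pr q145') :=
    hM.a3 (hIM.n2 i221 h194) h189 (hIM.n1 i15 h5) (hIM.n5 i7 i145 h70) (hIM.n1 i7 h9)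
  obtain ⟨c201, g201⟩ := X.lift h201
  have h202 : M.mul (X.pr q73') (X.pr q1') = (X.pr q89') :=
    hM.b3 (hIM.n2 i1 h9) (hIM.n5 i11 i73 h34) (hIM.n3 i1 i11 i15 h4) (hIM.n3 i89 i1 i221 h108) (hIM.n2 i221 h194)
  have h203 : M.mul (X.pr q7) (X.pr q33') = (X.pr q115) :=
    hM.b1 (hIM.n2 i1 h9) (hIM.n3 i1 j115 i207 h193) h171 (hIM.n3 i147 i1 i133 h155) (hIM.n5 i207 i133 h198)
  obtain ⟨c203, g203⟩ := X.lift h203
  have h204 : M.mul (X.pr q73') (X.pr q3) = (X.pr q43') :=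
    hM.b5 h202 (hIM.n4 j135 i89 h185) (hIM.n2 i1 h156) (hIM.n2 i1 h9) (hIM.n1 i1 h0)
  obtain ⟨c204, g204⟩ := X.lift h204
  have h205 : M.mul (X.pr q75) (X.pr q3) = (X.pr q147) :=
    hM.b5 h101 h198 (hIM.n2 i1 h155) (hIM.n2 i1 h9) (hIM.n1 i1 h0)
  obtain ⟨c205, g205⟩ := X.lift h205
  have h214 : M.mul (X.pr q1') (X.pr q101) = (X.pr q123) :=
    hM.a2 (hIM.n5 i1 i15 h4) h48 (hIM.n1 i15 h5) h10 (hIM.n2 j11 h163)
  have h220 : M.mul (X.pr q255') (X.pr q121) = (X.pr q123) :=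
    hM.a2 (hIM.n3 i111 j11 i255 h125) h58 (hIM.n4 j1 i111 h53) h10 (hIM.n2 j11 h163)
  have h237 : M.mul (X.pr q255') (X.pr q15) = (X.pr q25) :=
    hM.b2 h59 (hIM.n2 i121 h220) (hIM.n4 i11 i121 h58) (hIM.n2 i11 h4) h10
  have h240 : M.mul (X.pr q1) (X.pr q123') = (X.pr q253') :=
    hM.a2 (hIM.n1 i11 h10) (hIM.n3 i11 i15 i123 h59) (hIM.n2 i15 h237) (hIM.n5 i111 i255 h125) (hIM.n3 i11 i111 i253 h124)
  have h260 : M.mul (X.pr q27) (X.pr q123) = (X.pr q109) :=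
    hM.a3 (hIM.n1 i1 h11) (hIM.n3 i1 j123 j253 h240) (hIM.n1 i11 h124) (hIM.n1 i1 h52) h53
  have h262 : M.mul (X.pr q15) (X.pr q101') = (X.pr q15') :=
    hM.a2 (hIM.n1 i1 h52) (hIM.n4 i101 i123 h214) (hIM.n2 i123 h260) (hIM.n1 i1 h11) (hIM.n3 i1 i11 i15 h4)
  have h276 : M.mul (X.pr q41) (X.pr q31) = (X.pr q201) :=
    hM.a2 h18 h13 h19 (hIM.n5 j73 j43 h204) h98
  have h281 : M.mul (X.pr q41) (X.pr q3) = (X.pr q73) :=
    hM.r0 h98 h13 h276
  have h291 : M.mul (X.pr q163) (X.pr q47') = (X.pr q91) :=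
    hM.a2 h79 (hIM.n3 j9 i3 i47 h21) (hIM.n2 i3 h13) h19 (hIM.n2 j9 h176)
  have h294 : M.mul (X.pr q91') (X.pr q9) = (X.pr q41') :=
    hM.b3 (hIM.n3 j9 i3 i47 h21) (hIM.n5 i163 i91 h291) (hIM.n4 i31 i163 h79) (hIM.n5 i3 i41 h18) (hIM.n3 i3 i3 i31 h13)
  have h295 : M.mul (X.pr q5') (X.pr q213) = (X.pr q115) :=
    hM.a0 h14 (hIM.n2 j33 h203) (hIM.n2 j3 h104) (hIM.n1 i5 h178) (hIM.n2 i5 h25)
  obtain ⟨c295, g295⟩ := X.lift h295
  have h297 : M.mul (X.pr q169) (X.pr q9) = (X.pr q141) :=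
    hM.a5 h19 (hIM.n1 i5 h1) (hIM.n2 j1 h172) h14 h82
  obtain ⟨c297, g297⟩ := X.lift h297
  have h298 : M.mul (X.pr q15) (X.pr q263) = (X.pr q265) :=
    hM.a2 (hIM.n2 j3 h55) h129 h14 (hIM.n2 j33 h203) h130
  obtain ⟨c298, g298⟩ := X.lift h298
  have h300 : M.mul (X.pr q177) (X.pr q3) = (X.pr q169) :=
    hM.b2 h19 h86 (hIM.n4 i5 i11 h2) h14 h82
  obtain ⟨c300, g300⟩ := X.lift h300
  have h303 : M.mul (X.pr q213) (X.pr q33) = (X.pr q43) :=
    hM.b5 (hIM.n2 j3 h104) (hIM.n2 i11 h37) h19 (hIM.n4 i5 i11 h2) h14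
  obtain ⟨c303, g303⟩ := X.lift h303
  have h304 : M.mul (X.pr q5') (X.pr q37') = (X.pr q113') :=
    hM.a2 (hIM.n1 i3 h14) (hIM.n3 i3 i7 i37 h16) (hIM.n3 i7 j33 i115 h203) (hIM.n5 i15 i115 h55) (hIM.n3 i3 i15 i113 h54)
  have h305 : M.mul (X.pr q115) (X.pr q167) = (X.pr q147) :=
    hM.b5 (hIM.n2 j33 h203) (hIM.n2 i3 h0) (hIM.n3 j33 j1 j147 h171) (hIM.n1 i3 h14) h81
  obtain ⟨c305, g305⟩ := X.lift h305
  have h306 : M.mul (X.pr q213) (X.pr q167) = (X.pr q169) :=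
    hM.b5 h303 (hIM.n2 i3 h19) h82 (hIM.n1 i3 h14) h81
  obtain ⟨c306, g306⟩ := X.lift h306
  have h307 : M.mul (X.pr q169) (X.pr q61) = (X.pr q91) :=
    hM.a3 (hIM.n1 i9 h82) (hIM.n2 i9 h28) (hIM.n2 j5 h14) (hIM.n3 j91 i9 j41 h294) (hIM.n2 i9 h18)
  obtain ⟨c307, g307⟩ := X.lift h307
  have h312 : M.mul (X.pr q37) (X.pr q199') = (X.pr q73) :=
    hM.a2 h16 (hIM.n3 j3 i71 i199 h97) (hIM.n5 j9 i71 h33) h18 h281
  obtain ⟨c312, g312⟩ := X.lift h312
  have h314 : M.mul (X.pr q15') (X.pr q261') = (X.pr q259') :=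
    hM.a2 (hIM.n4 i15 i113 h54) (hIM.n3 i113 j7 i261 h128) h16 (hIM.n2 j37 h304) (hIM.n3 i113 i5 i259 h127)
  obtain ⟨c314, g314⟩ := X.lift h314
  have h315 : M.mul (X.pr q135) (X.pr q3) = (X.pr q199) :=
    hM.b2 h204 h156 h0 h16 (hIM.n4 j199 i73 h312)
  obtain ⟨c315, g315⟩ := X.lift h315
  have h334 : M.mul (X.pr q7) (X.pr q91) = (X.pr q229) :=
    hM.b5 h3 h42 h112 h18 (hIM.n5 j91 j41 h294)
  have h341 : M.mul (X.pr q43) (X.pr q231') = (X.pr q71') :=
    hM.a2 h19 (hIM.n3 j9 i89 i231 h113) (hIM.n5 i13 i89 h42) (hIM.n5 i7 i13 h3) (hIM.n3 j9 i7 i71 h33)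
  obtain ⟨c341, g341⟩ := X.lift h341
  have h343 : M.mul (X.pr q79) (X.pr q65') = (X.pr q177) :=
    hM.b1 h37 (hIM.n2 j11 h86) (hIM.n4 i5 i65 h30) (hIM.n2 i5 h2) h19
  have h353 : M.mul (X.pr q71) (X.pr q51) = (X.pr q271) :=
    hM.r3 (hIM.n3 j5 j71 j119 h174) h133 h23
  have h364 : M.mul (X.pr q5) (X.pr q75) = (X.pr q177) :=
    hM.a0 h30 (hIM.n2 j65 h343) (hIM.n2 j11 h35) h24 (hIM.n4 j79 j53 h177)
  obtain ⟨c364, g364⟩ := X.lift h364
  have h372 : M.mul (X.pr q119) (X.pr q7) = (X.pr q231) :=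
    hM.b2 h33 (hIM.n3 j5 j71 j119 h174) h24 (hIM.n3 j53 j7 j89 h197) h113
  obtain ⟨c372, g372⟩ := X.lift h372
  have h373 : M.mul (X.pr q99') (X.pr q89) = (X.pr q235') :=
    hM.b5 (hIM.n4 i13 i99 h47) (hIM.n3 j5 i13 i95 h45) (hIM.n3 j7 i95 i235 h115) h24 (hIM.n3 j53 j7 j89 h197)
  have h374 : M.mul (X.pr q117') (X.pr q89) = (X.pr q71) :=
    hM.b5 h188 (hIM.n4 i9 i61 h28) h33 h24 (hIM.n3 j53 j7 j89 h197)
  have h379 : M.mul (X.pr q267') (X.pr q15') = (X.pr q269') :=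
    hM.a3 (hIM.n5 j5 i267 h131) (hIM.n1 i15 h56) h28 (hIM.n5 i7 i269 h132) (hIM.n3 j117 i7 j61 h188)
  obtain ⟨c379, g379⟩ := X.lift h379
  have h383 : M.mul (X.pr q75) (X.pr q65) = (X.pr q15) :=
    hM.b5 (hIM.n2 j11 h35) (hIM.n2 i3 h0) h4 (hIM.n1 i3 h2) h30
  obtain ⟨c383, g383⟩ := X.lift h383
  have h384 : M.mul (X.pr q71) (X.pr q7) = (X.pr q197) :=
    hM.r1 h33 h31 h96
  obtain ⟨c384, g384⟩ := X.lift h384
  have h385 : M.mul (X.pr q99') (X.pr q67) = (X.pr q9') :=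
    hM.r3 (hIM.n4 i13 i99 h47) (hIM.n4 i9 i13 h3) h31
  have h392 : M.mul (X.pr q15') (X.pr q273') = (X.pr q271') :=
    hM.a2 (hIM.n4 i15 i119 h57) (hIM.n3 i119 j7 i273 h134) h33 (hIM.n2 j71 h174) (hIM.n3 i119 i5 i271 h133)
  obtain ⟨c392, g392⟩ := X.lift h392
  have h393 : M.mul (X.pr q271') (X.pr q9') = (X.pr q195') :=
    hM.b0 (hIM.n1 i195 h152) h147 (hIM.n2 i9 h3) h33 (hIM.n4 i51 i271 h353)
  obtain ⟨c393, g393⟩ := X.lift h393
  have h394 : M.mul (X.pr q15) (X.pr q13) = (X.pr q229) :=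
    hM.b1 (hIM.n2 i9 h56) (hIM.n2 i9 h112) (hIM.n2 i9 h3) h33 (hIM.n1 j117 h374)
  obtain ⟨c394, g394⟩ := X.lift h394
  have h396 : M.mul (X.pr q119') (X.pr q197) = (X.pr q129) :=
    hM.b5 (hIM.n2 j71 h174) (hIM.n1 i5 h1) h154 (hIM.n1 j9 h33) h384
  obtain ⟨c396, g396⟩ := X.lift h396
  have h397 : M.mul (X.pr q231') (X.pr q197) = (X.pr q199) :=
    hM.b5 (hIM.n5 i43 j71 h341) (hIM.n4 i3 i43 h19) h97 (hIM.n1 j9 h33) h384
  obtain ⟨c397, g397⟩ := X.lift h397
  have h422 : M.mul (X.pr q43') (X.pr q13) = (X.pr q235) :=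
    hM.a1 h42 (hIM.n5 j99 j235 h373) (hIM.n5 i9 i43 h19) (hIM.n2 i9 h3) h47
  obtain ⟨c422, g422⟩ := X.lift h422
  have h427 : M.mul (X.pr q99') (X.pr q15) = (X.pr q95') :=
    hM.a3 (hIM.n5 i7 i99 h47) h394 (hIM.n1 i7 h334) (hIM.n5 j5 i95 h45) h43
  obtain ⟨c427, g427⟩ := X.lift h427
  have h430 : M.mul (X.pr q207') (X.pr q99) = (X.pr q229) :=
    hM.a2 (hIM.n2 i23 h189) h47 (hIM.n4 i1 i23 h9) (hIM.n2 i1 h5) h394
  obtain ⟨c430, g430⟩ := X.lift h430
  have h445 : M.mul (X.pr q15) (X.pr q239') = (X.pr q113') :=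
    hM.a0 h54 j113 (hIM.n4 i101 i239 h117) h262 j15
  obtain ⟨c445, g445⟩ := X.lift h445
  have h446 : M.mul (X.pr q263) (X.pr q3) = (X.pr q137) :=
    hM.b2 (hIM.n4 i5 i11 h2) h129 (hIM.n2 j3 h55) h54 h153
  obtain ⟨c446, g446⟩ := X.lift h446
  have h447 : M.mul (X.pr q265) (X.pr q3) = (X.pr q149) :=
    hM.b2 h0 h130 (hIM.n2 j3 h55) h54 h191
  obtain ⟨c447, g447⟩ := X.lift h447
  have h449 : M.mul (X.pr q259') (X.pr q239) = (X.pr q137) :=
    hM.b5 (hIM.n4 i5 i259 h127) (hIM.n3 i3 i5 i11 h2) h153 (hIM.n1 i3 h54) (hIM.n4 j239 j113 h445)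
  obtain ⟨c449, g449⟩ := X.lift h449
  have h450 : M.mul (X.pr q261') (X.pr q239) = (X.pr q149) :=
    hM.b5 (hIM.n4 j7 i261 h128) (hIM.n2 i3 h0) h191 (hIM.n1 i3 h54) (hIM.n4 j239 j113 h445)
  obtain ⟨c450, g450⟩ := X.lift h450
  have h451 : M.mul (X.pr q241') (X.pr q15) = (X.pr q117') :=
    hM.a1 h56 i117 (hIM.n5 i101 i241 h118) h262 j15
  obtain ⟨c451, g451⟩ := X.lift h451
  have h454 : M.mul (X.pr q9) (X.pr q273) = (X.pr q207') :=
    hM.a0 h3 (hIM.n4 j117 i207 h190) (hIM.n2 j7 h134) (hIM.n1 j9 h57) h56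
  obtain ⟨c454, g454⟩ := X.lift h454
  have h455 : M.mul (X.pr q267') (X.pr q195') = (X.pr q241') :=
    hM.a3 (hIM.n5 j5 i267 h131) (hIM.n2 j117 h158) h1 (hIM.n4 i15 j117 h451) (hIM.n1 i15 h56)
  obtain ⟨c455, g455⟩ := X.lift h455
  have h456 : M.mul (X.pr q269') (X.pr q207) = (X.pr q241') :=
    hM.a3 (hIM.n5 i7 i269 h132) (hIM.n2 j117 h190) (hIM.n1 i7 h3) (hIM.n4 i15 j117 h451) (hIM.n1 i15 h56)
  obtain ⟨c456, g456⟩ := X.lift h456
  have h460 : M.mul (X.pr q129) (X.pr q33') = (X.pr q263) :=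
    hM.b1 h62 h446 (hIM.n4 j5 i33 h14) h2 h66
  obtain ⟨c460, g460⟩ := X.lift h460
  have h467 : M.mul (X.pr q147) (X.pr q71') = (X.pr q273') :=
    hM.b1 h71 (hIM.n3 i9 i273 j207 h454) (hIM.n4 i7 i71 h33) (hIM.n3 i7 i9 i13 h3) (hIM.n5 j207 i13 h189)
  obtain ⟨c467, g467⟩ := X.lift h467
  have h475 : M.mul (X.pr q235) (X.pr q9') = (X.pr q199) :=
    hM.b2 (hIM.n4 i89 i231 h113) (hIM.n3 j99 i89 j235 h373) (hIM.n1 j99 h385) h96 h397
  obtain ⟨c475, g475⟩ := X.lift h475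
  have r0 := X.rel hI hS (X.f2 hI I3 (X.z d0)) (X.f3 hI I3 I5 I11 (X.z d2)) (X.z d35) (X.f2 hI I3 g205) (X.z d7) (X.z d64) g155
  replace r0 := congrArg (fun t => X.act q1 (X.act q3 (X.act q5 (X.act q3' (X.act q1' t))))) r0
  simp only [X.act_add, X.act_sub, X.act_neg, X.act_zero, neg_neg, neg_zero, sub_zero, add_zero, zero_add, zero_sub, sub_neg_eq_add, W7, W7', W9, W9', W11, W11', W13, W15, W15', W19, W23, W33, W43, W43', W65, W67, W71, W73, W73', W75, W79, W89, W95, W101, W117, W119, W119', W129, W129', W135, W137, W137', W141, W145, W147, W149, W169, W169', W195, W195', W197, W197', W199, W207, W207', W211, W211', W221, W241, W267, W269, C1, D1, C3, D3, C5, D5] at r0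
  have r1 := X.rel hI hS (X.f2 hI I3 (X.z d0)) (X.f3 hI I3 J5 I33 (X.z d14)) g203 (X.z d55) (X.z d1) (X.z d3) g5
  simp only [X.act_add, X.act_sub, X.act_neg, X.act_zero, neg_neg, neg_zero, sub_zero, add_zero, zero_add, zero_sub, sub_neg_eq_add, W7, W7', W9, W9', W11, W11', W13, W15, W15', W19, W23, W33, W43, W43', W65, W67, W71, W73, W73', W75, W79, W89, W95, W101, W117, W119, W119', W129, W129', W135, W137, W137', W141, W145, W147, W149, W169, W169', W195, W195', W197, W197', W199, W207, W207', W211, W211', W221, W241, W267, W269, C1, D1, C3, D3, C5, D5] at r1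
  have r2 := X.rel hI hS (X.f5 hI J9 I71 (X.z d33)) (X.f1 hI I43 g341) (X.f5 hI I119 I231 g372) g174 (X.f4 hI I3 I43 (X.z d19)) (X.f2 hI I3 (X.z d0)) (X.f1 hI I5 (X.z d1))
  replace r2 := congrArg (fun t => X.act q5 t) r2
  simp only [X.act_add, X.act_sub, X.act_neg, X.act_zero, neg_neg, neg_zero, sub_zero, add_zero, zero_add, zero_sub, sub_neg_eq_add, W7, W7', W9, W9', W11, W11', W13, W15, W15', W19, W23, W33, W43, W43', W65, W67, W71, W73, W73', W75, W79, W89, W95, W101, W117, W119, W119', W129, W129', W135, W137, W137', W141, W145, W147, W149, W169, W169', W195, W195', W197, W197', W199, W207, W207', W211, W211', W221, W241, W267, W269, C1, D1, C3, D3, C5, D5] at r2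
  have r3 := X.rel hI hS (X.z d70) (X.f4 hI J9 I147 (X.z d71)) (X.z d3) g189 (X.f5 hI J141 J145 g199) (X.f5 hI J221 J141 g182) (X.f5 hI J221 J145 g201)
  simp only [X.act_add, X.act_sub, X.act_neg, X.act_zero, neg_neg, neg_zero, sub_zero, add_zero, zero_add, zero_sub, sub_neg_eq_add, W7, W7', W9, W9', W11, W11', W13, W15, W15', W19, W23, W33, W43, W43', W65, W67, W71, W73, W73', W75, W79, W89, W95, W101, W117, W119, W119', W129, W129', W135, W137, W137', W141, W145, W147, W149, W169, W169', W195, W195', W197, W197', W199, W207, W207', W211, W211', W221, W241, W267, W269, C1, D1, C3, D3, C5, D5] at r3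
  have r4 := X.rel hI hS (X.f5 hI I71 I197 g384) (X.f2 hI I197 g397) (X.f5 hI I119 I231 g372) (X.f2 hI I197 g396) (X.f2 hI I71 (X.z d97)) (X.f2 hI I3 (X.z d0)) (X.f2 hI I71 g154)
  replace r4 := congrArg (fun t => X.act q5 t) r4
  simp only [X.act_add, X.act_sub, X.act_neg, X.act_zero, neg_neg, neg_zero, sub_zero, add_zero, zero_add, zero_sub, sub_neg_eq_add, W7, W7', W9, W9', W11, W11', W13, W15, W15', W19, W23, W33, W43, W43', W65, W67, W71, W73, W73', W75, W79, W89, W95, W101, W117, W119, W119', W129, W129', W135, W137, W137', W141, W145, W147, W149, W169, W169', W195, W195', W197, W197', W199, W207, W207', W211, W211', W221, W241, W267, W269, C1, D1, C3, D3, C5, D5] at r4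
  have r5 := X.rel hI hS (X.f4 hI I3 I7 (X.z d0)) (X.z d7) (X.z d65) g156 (X.f3 hI I3 I5 I11 (X.z d2)) (X.f3 hI I11 I7 I73 (X.z d34)) (X.f2 hI I3 g204)
  replace r5 := congrArg (fun t => X.act q5 (X.act q1 (X.act q3 t))) r5
  simp only [X.act_add, X.act_sub, X.act_neg, X.act_zero, neg_neg, neg_zero, sub_zero, add_zero, zero_add, zero_sub, sub_neg_eq_add, W7, W7', W9, W9', W11, W11', W13, W15, W15', W19, W23, W33, W43, W43', W65, W67, W71, W73, W73', W75, W79, W89, W95, W101, W117, W119, W119', W129, W129', W135, W137, W137', W141, W145, W147, W149, W169, W169', W195, W195', W197, W197', W199, W207, W207', W211, W211', W221, W241, W267, W269, C1, D1, C3, D3, C5, D5] at r5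
  have r6 := X.rel hI hS (X.f4 hI I3 I7 (X.z d0)) (X.f4 hI J99 J149 g187) (X.f1 hI I7 (X.z d47)) g5 (X.f2 hI I3 g447) (X.f1 hI I7 (X.z d130)) (X.z d55)
  simp only [X.act_add, X.act_sub, X.act_neg, X.act_zero, neg_neg, neg_zero, sub_zero, add_zero, zero_add, zero_sub, sub_neg_eq_add, W7, W7', W9, W9', W11, W11', W13, W15, W15', W19, W23, W33, W43, W43', W65, W67, W71, W73, W73', W75, W79, W89, W95, W101, W117, W119, W119', W129, W129', W135, W137, W137', W141, W145, W147, W149, W169, W169', W195, W195', W197, W197', W199, W207, W207', W211, W211', W221, W241, W267, W269, C1, D1, C3, D3, C5, D5] at r6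
  have r7 := X.rel hI hS (X.f1 hI I7 (X.z d3)) (X.z d45) (X.z d115) g422 (X.f1 hI I5 (X.z d1)) (X.f4 hI I3 I7 (X.z d0)) (X.f4 hI I3 I43 (X.z d19))
  replace r7 := congrArg (fun t => X.act q5 (X.act q1 (X.act q3 t))) r7
  simp only [X.act_add, X.act_sub, X.act_neg, X.act_zero, neg_neg, neg_zero, sub_zero, add_zero, zero_add, zero_sub, sub_neg_eq_add, W7, W7', W9, W9', W11, W11', W13, W15, W15', W19, W23, W33, W43, W43', W65, W67, W71, W73, W73', W75, W79, W89, W95, W101, W117, W119, W119', W129, W129', W135, W137, W137', W141, W145, W147, W149, W169, W169', W195, W195', W197, W197', W199, W207, W207', W211, W211', W221, W241, W267, W269, C1, D1, C3, D3, C5, D5] at r7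
  have r8 := X.rel hI hS (X.f1 hI I7 (X.z d9)) (X.f1 hI J15 g194) (X.f3 hI J221 I7 J141 g182) (X.z d68) g5 (X.f1 hI I7 (X.z d3)) (X.z d1)
  replace r8 := congrArg (fun t => X.act q1 (X.act q3 t)) r8
  simp only [X.act_add, X.act_sub, X.act_neg, X.act_zero, neg_neg, neg_zero, sub_zero, add_zero, zero_add, zero_sub, sub_neg_eq_add, W7, W7', W9, W9', W11, W11', W13, W15, W15', W19, W23, W33, W43, W43', W65, W67, W71, W73, W73', W75, W79, W89, W95, W101, W117, W119, W119', W129, W129', W135, W137, W137', W141, W145, W147, W149, W169, W169', W195, W195', W197, W197', W199, W207, W207', W211, W211', W221, W241, W267, W269, C1, D1, C3, D3, C5, D5] at r8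
  have r9 := X.rel hI hS (X.f1 hI I7 (X.z d9)) g198 (X.f1 hI I7 (X.z d64)) (X.f1 hI I15 g151) (X.f2 hI J1 (X.z d101)) (X.f1 hI I7 (X.z d35)) (X.f4 hI I11 I15 (X.z d4))
  replace r9 := congrArg (fun t => X.act q1 (X.act q3 (X.act q5 t))) r9
  simp only [X.act_add, X.act_sub, X.act_neg, X.act_zero, neg_neg, neg_zero, sub_zero, add_zero, zero_add, zero_sub, sub_neg_eq_add, W7, W7', W9, W9', W11, W11', W13, W15, W15', W19, W23, W33, W43, W43', W65, W67, W71, W73, W73', W75, W79, W89, W95, W101, W117, W119, W119', W129, W129', W135, W137, W137', W141, W145, W147, W149, W169, W169', W195, W195', W197, W197', W199, W207, W207', W211, W211', W221, W241, W267, W269, C1, D1, C3, D3, C5, D5] at r9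
  have r10 := X.rel hI hS (X.f3 hI I3 I7 I37 (X.z d16)) (X.f2 hI I3 (X.z d62)) (X.z d65) (X.f2 hI I3 g315) (X.f2 hI I37 g160) (X.f3 hI I11 I7 I73 (X.z d34)) (X.f3 hI I37 J199 I73 g312)
  replace r10 := congrArg (fun t => X.act q5 (X.act q1 (X.act q3 t))) r10
  simp only [X.act_add, X.act_sub, X.act_neg, X.act_zero, neg_neg, neg_zero, sub_zero, add_zero, zero_add, zero_sub, sub_neg_eq_add, W7, W7', W9, W9', W11, W11', W13, W15, W15', W19, W23, W33, W43, W43', W65, W67, W71, W73, W73', W75, W79, W89, W95, W101, W117, W119, W119', W129, W129', W135, W137, W137', W141, W145, W147, W149, W169, W169', W195, W195', W197, W197', W199, W207, W207', W211, W211', W221, W241, W267, W269, C1, D1, C3, D3, C5, D5] at r10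
  have r11 := X.rel hI hS (X.f3 hI J9 I7 I71 (X.z d33)) (X.f2 hI J9 (X.z d71)) (X.f1 hI I7 (X.z d9)) (X.f1 hI I5 (X.z d1)) g467 (X.f5 hI I119 I273 (X.z d134)) g174
  replace r11 := congrArg (fun t => X.act q1 (X.act q3 (X.act q5 t))) r11
  simp only [X.act_add, X.act_sub, X.act_neg, X.act_zero, neg_neg, neg_zero, sub_zero, add_zero, zero_add, zero_sub, sub_neg_eq_add, W7, W7', W9, W9', W11, W11', W13, W15, W15', W19, W23, W33, W43, W43', W65, W67, W71, W73, W73', W75, W79, W89, W95, W101, W117, W119, W119', W129, W129', W135, W137, W137', W141, W145, W147, W149, W169, W169', W195, W195', W197, W197', W199, W207, W207', W211, W211', W221, W241, W267, W269, C1, D1, C3, D3, C5, D5] at r11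
  have r12 := X.rel hI hS (X.f3 hI J9 I7 I71 (X.z d33)) (X.f2 hI J9 g175) (X.z d115) (X.f2 hI J9 g475) (X.f2 hI I71 g154) (X.f4 hI I3 I7 (X.z d0)) (X.f2 hI I71 (X.z d97))
  replace r12 := congrArg (fun t => X.act q5 (X.act q1 (X.act q3 t))) r12
  simp only [X.act_add, X.act_sub, X.act_neg, X.act_zero, neg_neg, neg_zero, sub_zero, add_zero, zero_add, zero_sub, sub_neg_eq_add, W7, W7', W9, W9', W11, W11', W13, W15, W15', W19, W23, W33, W43, W43', W65, W67, W71, W73, W73', W75, W79, W89, W95, W101, W117, W119, W119', W129, W129', W135, W137, W137', W141, W145, W147, W149, W169, W169', W195, W195', W197, W197', W199, W207, W207', W211, W211', W221, W241, W267, W269, C1, D1, C3, D3, C5, D5] at r12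
  have r13 := X.rel hI hS (X.z d1) (X.f4 hI J143 J129 g148) (X.f1 hI J5 (X.z d69)) (X.z d9) (X.f2 hI J9 g175) (X.f1 hI J5 (X.z d45)) (X.z d3)
  simp only [X.act_add, X.act_sub, X.act_neg, X.act_zero, neg_neg, neg_zero, sub_zero, add_zero, zero_add, zero_sub, sub_neg_eq_add, W7, W7', W9, W9', W11, W11', W13, W15, W15', W19, W23, W33, W43, W43', W65, W67, W71, W73, W73', W75, W79, W89, W95, W101, W117, W119, W119', W129, W129', W135, W137, W137', W141, W145, W147, W149, W169, W169', W195, W195', W197, W197', W199, W207, W207', W211, W211', W221, W241, W267, W269, C1, D1, C3, D3, C5, D5] at r13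
  have r14 := X.rel hI hS (X.f1 hI J5 (X.z d7)) (X.f1 hI I15 g159) (X.f5 hI J135 I211 g165) (X.z d65) (X.f4 hI I11 I15 (X.z d4)) (X.f5 hI I3 I11 (X.z d2)) (X.f4 hI I3 I7 (X.z d0))
  replace r14 := congrArg (fun t => X.act q1 (X.act q3 t)) r14
  simp only [X.act_add, X.act_sub, X.act_neg, X.act_zero, neg_neg, neg_zero, sub_zero, add_zero, zero_add, zero_sub, sub_neg_eq_add, W7, W7', W9, W9', W11, W11', W13, W15, W15', W19, W23, W33, W43, W43', W65, W67, W71, W73, W73', W75, W79, W89, W95, W101, W117, W119, W119', W129, W129', W135, W137, W137', W141, W145, W147, W149, W169, W169', W195, W195', W197, W197', W199, W207, W207', W211, W211', W221, W241, W267, W269, C1, D1, C3, D3, C5, D5] at r14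
  have r15 := X.rel hI hS (X.f1 hI J5 (X.z d7)) g164 (X.f1 hI J5 (X.z d69)) g151 (X.f4 hI J95 J137 g150) (X.f1 hI J5 (X.z d45)) g5
  simp only [X.act_add, X.act_sub, X.act_neg, X.act_zero, neg_neg, neg_zero, sub_zero, add_zero, zero_add, zero_sub, sub_neg_eq_add, W7, W7', W9, W9', W11, W11', W13, W15, W15', W19, W23, W33, W43, W43', W65, W67, W71, W73, W73', W75, W79, W89, W95, W101, W117, W119, W119', W129, W129', W135, W137, W137', W141, W145, W147, W149, W169, W169', W195, W195', W197, W197', W199, W207, W207', W211, W211', W221, W241, W267, W269, C1, D1, C3, D3, C5, D5] at r15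
  have r16 := X.rel hI hS (X.f3 hI I3 J5 I33 (X.z d14)) (X.f2 hI I3 (X.z d0)) (X.z d1) (X.f2 hI I3 (X.z d19)) g203 (X.f1 hI J5 g295) (X.f2 hI I33 g303)
  replace r16 := congrArg (fun t => X.act q1 (X.act q3 (X.act q5 (X.act q3' (X.act q1' (X.act q5' t)))))) r16
  simp only [X.act_add, X.act_sub, X.act_neg, X.act_zero, neg_neg, neg_zero, sub_zero, add_zero, zero_add, zero_sub, sub_neg_eq_add, W7, W7', W9, W9', W11, W11', W13, W15, W15', W19, W23, W33, W43, W43', W65, W67, W71, W73, W73', W75, W79, W89, W95, W101, W117, W119, W119', W129, W129', W135, W137, W137', W141, W145, W147, W149, W169, W169', W195, W195', W197, W197', W199, W207, W207', W211, W211', W221, W241, W267, W269, C1, D1, C3, D3, C5, D5] at r16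
  have r17 := X.rel hI hS (X.z d28) (X.f2 hI J9 (X.z d71)) (X.z d68) g297 (X.f2 hI J61 g195) (X.z d43) g307
  replace r17 := congrArg (fun t => X.act q1 (X.act q3 (X.act q5 (X.act q3' (X.act q1' (X.act q5' t)))))) r17
  simp only [X.act_add, X.act_sub, X.act_neg, X.act_zero, neg_neg, neg_zero, sub_zero, add_zero, zero_add, zero_sub, sub_neg_eq_add, W7, W7', W9, W9', W11, W11', W13, W15, W15', W19, W23, W33, W43, W43', W65, W67, W71, W73, W73', W75, W79, W89, W95, W101, W117, W119, W119', W129, W129', W135, W137, W137', W141, W145, W147, W149, W169, W169', W195, W195', W197, W197', W199, W207, W207', W211, W211', W221, W241, W267, W269, C1, D1, C3, D3, C5, D5] at r17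
  have r18 := X.rel hI hS (X.f1 hI J5 (X.z d63)) (X.f5 hI I211 J131 g170) (X.f5 hI J135 I211 g165) (X.f5 hI J135 J131 g168) (X.f4 hI I11 I137 (X.z d66)) (X.f5 hI I3 I11 (X.z d2)) (X.f4 hI I3 I129 (X.z d62))
  replace r18 := congrArg (fun t => X.act q1 (X.act q3 t)) r18
  simp only [X.act_add, X.act_sub, X.act_neg, X.act_zero, neg_neg, neg_zero, sub_zero, add_zero, zero_add, zero_sub, sub_neg_eq_add, W7, W7', W9, W9', W11, W11', W13, W15, W15', W19, W23, W33, W43, W43', W65, W67, W71, W73, W73', W75, W79, W89, W95, W101, W117, W119, W119', W129, W129', W135, W137, W137', W141, W145, W147, W149, W169, W169', W195, W195', W197, W197', W199, W207, W207', W211, W211', W221, W241, W267, W269, C1, D1, C3, D3, C5, D5] at r18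
  have r19 := X.rel hI hS (X.f3 hI I33 J5 I167 (X.z d81)) (X.f4 hI J1 J147 g171) (X.z d1) (X.f2 hI I33 (X.z d82)) (X.f2 hI I167 g305) (X.f1 hI J5 g295) (X.f2 hI I167 g306)
  replace r19 := congrArg (fun t => X.act q1 (X.act q3 (X.act q5 (X.act q3' (X.act q1' (X.act q5' t)))))) r19
  simp only [X.act_add, X.act_sub, X.act_neg, X.act_zero, neg_neg, neg_zero, sub_zero, add_zero, zero_add, zero_sub, sub_neg_eq_add, W7, W7', W9, W9', W11, W11', W13, W15, W15', W19, W23, W33, W43, W43', W65, W67, W71, W73, W73', W75, W79, W89, W95, W101, W117, W119, W119', W129, W129', W135, W137, W137', W141, W145, W147, W149, W169, W169', W195, W195', W197, W197', W199, W207, W207', W211, W211', W221, W241, W267, W269, C1, D1, C3, D3, C5, D5] at r19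
  have r20 := X.rel hI hS (X.f1 hI I5 (X.z d1)) (X.f3 hI J9 I7 I71 (X.z d33)) g174 (X.f3 hI J9 I15 I119 (X.z d57)) (X.f4 hI I3 I7 (X.z d0)) (X.f3 hI I3 I5 I11 (X.z d2)) (X.f4 hI I11 I15 (X.z d4))
  replace r20 := congrArg (fun t => X.act q1 (X.act q3 (X.act q5 t))) r20
  simp only [X.act_add, X.act_sub, X.act_neg, X.act_zero, neg_neg, neg_zero, sub_zero, add_zero, zero_add, zero_sub, sub_neg_eq_add, W7, W7', W9, W9', W11, W11', W13, W15, W15', W19, W23, W33, W43, W43', W65, W67, W71, W73, W73', W75, W79, W89, W95, W101, W117, W119, W119', W129, W129', W135, W137, W137', W141, W145, W147, W149, W169, W169', W195, W195', W197, W197', W199, W207, W207', W211, W211', W221, W241, W267, W269, C1, D1, C3, D3, C5, D5] at r20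
  have r21 := X.rel hI hS (X.f1 hI I5 (X.z d1)) (X.f3 hI J9 I15 I119 (X.z d57)) (X.f3 hI I119 I5 I271 (X.z d133)) (X.f2 hI J9 g393) (X.f4 hI I11 I15 (X.z d4)) (X.f3 hI I11 I5 I65 (X.z d30)) (X.f4 hI I65 I195 (X.z d95))
  replace r21 := congrArg (fun t => X.act q1 (X.act q3 (X.act q5 (X.act q5 t)))) r21
  simp only [X.act_add, X.act_sub, X.act_neg, X.act_zero, neg_neg, neg_zero, sub_zero, add_zero, zero_add, zero_sub, sub_neg_eq_add, W7, W7', W9, W9', W11, W11', W13, W15, W15', W19, W23, W33, W43, W43', W65, W67, W71, W73, W73', W75, W79, W89, W95, W101, W117, W119, W119', W129, W129', W135, W137, W137', W141, W145, W147, W149, W169, W169', W195, W195', W197, W197', W199, W207, W207', W211, W211', W221, W241, W267, W269, C1, D1, C3, D3, C5, D5] at r21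
  have r22 := X.rel hI hS (X.f1 hI I5 (X.z d1)) (X.f2 hI J9 g176) (X.f1 hI I5 (X.z d43)) (X.z d3) (X.f2 hI J1 g172) (X.f1 hI I5 (X.z d68)) (X.z d9)
  replace r22 := congrArg (fun t => X.act q1 (X.act q3 (X.act q5 (X.act q3' (X.act q1' t))))) r22
  simp only [X.act_add, X.act_sub, X.act_neg, X.act_zero, neg_neg, neg_zero, sub_zero, add_zero, zero_add, zero_sub, sub_neg_eq_add, W7, W7', W9, W9', W11, W11', W13, W15, W15', W19, W23, W33, W43, W43', W65, W67, W71, W73, W73', W75, W79, W89, W95, W101, W117, W119, W119', W129, W129', W135, W137, W137', W141, W145, W147, W149, W169, W169', W195, W195', W197, W197', W199, W207, W207', W211, W211', W221, W241, W267, W269, C1, D1, C3, D3, C5, D5] at r22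
  have r23 := X.rel hI hS (X.f3 hI I3 I5 I11 (X.z d2)) (X.f2 hI I3 (X.z d19)) (X.f1 hI I5 (X.z d1)) (X.f2 hI I3 (X.z d0)) (X.z d86) (X.f1 hI I5 g364) (X.z d35)
  replace r23 := congrArg (fun t => X.act q1 (X.act q3 (X.act q5 (X.act q3' (X.act q1' t))))) r23
  simp only [X.act_add, X.act_sub, X.act_neg, X.act_zero, neg_neg, neg_zero, sub_zero, add_zero, zero_add, zero_sub, sub_neg_eq_add, W7, W7', W9, W9', W11, W11', W13, W15, W15', W19, W23, W33, W43, W43', W65, W67, W71, W73, W73', W75, W79, W89, W95, W101, W117, W119, W119', W129, W129', W135, W137, W137', W141, W145, W147, W149, W169, W169', W195, W195', W197, W197', W199, W207, W207', W211, W211', W221, W241, W267, W269, C1, D1, C3, D3, C5, D5] at r23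
  have r24 := X.rel hI hS (X.f5 hI I3 I33 (X.z d14)) (X.f2 hI I33 (X.z d82)) (X.f1 hI I5 (X.z d1)) (X.f4 hI J1 J147 g171) (X.f2 hI I3 g300) (X.f1 hI I5 g364) (X.f2 hI I3 g205)
  replace r24 := congrArg (fun t => X.act q1 (X.act q3 (X.act q5 (X.act q3' (X.act q1' t))))) r24
  simp only [X.act_add, X.act_sub, X.act_neg, X.act_zero, neg_neg, neg_zero, sub_zero, add_zero, zero_add, zero_sub, sub_neg_eq_add, W7, W7', W9, W9', W11, W11', W13, W15, W15', W19, W23, W33, W43, W43', W65, W67, W71, W73, W73', W75, W79, W89, W95, W101, W117, W119, W119', W129, W129', W135, W137, W137', W141, W145, W147, W149, W169, W169', W195, W195', W197, W197', W199, W207, W207', W211, W211', W221, W241, W267, W269, C1, D1, C3, D3, C5, D5] at r24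
  have r25 := X.rel hI hS (X.f5 hI I3 I33 (X.z d14)) g203 (X.z d129) g460 (X.f2 hI I3 (X.z d0)) (X.z d7) (X.f2 hI I3 (X.z d62))
  replace r25 := congrArg (fun t => X.act q5 t) r25
  simp only [X.act_add, X.act_sub, X.act_neg, X.act_zero, neg_neg, neg_zero, sub_zero, add_zero, zero_add, zero_sub, sub_neg_eq_add, W7, W7', W9, W9', W11, W11', W13, W15, W15', W19, W23, W33, W43, W43', W65, W67, W71, W73, W73', W75, W79, W89, W95, W101, W117, W119, W119', W129, W129', W135, W137, W137', W141, W145, W147, W149, W169, W169', W195, W195', W197, W197', W199, W207, W207', W211, W211', W221, W241, W267, W269, C1, D1, C3, D3, C5, D5] at r25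
  have r26 := X.rel hI hS (X.f2 hI I11 (X.z d4)) (X.f3 hI I11 I5 I65 (X.z d30)) (X.f2 hI I65 g383) (X.z d35) (X.z d7) g151 (X.z d9)
  replace r26 := congrArg (fun t => X.act q1 (X.act q3 (X.act q5 (X.act q3' (X.act q1' t))))) r26
  simp only [X.act_add, X.act_sub, X.act_neg, X.act_zero, neg_neg, neg_zero, sub_zero, add_zero, zero_add, zero_sub, sub_neg_eq_add, W7, W7', W9, W9', W11, W11', W13, W15, W15', W19, W23, W33, W43, W43', W65, W67, W71, W73, W73', W75, W79, W89, W95, W101, W117, W119, W119', W129, W129', W135, W137, W137', W141, W145, W147, W149, W169, W169', W195, W195', W197, W197', W199, W207, W207', W211, W211', W221, W241, W267, W269, C1, D1, C3, D3, C5, D5] at r26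
  have r27 := X.rel hI hS g5 (X.f4 hI I65 I195 (X.z d95)) (X.f2 hI I65 g383) (X.f2 hI J1 (X.z d101)) (X.f1 hI I195 g152) g151 (X.f1 hI J207 g189)
  replace r27 := congrArg (fun t => X.act q1 (X.act q3 (X.act q5 (X.act q3' (X.act q1' t))))) r27
  simp only [X.act_add, X.act_sub, X.act_neg, X.act_zero, neg_neg, neg_zero, sub_zero, add_zero, zero_add, zero_sub, sub_neg_eq_add, W7, W7', W9, W9', W11, W11', W13, W15, W15', W19, W23, W33, W43, W43', W65, W67, W71, W73, W73', W75, W79, W89, W95, W101, W117, W119, W119', W129, W129', W135, W137, W137', W141, W145, W147, W149, W169, W169', W195, W195', W197, W197', W199, W207, W207', W211, W211', W221, W241, W267, W269, C1, D1, C3, D3, C5, D5] at r27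
  have r28 := X.rel hI hS (X.f5 hI I3 I113 (X.z d54)) (X.f3 hI I113 I5 I259 (X.z d127)) (X.f1 hI J15 g314) (X.f3 hI I113 J7 I261 (X.z d128)) (X.f3 hI I3 I5 I11 (X.z d2)) (X.f2 hI I11 (X.z d4)) (X.f2 hI I3 (X.z d0))
  replace r28 := congrArg (fun t => X.act q3' (X.act q1' t)) r28
  simp only [X.act_add, X.act_sub, X.act_neg, X.act_zero, neg_neg, neg_zero, sub_zero, add_zero, zero_add, zero_sub, sub_neg_eq_add, W7, W7', W9, W9', W11, W11', W13, W15, W15', W19, W23, W33, W43, W43', W65, W67, W71, W73, W73', W75, W79, W89, W95, W101, W117, W119, W119', W129, W129', W135, W137, W137', W141, W145, W147, W149, W169, W169', W195, W195', W197, W197', W199, W207, W207', W211, W211', W221, W241, W267, W269, C1, D1, C3, D3, C5, D5] at r28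
  have r29 := X.rel hI hS (X.f5 hI I3 I113 (X.z d54)) (X.f2 hI I113 g153) (X.f2 hI I11 (X.z d4)) (X.f2 hI I113 g191) (X.f2 hI I3 g446) g298 (X.f2 hI I3 g447)
  replace r29 := congrArg (fun t => X.act q3' (X.act q1' t)) r29
  simp only [X.act_add, X.act_sub, X.act_neg, X.act_zero, neg_neg, neg_zero, sub_zero, add_zero, zero_add, zero_sub, sub_neg_eq_add, W7, W7', W9, W9', W11, W11', W13, W15, W15', W19, W23, W33, W43, W43', W65, W67, W71, W73, W73', W75, W79, W89, W95, W101, W117, W119, W119', W129, W129', W135, W137, W137', W141, W145, W147, W149, W169, W169', W195, W195', W197, W197', W199, W207, W207', W211, W211', W221, W241, W267, W269, C1, D1, C3, D3, C5, D5] at r29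
  have r30 := X.rel hI hS (X.f5 hI J9 I119 (X.z d57)) (X.f3 hI I119 I5 I271 (X.z d133)) (X.f1 hI J15 g392) (X.f3 hI I119 J7 I273 (X.z d134)) (X.f1 hI I5 (X.z d1)) g5 (X.z d3)
  replace r30 := congrArg (fun t => X.act q1 (X.act q3 (X.act q5 (X.act q3' (X.act q1' t))))) r30
  simp only [X.act_add, X.act_sub, X.act_neg, X.act_zero, neg_neg, neg_zero, sub_zero, add_zero, zero_add, zero_sub, sub_neg_eq_add, W7, W7', W9, W9', W11, W11', W13, W15, W15', W19, W23, W33, W43, W43', W65, W67, W71, W73, W73', W75, W79, W89, W95, W101, W117, W119, W119', W129, W129', W135, W137, W137', W141, W145, W147, W149, W169, W169', W195, W195', W197, W197', W199, W207, W207', W211, W211', W221, W241, W267, W269, C1, D1, C3, D3, C5, D5] at r30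
  have r31 := X.rel hI hS (X.f4 hI I11 I15 (X.z d4)) (X.f4 hI J99 J149 g187) (X.f3 hI J99 I15 J95 g427) (X.f4 hI J95 J137 g150) (X.f2 hI I11 (X.z d72)) (X.f1 hI I15 g151) (X.f2 hI I11 (X.z d66))
  replace r31 := congrArg (fun t => X.act q5 t) r31
  simp only [X.act_add, X.act_sub, X.act_neg, X.act_zero, neg_neg, neg_zero, sub_zero, add_zero, zero_add, zero_sub, sub_neg_eq_add, W7, W7', W9, W9', W11, W11', W13, W15, W15', W19, W23, W33, W43, W43', W65, W67, W71, W73, W73', W75, W79, W89, W95, W101, W117, W119, W119', W129, W129', W135, W137, W137', W141, W145, W147, W149, W169, W169', W195, W195', W197, W197', W199, W207, W207', W211, W211', W221, W241, W267, W269, C1, D1, C3, D3, C5, D5] at r31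
  have r32 := X.rel hI hS (X.f1 hI I15 g5) (X.z d47) (X.f3 hI J99 I15 J95 g427) (X.z d45) (X.z d9) (X.f1 hI I15 g151) (X.z d7)
  replace r32 := congrArg (fun t => X.act q5 t) r32
  simp only [X.act_add, X.act_sub, X.act_neg, X.act_zero, neg_neg, neg_zero, sub_zero, add_zero, zero_add, zero_sub, sub_neg_eq_add, W7, W7', W9, W9', W11, W11', W13, W15, W15', W19, W23, W33, W43, W43', W65, W67, W71, W73, W73', W75, W79, W89, W95, W101, W117, W119, W119', W129, W129', W135, W137, W137', W141, W145, W147, W149, W169, W169', W195, W195', W197, W197', W199, W207, W207', W211, W211', W221, W241, W267, W269, C1, D1, C3, D3, C5, D5] at r32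
  have r33 := X.rel hI hS (X.f1 hI I15 (X.z d55)) (X.z d130) (X.f1 hI I15 g298) (X.z d129) (X.f2 hI I3 (X.z d0)) (X.f4 hI I11 I15 (X.z d4)) (X.f3 hI I3 I5 I11 (X.z d2))
  replace r33 := congrArg (fun t => X.act q5 t) r33
  simp only [X.act_add, X.act_sub, X.act_neg, X.act_zero, neg_neg, neg_zero, sub_zero, add_zero, zero_add, zero_sub, sub_neg_eq_add, W7, W7', W9, W9', W11, W11', W13, W15, W15', W19, W23, W33, W43, W43', W65, W67, W71, W73, W73', W75, W79, W89, W95, W101, W117, W119, W119', W129, W129', W135, W137, W137', W141, W145, W147, W149, W169, W169', W195, W195', W197, W197', W199, W207, W207', W211, W211', W221, W241, W267, W269, C1, D1, C3, D3, C5, D5] at r33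
  have r34 := X.rel hI hS (X.f1 hI I15 (X.z d56)) (X.z d132) (X.f5 hI J267 J269 g379) (X.z d131) (X.z d3) (X.f1 hI I15 g5) (X.f1 hI I5 (X.z d1))
  replace r34 := congrArg (fun t => X.act q1 (X.act q3 (X.act q5 (X.act q5 t)))) r34
  simp only [X.act_add, X.act_sub, X.act_neg, X.act_zero, neg_neg, neg_zero, sub_zero, add_zero, zero_add, zero_sub, sub_neg_eq_add, W7, W7', W9, W9', W11, W11', W13, W15, W15', W19, W23, W33, W43, W43', W65, W67, W71, W73, W73', W75, W79, W89, W95, W101, W117, W119, W119', W129, W129', W135, W137, W137', W141, W145, W147, W149, W169, W169', W195, W195', W197, W197', W199, W207, W207', W211, W211', W221, W241, W267, W269, C1, D1, C3, D3, C5, D5] at r34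
  have r35 := X.rel hI hS (X.f1 hI I15 (X.z d56)) (X.f2 hI J117 g190) (X.f1 hI I15 g5) (X.f2 hI J117 g158) (X.f4 hI I273 J207 g454) g392 (X.f2 hI J9 g393)
  replace r35 := congrArg (fun t => X.act q1 (X.act q3 (X.act q5 (X.act q5 t)))) r35
  simp only [X.act_add, X.act_sub, X.act_neg, X.act_zero, neg_neg, neg_zero, sub_zero, add_zero, zero_add, zero_sub, sub_neg_eq_add, W7, W7', W9, W9', W11, W11', W13, W15, W15', W19, W23, W33, W43, W43', W65, W67, W71, W73, W73', W75, W79, W89, W95, W101, W117, W119, W119', W129, W129', W135, W137, W137', W141, W145, W147, W149, W169, W169', W195, W195', W197, W197', W199, W207, W207', W211, W211', W221, W241, W267, W269, C1, D1, C3, D3, C5, D5] at r35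
  have r36 := X.rel hI hS (X.f1 hI I15 g445) (X.f2 hI I113 g191) (X.f4 hI I11 I15 (X.z d4)) (X.f2 hI I113 g153) (X.f2 hI I239 g450) g314 (X.f2 hI I239 g449)
  replace r36 := congrArg (fun t => X.act q5 t) r36
  simp only [X.act_add, X.act_sub, X.act_neg, X.act_zero, neg_neg, neg_zero, sub_zero, add_zero, zero_add, zero_sub, sub_neg_eq_add, W7, W7', W9, W9', W11, W11', W13, W15, W15', W19, W23, W33, W43, W43', W65, W67, W71, W73, W73', W75, W79, W89, W95, W101, W117, W119, W119', W129, W129', W135, W137, W137', W141, W145, W147, W149, W169, W169', W195, W195', W197, W197', W199, W207, W207', W211, W211', W221, W241, W267, W269, C1, D1, C3, D3, C5, D5] at r36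
  have r37 := X.rel hI hS (X.f3 hI J241 I15 J117 g451) (X.f5 hI J269 J241 g456) (X.f5 hI J267 J269 g379) (X.f5 hI J267 J241 g455) (X.f2 hI J117 g190) (X.f1 hI I15 g5) (X.f2 hI J117 g158)
  replace r37 := congrArg (fun t => X.act q1 (X.act q3 (X.act q5 (X.act q5 t)))) r37
  simp only [X.act_add, X.act_sub, X.act_neg, X.act_zero, neg_neg, neg_zero, sub_zero, add_zero, zero_add, zero_sub, sub_neg_eq_add, W7, W7', W9, W9', W11, W11', W13, W15, W15', W19, W23, W33, W43, W43', W65, W67, W71, W73, W73', W75, W79, W89, W95, W101, W117, W119, W119', W129, W129', W135, W137, W137', W141, W145, W147, W149, W169, W169', W195, W195', W197, W197', W199, W207, W207', W211, W211', W221, W241, W267, W269, C1, D1, C3, D3, C5, D5] at r37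
  have r38 := X.rel hI hS (X.f2 hI I3 (X.z d19)) (X.f3 hI I3 I5 I11 (X.z d2)) (X.z d86) (X.f2 hI I3 g300) (X.f1 hI I5 (X.z d1)) (X.f2 hI J1 g172) g297
  replace r38 := congrArg (fun t => X.act q1 (X.act q3 (X.act q5 (X.act q3' (X.act q1' (X.act q5' t)))))) r38
  simp only [X.act_add, X.act_sub, X.act_neg, X.act_zero, neg_neg, neg_zero, sub_zero, add_zero, zero_add, zero_sub, sub_neg_eq_add, W7, W7', W9, W9', W11, W11', W13, W15, W15', W19, W23, W33, W43, W43', W65, W67, W71, W73, W73', W75, W79, W89, W95, W101, W117, W119, W119', W129, W129', W135, W137, W137', W141, W145, W147, W149, W169, W169', W195, W195', W197, W197', W199, W207, W207', W211, W211', W221, W241, W267, W269, C1, D1, C3, D3, C5, D5] at r38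
  have r39 := X.rel hI hS (X.f2 hI I3 (X.z d19)) (X.f2 hI I3 g315) (X.f1 hI J43 g156) (X.f2 hI I3 (X.z d0)) (X.f2 hI J9 g475) (X.f1 hI J43 g422) (X.z d3)
  simp only [X.act_add, X.act_sub, X.act_neg, X.act_zero, neg_neg, neg_zero, sub_zero, add_zero, zero_add, zero_sub, sub_neg_eq_add, W7, W7', W9, W9', W11, W11', W13, W15, W15', W19, W23, W33, W43, W43', W65, W67, W71, W73, W73', W75, W79, W89, W95, W101, W117, W119, W119', W129, W129', W135, W137, W137', W141, W145, W147, W149, W169, W169', W195, W195', W197, W197', W199, W207, W207', W211, W211', W221, W241, W267, W269, C1, D1, C3, D3, C5, D5] at r39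
  have r40 := X.rel hI hS (X.f2 hI I3 (X.z d62)) (X.f3 hI I3 J5 I33 (X.z d14)) g460 (X.f2 hI I3 g446) (X.f1 hI J5 (X.z d7)) (X.f4 hI J143 J129 g148) g164
  replace r40 := congrArg (fun t => X.act q5 t) r40
  simp only [X.act_add, X.act_sub, X.act_neg, X.act_zero, neg_neg, neg_zero, sub_zero, add_zero, zero_add, zero_sub, sub_neg_eq_add, W7, W7', W9, W9', W11, W11', W13, W15, W15', W19, W23, W33, W43, W43', W65, W67, W71, W73, W73', W75, W79, W89, W95, W101, W117, W119, W119', W129, W129', W135, W137, W137', W141, W145, W147, W149, W169, W169', W195, W195', W197, W197', W199, W207, W207', W211, W211', W221, W241, W267, W269, C1, D1, C3, D3, C5, D5] at r40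
  have r41 := X.rel hI hS (X.f4 hI I3 I129 (X.z d62)) (X.z d63) (X.f5 hI J135 J131 g168) (X.z d65) (X.f3 hI I3 I5 I11 (X.z d2)) (X.f4 hI I37 I129 g160) (X.f3 hI I3 I7 I37 (X.z d16))
  replace r41 := congrArg (fun t => X.act q1 (X.act q3 t)) r41
  simp only [X.act_add, X.act_sub, X.act_neg, X.act_zero, neg_neg, neg_zero, sub_zero, add_zero, zero_add, zero_sub, sub_neg_eq_add, W7, W7', W9, W9', W11, W11', W13, W15, W15', W19, W23, W33, W43, W43', W65, W67, W71, W73, W73', W75, W79, W89, W95, W101, W117, W119, W119', W129, W129', W135, W137, W137', W141, W145, W147, W149, W169, W169', W195, W195', W197, W197', W199, W207, W207', W211, W211', W221, W241, W267, W269, C1, D1, C3, D3, C5, D5] at r41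
  have r42 := X.rel hI hS (X.f4 hI I71 I129 g154) (X.z d7) (X.f4 hI I3 I129 (X.z d62)) (X.f4 hI I3 I7 (X.z d0)) g174 (X.f4 hI I197 I129 g396) (X.f3 hI I71 I7 I197 g384)
  replace r42 := congrArg (fun t => X.act q1 (X.act q3 t)) r42
  simp only [X.act_add, X.act_sub, X.act_neg, X.act_zero, neg_neg, neg_zero, sub_zero, add_zero, zero_add, zero_sub, sub_neg_eq_add, W7, W7', W9, W9', W11, W11', W13, W15, W15', W19, W23, W33, W43, W43', W65, W67, W71, W73, W73', W75, W79, W89, W95, W101, W117, W119, W119', W129, W129', W135, W137, W137', W141, W145, W147, W149, W169, W169', W195, W195', W197, W197', W199, W207, W207', W211, W211', W221, W241, W267, W269, C1, D1, C3, D3, C5, D5] at r42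
  have r43 := X.rel hI hS (X.f2 hI I113 g153) (X.f1 hI I15 g445) (X.f2 hI I239 g449) (X.f3 hI I113 I5 I259 (X.z d127)) (X.f3 hI I11 I15 I123 (X.z d59)) (X.f2 hI I123 g161) (X.f3 hI I11 I5 I65 (X.z d30))
  replace r43 := congrArg (fun t => X.act q5 t) r43
  simp only [X.act_add, X.act_sub, X.act_neg, X.act_zero, neg_neg, neg_zero, sub_zero, add_zero, zero_add, zero_sub, sub_neg_eq_add, W7, W7', W9, W9', W11, W11', W13, W15, W15', W19, W23, W33, W43, W43', W65, W67, W71, W73, W73', W75, W79, W89, W95, W101, W117, W119, W119', W129, W129', W135, W137, W137', W141, W145, W147, W149, W169, W169', W195, W195', W197, W197', W199, W207, W207', W211, W211', W221, W241, W267, W269, C1, D1, C3, D3, C5, D5] at r43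
  have r44 := X.rel hI hS (X.f4 hI I11 I137 (X.z d66)) (X.z d63) (X.f5 hI I211 J131 g170) (X.f1 hI I15 g159) (X.f3 hI I11 I5 I65 (X.z d30)) (X.f4 hI I123 I137 g161) (X.f3 hI I11 I15 I123 (X.z d59))
  replace r44 := congrArg (fun t => X.act q1 (X.act q3 (X.act q5 t))) r44
  simp only [X.act_add, X.act_sub, X.act_neg, X.act_zero, neg_neg, neg_zero, sub_zero, add_zero, zero_add, zero_sub, sub_neg_eq_add, W7, W7', W9, W9', W11, W11', W13, W15, W15', W19, W23, W33, W43, W43', W65, W67, W71, W73, W73', W75, W79, W89, W95, W101, W117, W119, W119', W129, W129', W135, W137, W137', W141, W145, W147, W149, W169, W169', W195, W195', W197, W197', W199, W207, W207', W211, W211', W221, W241, W267, W269, C1, D1, C3, D3, C5, D5] at r44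
  have r45 := X.rel hI hS (X.f2 hI J9 (X.z d71)) (X.z d28) (X.f2 hI J61 g195) (X.z d3) (X.z d68) (X.f3 hI J141 J147 J145 g199) (X.z d70)
  replace r45 := congrArg (fun t => X.act q1 (X.act q3 (X.act q5 (X.act q3' (X.act q1' t))))) r45
  simp only [X.act_add, X.act_sub, X.act_neg, X.act_zero, neg_neg, neg_zero, sub_zero, add_zero, zero_add, zero_sub, sub_neg_eq_add, W7, W7', W9, W9', W11, W11', W13, W15, W15', W19, W23, W33, W43, W43', W65, W67, W71, W73, W73', W75, W79, W89, W95, W101, W117, W119, W119', W129, W129', W135, W137, W137', W141, W145, W147, W149, W169, W169', W195, W195', W197, W197', W199, W207, W207', W211, W211', W221, W241, W267, W269, C1, D1, C3, D3, C5, D5] at r45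
  have r46 := X.rel hI hS (X.f2 hI J9 (X.z d71)) (X.f3 hI J9 I7 I71 (X.z d33)) g467 (X.f4 hI I273 J207 g454) (X.f1 hI I7 (X.z d9)) g155 g198
  replace r46 := congrArg (fun t => X.act q1 (X.act q3 (X.act q5 (X.act q3' (X.act q1' t))))) r46
  simp only [X.act_add, X.act_sub, X.act_neg, X.act_zero, neg_neg, neg_zero, sub_zero, add_zero, zero_add, zero_sub, sub_neg_eq_add, W7, W7', W9, W9', W11, W11', W13, W15, W15', W19, W23, W33, W43, W43', W65, W67, W71, W73, W73', W75, W79, W89, W95, W101, W117, W119, W119', W129, W129', W135, W137, W137', W141, W145, W147, W149, W169, W169', W195, W195', W197, W197', W199, W207, W207', W211, W211', W221, W241, W267, W269, C1, D1, C3, D3, C5, D5] at r46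
  have r47 := X.rel hI hS (X.f4 hI J1 J147 g171) (X.f3 hI I33 J5 I167 (X.z d81)) (X.f2 hI I167 g305) g203 (X.z d1) (X.f2 hI J9 (X.z d71)) (X.z d9)
  replace r47 := congrArg (fun t => X.act q1 (X.act q3 (X.act q5 (X.act q3' (X.act q1' t))))) r47
  simp only [X.act_add, X.act_sub, X.act_neg, X.act_zero, neg_neg, neg_zero, sub_zero, add_zero, zero_add, zero_sub, sub_neg_eq_add, W7, W7', W9, W9', W11, W11', W13, W15, W15', W19, W23, W33, W43, W43', W65, W67, W71, W73, W73', W75, W79, W89, W95, W101, W117, W119, W119', W129, W129', W135, W137, W137', W141, W145, W147, W149, W169, W169', W195, W195', W197, W197', W199, W207, W207', W211, W211', W221, W241, W267, W269, C1, D1, C3, D3, C5, D5] at r47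
  have r48 := X.rel hI hS (X.f2 hI I113 g191) (X.f1 hI I15 g445) (X.f2 hI I239 g450) (X.f3 hI I113 J7 I261 (X.z d128)) (X.f4 hI I11 I15 (X.z d4)) (X.f2 hI I11 (X.z d72)) (X.z d9)
  replace r48 := congrArg (fun t => X.act q3' (X.act q1' t)) r48
  simp only [X.act_add, X.act_sub, X.act_neg, X.act_zero, neg_neg, neg_zero, sub_zero, add_zero, zero_add, zero_sub, sub_neg_eq_add, W7, W7', W9, W9', W11, W11', W13, W15, W15', W19, W23, W33, W43, W43', W65, W67, W71, W73, W73', W75, W79, W89, W95, W101, W117, W119, W119', W129, W129', W135, W137, W137', W141, W145, W147, W149, W169, W169', W195, W195', W197, W197', W199, W207, W207', W211, W211', W221, W241, W267, W269, C1, D1, C3, D3, C5, D5] at r48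
  have r49 := X.rel hI hS (X.f4 hI I33 I169 (X.z d82)) (X.f2 hI J9 g176) (X.f1 hI I169 g307) (X.z d28) (X.f2 hI I33 g303) (X.f4 hI I167 I169 g306) (X.f3 hI I33 J5 I167 (X.z d81))
  replace r49 := congrArg (fun t => X.act q1 (X.act q3 t)) r49
  simp only [X.act_add, X.act_sub, X.act_neg, X.act_zero, neg_neg, neg_zero, sub_zero, add_zero, zero_add, zero_sub, sub_neg_eq_add, W7, W7', W9, W9', W11, W11', W13, W15, W15', W19, W23, W33, W43, W43', W65, W67, W71, W73, W73', W75, W79, W89, W95, W101, W117, W119, W119', W129, W129', W135, W137, W137', W141, W145, W147, W149, W169, W169', W195, W195', W197, W197', W199, W207, W207', W211, W211', W221, W241, W267, W269, C1, D1, C3, D3, C5, D5] at r49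
  have r50 := X.rel hI hS (X.f2 hI J117 g158) (X.f5 hI J241 J117 g451) (X.f5 hI J267 J241 g455) (X.z d131) g5 (X.f1 hI I195 g152) (X.z d7)
  replace r50 := congrArg (fun t => X.act q1 (X.act q3 (X.act q5 (X.act q5 t)))) r50
  simp only [X.act_add, X.act_sub, X.act_neg, X.act_zero, neg_neg, neg_zero, sub_zero, add_zero, zero_add, zero_sub, sub_neg_eq_add, W7, W7', W9, W9', W11, W11', W13, W15, W15', W19, W23, W33, W43, W43', W65, W67, W71, W73, W73', W75, W79, W89, W95, W101, W117, W119, W119', W129, W129', W135, W137, W137', W141, W145, W147, W149, W169, W169', W195, W195', W197, W197', W199, W207, W207', W211, W211', W221, W241, W267, W269, C1, D1, C3, D3, C5, D5] at r50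
  have r51 := X.rel hI hS (X.f2 hI I71 (X.z d97)) (X.f3 hI I71 I7 I197 g384) (X.f2 hI I197 g397) (X.f1 hI I43 g341) (X.f3 hI I3 I7 I37 (X.z d16)) (X.f3 hI I37 J199 I73 g312) (X.f2 hI I3 g204)
  replace r51 := congrArg (fun t => X.act q5 (X.act q1 (X.act q3 t))) r51
  simp only [X.act_add, X.act_sub, X.act_neg, X.act_zero, neg_neg, neg_zero, sub_zero, add_zero, zero_add, zero_sub, sub_neg_eq_add, W7, W7', W9, W9', W11, W11', W13, W15, W15', W19, W23, W33, W43, W43', W65, W67, W71, W73, W73', W75, W79, W89, W95, W101, W117, W119, W119', W129, W129', W135, W137, W137', W141, W145, W147, W149, W169, W169', W195, W195', W197, W197', W199, W207, W207', W211, W211', W221, W241, W267, W269, C1, D1, C3, D3, C5, D5] at r51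
  have r52 := X.rel hI hS (X.f1 hI J207 g189) g394 (X.f1 hI J207 g430) (X.z d47) (X.f1 hI J15 g194) (X.f3 hI J221 J207 J145 g201) (X.z d70)
  replace r52 := congrArg (fun t => X.act q1 (X.act q3 (X.act q5 (X.act q3' (X.act q1' t))))) r52
  simp only [X.act_add, X.act_sub, X.act_neg, X.act_zero, neg_neg, neg_zero, sub_zero, add_zero, zero_add, zero_sub, sub_neg_eq_add, W7, W7', W9, W9', W11, W11', W13, W15, W15', W19, W23, W33, W43, W43', W65, W67, W71, W73, W73', W75, W79, W89, W95, W101, W117, W119, W119', W129, W129', W135, W137, W137', W141, W145, W147, W149, W169, W169', W195, W195', W197, W197', W199, W207, W207', W211, W211', W221, W241, W267, W269, C1, D1, C3, D3, C5, D5] at r52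
  have r53 := X.rel hI hS (X.f4 hI J117 I207 g190) (X.z d47) g430 g394 (X.z d132) (X.f3 hI J269 I207 J241 g456) (X.f5 hI J241 J117 g451)
  simp only [X.act_add, X.act_sub, X.act_neg, X.act_zero, neg_neg, neg_zero, sub_zero, add_zero, zero_add, zero_sub, sub_neg_eq_add, W7, W7', W9, W9', W11, W11', W13, W15, W15', W19, W23, W33, W43, W43', W65, W67, W71, W73, W73', W75, W79, W89, W95, W101, W117, W119, W119', W129, W129', W135, W137, W137', W141, W145, W147, W149, W169, W169', W195, W195', W197, W197', W199, W207, W207', W211, W211', W221, W241, W267, W269, C1, D1, C3, D3, C5, D5] at r53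
  have key : c5 = 0 := by
    linear_combination (norm := module) -(- r0 + r1 + r2 + r3 - r4 - r5 + r6 + r7 - r8 + r9 + r10 - r11 - r12 - r13 - r14 + r15 + r16 + r17 + r18 - r19 + r20 + r21 - r22 + r23 - r24 - r25 + r26 - r27 - r28 + r29 - r30 - r31 + r32 - r33 - r34 + r35 + r36 + r37 + r38 + r39 - r40 + r41 - r42 - r43 - r44 + r45 - r46 - r47 + r48 + r49 + r50 + r51 - r52 - r53)
  rw [key, X.sm_zero] at g5
  rw [d2, d4, d0, d1, d3, g5]

end LoopStr

end Pool.Agent.V7H71.UF
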