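import Pool.Agent.V7H71.SufIP.Cert

/-!
# Loops with Moufang quotient by a nuclear normal subgroup
-/

namespace Pool.Agent.V7H71.UF

universe u

namespace LoopStr

variable {Q : Type*} {L : LoopStr Q}

/-! ### nuclear elements -/

namespace Nuclear

variable {a b : Q}

theorem l (ha : L.Nuclear a) (x y : Q) : L.mul (L.mul a x) y = L.mul a (L.mul x y) := ha.1 x y

theorem m (ha : L.Nuclear a) (x y : Q) : L.mul (L.mul x a) y = L.mul x (L.mul a y) := ha.2.1 x y

theorem r (ha : L.Nuclear a) (x y : Q) : L.mul (L.mul x y) a = L.mul x (L.mul y a) := ha.2.2 x y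

end Nuclear

/-- The conjugate `(x a) / x`. -/
def conj (L : LoopStr Q) (x a : Q) : Q := L.rdiv (L.mul x a) x

theorem conj_mul (x a : Q) : L.mul (L.conj x a) x = L.mul x a := L.rdiv_mul _ _

theorem conj_eq {x a b : Q} (h : L.mul x a = L.mul b x) : L.conj x a = b := by
  unfold conj
  rw [h, L.mul_rdiv]

/-- A normal abelian subgroup contained in the nucleus. -/
structure NSub (L : LoopStr Q) (S : Q → Prop) : Prop where
  one : S L.one
  mul : ∀ {a b}, S a → S b → S (L.mul a b)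
  inv : ∀ {a}, S a → S (L.ldiv a L.one)
  nuc : ∀ {a}, S a → L.Nuclear a
  norm : ∀ {a} (x), S a → S (L.conj x a)
  norm' : ∀ {a} (x), S a → S (L.ldiv x (L.mul a x))
  comm : ∀ {a b}, S a → S b → L.mul a b = L.mul b a

namespace NSub

variable {S : Q → Prop} (h : NSub L S)
include h

theorem inv_l {a : Q} (ha : S a) : L.mul (L.ldiv a L.one) a = L.one := by
  rw [h.comm (h.inv ha) ha, L.mul_ldiv]

theorem inv_c {a : Q} (ha : S a) (x : Q) : L.mul (L.ldiv a L.one) (L.mul a x) = x := by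
  rw [← (h.nuc (h.inv ha)).l, h.inv_l ha, L.one_mul]

theorem mul_conj {b : Q} (hb : S b) (x y : Q) :
    L.mul x (L.mul b y) = L.mul (L.conj x b) (L.mul x y) := by
  rw [← (h.nuc hb).m, ← conj_mul x b, (h.nuc (h.norm x hb)).l]

theorem conj_mul2 {a b : Q} (ha : S a) (x : Q) :
    L.conj x (L.mul a b) = L.mul (L.conj x a) (L.conj x b) := by
  apply conj_eq
  rw [(h.nuc (h.norm x ha)).l, conj_mul, h.mul_conj ha]

theorem conj_comp {c : Q} (hc : S c) (x y : Q) :
    L.conj (L.mul x y) c = L.conj x (L.conj y c) := by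
  apply conj_eq
  rw [(h.nuc hc).r, ← conj_mul y c, h.mul_conj (h.norm y hc)]

theorem conj_sm {d c : Q} (hd : S d) (hc : S c) (x : Q) : L.conj (L.mul d x) c = L.conj x c := by
  apply conj_eq
  rw [(h.nuc hd).l, ← conj_mul x c, ← (h.nuc hd).l, h.comm hd (h.norm x hc),
    (h.nuc (h.norm x hc)).l]

omit h in
theorem conj_ldiv {c : Q} (x : Q) : L.conj x (L.ldiv x (L.mul c x)) = c :=
  conj_eq (L.mul_ldiv _ _)

/-- The setoid of cosets. -/
def setoid : Setoid Q where
  r x y := ∃ a, S a ∧ x = L.mul a y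
  iseqv := by
    refine ⟨fun x => ⟨L.one, h.one, (L.one_mul x).symm⟩, ?_, ?_⟩
    · rintro x y ⟨a, ha, rfl⟩
      exact ⟨_, h.inv ha, (h.inv_c ha y).symm⟩
    · rintro x y z ⟨a, ha, rfl⟩ ⟨b, hb, rfl⟩
      exact ⟨_, h.mul ha hb, ((h.nuc ha).l _ _).symm⟩

theorem s_mul {x x' y y' : Q} (h1 : h.setoid.r x x') (h2 : h.setoid.r y y') :
    h.setoid.r (L.mul x y) (L.mul x' y') := by
  obtain ⟨a, ha, rfl⟩ := h1
  obtain ⟨b, hb, rfl⟩ := h2
  refine ⟨L.mul a (L.conj x' b), h.mul ha (h.norm _ hb), ?_⟩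
  rw [(h.nuc ha).l, (h.nuc ha).l, h.mul_conj hb]

theorem s_ldiv {x x' y y' : Q} (h1 : h.setoid.r x x') (h2 : h.setoid.r y y') :
    h.setoid.r (L.ldiv x y) (L.ldiv x' y') := by
  obtain ⟨a, ha, rfl⟩ := h1
  obtain ⟨b, hb, rfl⟩ := h2
  have hc : S (L.mul (L.ldiv a L.one) b) := h.mul (h.inv ha) hb
  refine ⟨L.ldiv x' (L.mul (L.mul (L.ldiv a L.one) b) x'), h.norm' x' hc, ?_⟩
  apply ldiv_eq
  rw [(h.nuc ha).l, h.mul_conj (h.norm' x' hc), conj_ldiv, L.mul_ldiv,
    (h.nuc (h.inv ha)).l, ← (h.nuc ha).l, L.mul_ldiv, L.one_mul]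

theorem s_rdiv {x x' y y' : Q} (h1 : h.setoid.r x x') (h2 : h.setoid.r y y') :
    h.setoid.r (L.rdiv x y) (L.rdiv x' y') := by
  obtain ⟨b, hb, rfl⟩ := h1
  obtain ⟨a, ha, rfl⟩ := h2
  have hc : S (L.conj (L.rdiv x' y') a) := h.norm _ ha
  refine ⟨L.mul b (L.ldiv (L.conj (L.rdiv x' y') a) L.one), h.mul hb (h.inv hc), ?_⟩
  apply rdiv_eq
  rw [(h.nuc hb).l, (h.nuc hb).l, h.mul_conj ha, h.conj_sm (h.inv hc) ha,
    (h.nuc (h.inv hc)).l, L.rdiv_mul, ← (h.nuc hc).l, L.mul_ldiv, L.one_mul]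

/-- The quotient loop. -/
def quot : LoopStr (Quotient h.setoid) where
  mul := Quotient.map₂ L.mul (fun _ _ h1 _ _ h2 => h.s_mul h1 h2)
  ldiv := Quotient.map₂ L.ldiv (fun _ _ h1 _ _ h2 => h.s_ldiv h1 h2)
  rdiv := Quotient.map₂ L.rdiv (fun _ _ h1 _ _ h2 => h.s_rdiv h1 h2)
  one := Quotient.mk h.setoid L.one
  mul_ldiv a b := by
    induction a using Quotient.inductionOn; induction b using Quotient.inductionOn
    exact congrArg (Quotient.mk h.setoid) (L.mul_ldiv _ _)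
  ldiv_mul a b := by
    induction a using Quotient.inductionOn; induction b using Quotient.inductionOn
    exact congrArg (Quotient.mk h.setoid) (L.ldiv_mul _ _)
  rdiv_mul a b := by
    induction a using Quotient.inductionOn; induction b using Quotient.inductionOn
    exact congrArg (Quotient.mk h.setoid) (L.rdiv_mul _ _)
  mul_rdiv a b := by
    induction a using Quotient.inductionOn; induction b using Quotient.inductionOn
    exact congrArg (Quotient.mk h.setoid) (L.mul_rdiv _ _)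
  one_mul a := by
    induction a using Quotient.inductionOn
    exact congrArg (Quotient.mk h.setoid) (L.one_mul _)
  mul_one a := by
    induction a using Quotient.inductionOn
    exact congrArg (Quotient.mk h.setoid) (L.mul_one _)

/-- The abelian group structure on a normal abelian nuclear subgroup. -/
@[reducible] def group : AddCommGroup {a : Q // S a} :=
  letI : Zero {a : Q // S a} := ⟨⟨L.one, h.one⟩⟩
  letI : Add {a : Q // S a} := ⟨fun a b => ⟨L.mul a.1 b.1, h.mul a.2 b.2⟩⟩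
  letI : Neg {a : Q // S a} := ⟨fun a => ⟨L.ldiv a.1 L.one, h.inv a.2⟩⟩
  letI : AddGroup {a : Q // S a} := AddGroup.ofLeftAxioms
    (fun a b c => Subtype.ext ((h.nuc a.2).l b.1 c.1))
    (fun _ => Subtype.ext (L.one_mul _))
    (fun a => Subtype.ext (h.inv_l a.2))
  { add_comm := fun a b => Subtype.ext (h.comm a.2 b.2) }

/-- The extension of the quotient loop. -/
def ext : @NExt Q (Quotient h.setoid) L h.quot {a : Q // S a} h.group :=
  letI := h.group
  { pr := Quotient.mk h.setoid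
    sm := fun a x => L.mul a.1 x
    act := fun x a => ⟨L.conj x a.1, h.norm x a.2⟩
    sm_zero := fun x => L.one_mul x
    sm_add := fun c d x => (h.nuc c.2).l d.1 x
    sm_mul := fun c x y => (h.nuc c.2).l x y
    mul_sm := fun c x y => h.mul_conj c.2 x y
    act_add := fun x c d => Subtype.ext (h.conj_mul2 c.2 x)
    act_mul := fun x y c => Subtype.ext (h.conj_comp c.2 x y)
    act_sm := fun x d c => Subtype.ext (h.conj_sm d.2 c.2 x)
    sm_inj := fun {x c d} e => Subtype.ext (rcancel e)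
    pr_mul := fun x y => rfl
    pr_eq := fun {x y} e => by
      obtain ⟨a, ha, e⟩ : h.setoid.r x y := Quotient.exact (s := h.setoid) e
      exact ⟨⟨a, ha⟩, e⟩ }

/-- The lifting theorem for abelian nuclear normal subgroups. -/
theorem moufang (hI : L.IP) (hS : L.SUF)
    (hm : ∀ x y z, ∃ a, S a ∧ L.mul (L.mul x (L.mul y z)) x =
      L.mul a (L.mul (L.mul x y) (L.mul z x))) : L.Moufang := by
  let _ := h.group
  refine h.ext.moufang hI hS ?_
  intro x y z
  induction x using Quotient.inductionOn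
  induction y using Quotient.inductionOn
  induction z using Quotient.inductionOn
  exact Quotient.sound (s := h.setoid) (hm _ _ _)

end NSub

/-! ### homomorphisms with nuclear kernel -/

variable {N : Type*} {M : LoopStr N} {φ : Q → N}

/-- The map `φ` is a homomorphism of loops. -/
def Hom (L : LoopStr Q) (M : LoopStr N) (φ : Q → N) : Prop :=
  ∀ x y, φ (L.mul x y) = M.mul (φ x) (φ y)

namespace Hom

variable (hφ : Hom L M φ)
include hφ

theorem one : φ L.one = M.one := by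
  apply rcancel (L := M) (a := φ L.one)
  rw [← hφ, L.one_mul, M.one_mul]

theorem ldiv (x y : Q) : φ (L.ldiv x y) = M.ldiv (φ x) (φ y) := by
  refine (ldiv_eq ?_).symm
  rw [← hφ, L.mul_ldiv]

theorem rdiv (x y : Q) : φ (L.rdiv x y) = M.rdiv (φ x) (φ y) := by
  refine (rdiv_eq ?_).symm
  rw [← hφ, L.rdiv_mul]

theorem ker_conj {k : Q} (hk : φ k = M.one) (x : Q) : φ (L.conj x k) = M.one := by
  unfold conj
  rw [hφ.rdiv, hφ, hk, M.mul_one]
  exact rdiv_eq (M.one_mul _)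

theorem ker_conj' {k : Q} (hk : φ k = M.one) (x : Q) : φ (L.ldiv x (L.mul k x)) = M.one := by
  rw [hφ.ldiv, hφ, hk, M.one_mul]
  exact ldiv_eq (M.mul_one _)

theorem ker_mul {a b : Q} (ha : φ a = M.one) (hb : φ b = M.one) : φ (L.mul a b) = M.one := by
  rw [hφ, ha, hb, M.one_mul]

theorem ker_inv {a : Q} (ha : φ a = M.one) : φ (L.ldiv a L.one) = M.one := by
  rw [hφ.ldiv, ha, hφ.one]
  exact ldiv_eq (M.one_mul _)

/-- The center of a nuclear kernel is a normal abelian nuclear subgroup. -/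
theorem nsub (hK : ∀ k, φ k = M.one → L.Nuclear k) :
    NSub L (fun a => φ a = M.one ∧ ∀ k, φ k = M.one → L.mul a k = L.mul k a) := by
  refine ⟨⟨hφ.one, fun k _ => by rw [L.one_mul, L.mul_one]⟩, ?_, ?_, fun h => hK _ h.1, ?_, ?_, ?_⟩
  · rintro a b ⟨ha, ha'⟩ ⟨hb, hb'⟩
    refine ⟨hφ.ker_mul ha hb, fun k hk => ?_⟩
    rw [(hK a ha).l, hb' k hk, ← (hK k hk).m, ha' k hk, (hK k hk).l]
  · rintro a ⟨ha, ha'⟩
    have hi := hφ.ker_inv ha
    refine ⟨hi, fun k hk => ?_⟩
    apply lcancel (a := a)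
    have e : L.mul a (L.ldiv a L.one) = L.one := L.mul_ldiv _ _
    rw [← (hK a ha).l, e, L.one_mul, ← (hK a ha).l, ha' k hk, (hK k hk).l, e, L.mul_one]
  · rintro a x ⟨ha, ha'⟩
    have hc := hφ.ker_conj ha x
    refine ⟨hc, fun k hk => ?_⟩
    obtain ⟨k', hk', e⟩ : ∃ k', φ k' = M.one ∧ L.mul x k' = L.mul k x :=
      ⟨_, hφ.ker_conj' hk x, L.mul_ldiv _ _⟩
    apply rcancel (a := x)
    have e1 : L.mul (L.mul (L.conj x a) k) x = L.mul x (L.mul a k') := by
      rw [(hK _ hk).m, ← e, ← (hK _ hk').r, conj_mul, (hK _ hk').r]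
    have e2 : L.mul (L.mul k (L.conj x a)) x = L.mul x (L.mul k' a) := by
      rw [(hK _ hk).l, conj_mul, ← (hK _ hk).l, ← e, (hK _ ha).r]
    rw [e1, e2, ha' _ hk']
  · rintro a x ⟨ha, ha'⟩
    have hc := hφ.ker_conj' ha x
    have e : L.mul x (L.ldiv x (L.mul a x)) = L.mul a x := L.mul_ldiv _ _
    revert hc e
    generalize L.ldiv x (L.mul a x) = a'
    intro hc e
    refine ⟨hc, fun k hk => ?_⟩
    have hk' := hφ.ker_conj hk x
    apply lcancel (a := x)
    rw [← (hK _ hc).m, e, (hK _ ha).l, ← conj_mul x k, ← (hK _ ha).l, ha' _ hk', (hK _ hk').l, ← e,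
      ← (hK _ hc).r, conj_mul, (hK _ hc).r]
  · rintro a b ⟨ha, ha'⟩ ⟨hb, _⟩
    exact ha' b hb

/-- **Main lifting theorem.** A semi-universally flexible loop with the inverse property is
Moufang if it has a homomorphism to a Moufang loop whose kernel is contained in the nucleus. -/
theorem moufang (hK : ∀ k, φ k = M.one → L.Nuclear k) (hI : L.IP) (hS : L.SUF)
    (hM : M.Moufang) : L.Moufang := by
  refine (hφ.nsub hK).moufang hI hS ?_
  intro x y z
  set T := L.mul (L.mul x (L.mul y z)) x with hT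
  set U := L.mul (L.mul x y) (L.mul z x) with hU
  have e0 : T = L.mul (L.rdiv T U) U := (L.rdiv_mul _ _).symm
  refine ⟨L.rdiv T U, ⟨?_, ?_⟩, e0⟩
  · rw [hφ.rdiv]
    apply rdiv_eq
    rw [M.one_mul, hT, hU]
    simp only [hφ _ _]
    rw [hM]
  · intro k hk
    have hm : φ (L.rdiv T U) = M.one := by
      rw [hφ.rdiv]
      apply rdiv_eq
      rw [M.one_mul, hT, hU]
      simp only [hφ _ _]
      rw [hM]
    obtain ⟨k0, hk0, x0⟩ : ∃ k0, φ k0 = M.one ∧ L.mul x k0 = L.mul k x :=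
      ⟨_, hφ.ker_conj' hk x, L.mul_ldiv _ _⟩
    obtain ⟨k1, hk1, y0⟩ : ∃ k1, φ k1 = M.one ∧ L.mul y k1 = L.mul k0 y :=
      ⟨_, hφ.ker_conj' hk0 y, L.mul_ldiv _ _⟩
    obtain ⟨k2, hk2, z0⟩ : ∃ k2, φ k2 = M.one ∧ L.mul z k2 = L.mul k1 z :=
      ⟨_, hφ.ker_conj' hk1 z, L.mul_ldiv _ _⟩
    obtain ⟨k3, hk3, x1⟩ : ∃ k3, φ k3 = M.one ∧ L.mul x k3 = L.mul k2 x :=
      ⟨_, hφ.ker_conj' hk2 x, L.mul_ldiv _ _⟩
    have eT : L.mul k T = L.mul T k3 := by
      rw [hT, ← (hK k hk).l, ← (hK k hk).l, ← x0, (hK k0 hk0).m, ← (hK k0 hk0).l, ← y0,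
        (hK k1 hk1).m, ← z0, ← (hK k2 hk2).r, ← (hK k2 hk2).r, (hK k2 hk2).m, ← x1,
        ← (hK k3 hk3).r]
    have eU : L.mul k U = L.mul U k3 := by
      rw [hU, ← (hK k hk).l, ← (hK k hk).l, ← x0, (hK k0 hk0).m, ← y0, ← (hK k1 hk1).r,
        (hK k1 hk1).m, ← (hK k1 hk1).l, ← z0, (hK k2 hk2).m, ← x1, ← (hK k3 hk3).r,
        ← (hK k3 hk3).r]
    apply rcancel (a := U)
    rw [(hK k hk).m, eU, ← (hK k3 hk3).r, (hK k hk).l]
    rw [← e0, eT]

end Hom

end LoopStr

end Pool.Agent.V7H71.UF
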