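import Pool.Agent.V7H71.SufIP.Nuc

/-!
# UF loops that are Moufang modulo a nuclear normal subgroup have the SAIP
-/

namespace Pool.Agent.V7H71.UF

namespace LoopStr

set_option linter.unusedVariables false
set_option linter.unusedSimpArgs false

variable {Q : Type*} {L : LoopStr Q}

theorem UF.flexible (h : L.UF) (p s : Q) : L.mul p (L.mul s p) = L.mul (L.mul p s) p :=
  U1 h (a := L.one) (b := L.one) (u := p) (w := p) (v := s) (s := L.mul p s) (t := s)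
    (r := L.mul s p) (by rw [L.one_mul, L.mul_one]) (by rw [L.one_mul, L.mul_one])
    (by rw [L.mul_one]) (by rw [L.one_mul])

theorem UF.isym (h : L.UF) {q q' : Q} (i : L.mul q q' = L.one) : L.mul q' q = L.one := by
  have := h.flexible q q'
  rw [i, L.one_mul] at this
  exact lcancel (this.trans (L.mul_one q).symm)

/-- The relation given by a UF closure figure in an extension with abelian nuclear kernel. -/
theorem NExt.urel {N A : Type*} [AddCommGroup A] {M : LoopStr N} (X : NExt L M A) (hU : L.UF)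
    {a a' u s t b w v r z0 z1 z2 z3 z4 : Q} {c0 c1 c2 c3 c4 c5 c6 c7 c8 c9 : A}
    (ia : L.mul a a' = L.one) (ja : L.mul a' a = L.one)
    (h0 : L.mul a w = X.sm c0 z0) (h1 : L.mul u b = X.sm c1 z0) (h2 : L.mul a v = X.sm c2 z1)
    (h3 : L.mul t b = X.sm c3 z1) (h4 : L.mul t w = X.sm c4 z3) (h5 : L.mul a r = X.sm c5 z3)
    (h6 : L.mul u r = X.sm c6 z4) (h7 : L.mul s w = X.sm c7 z4) (h8 : L.mul s b = X.sm c8 z2)
    (h9 : L.mul u v = X.sm c9 z2) :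
    X.act u (X.act a' (c2 - c3 + c4 - c5)) + c6 - c7 + c8 - c9 = 0 := by
  have ib : L.mul b (L.ldiv b L.one) = L.one := L.mul_ldiv _ _
  have eS : ∀ x, X.act s x = X.act u (X.act a' (X.act t x)) := fun x => by
    have k1 : ∀ x, X.act s (X.act b x) = X.act u (X.act a' (X.act t (X.act b x))) := fun x => by
      rw [← X.act_of h8, X.act_of h9, ← X.act_of h3, X.act_of h2, X.act_c ja]
    have := k1 (X.act (L.ldiv b L.one) x)
    rwa [X.act_c ib] at this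
  have eA : L.mul a (X.sm (X.act a' (c1 - c0)) w) = L.mul u b := by
    rw [X.mul_sm, X.act_c ia, h0, h1, ← X.sm_add, sub_add_cancel]
  have eB : L.mul a v = L.mul (X.sm (c2 - c3) t) b := by
    rw [X.sm_mul, h2, h3, ← X.sm_add, sub_add_cancel]
  have eC : L.mul u v = L.mul (X.sm (c9 - c8) s) b := by
    rw [X.sm_mul, h9, h8, ← X.sm_add, sub_add_cancel]
  have eD : L.mul (X.sm (c2 - c3) t) (X.sm (X.act a' (c1 - c0)) w) =
      L.mul a (X.sm (X.act a' (c2 - c3 + c4 - c5 + X.act t (X.act a' (c1 - c0)))) r) := by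
    rw [X.sm_mul, X.mul_sm, X.mul_sm, h4, h5, X.act_c ia, ← X.sm_add, ← X.sm_add, ← X.sm_add]
    congr 1; abel
  have E := U1 hU eA eB eC eD
  rw [X.sm_mul, X.mul_sm, X.mul_sm, h6, h7, ← X.sm_add, ← X.sm_add, ← X.sm_add, X.act_add,
    X.act_add, ← eS] at E
  have E2 := X.sm_inj E
  have : X.act u (X.act a' (c2 - c3 + c4 - c5)) + c6 - c7 + c8 - c9 =
      (X.act u (X.act a' (c2 - c3 + c4 - c5)) + X.act s (X.act a' (c1 - c0)) + c6) -
        (c9 - c8 + (X.act s (X.act a' (c1 - c0)) + c7)) := by abel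
  rw [this, E2]; abel

theorem NExt.saip {N A : Type*} [AddCommGroup A] {M : LoopStr N}
    (X : NExt L M A) (hU : L.UF) (hM : M.Moufang) : L.SAIP := by
  intro q1 q3
  have hIM : M.IP := hM.ip
  obtain ⟨q1', I1⟩ : ∃ q', L.mul q1 q' = L.one := ⟨_, L.mul_ldiv _ _⟩
  have J1 : L.mul q1' q1 = L.one := hU.isym I1
  have i1 := X.pr_inv I1
  have j1 := X.pr_inv J1
  obtain ⟨q3', I3⟩ : ∃ q', L.mul q3 q' = L.one := ⟨_, L.mul_ldiv _ _⟩
  have J3 : L.mul q3' q3 = L.one := hU.isym I3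
  have i3 := X.pr_inv I3
  have j3 := X.pr_inv J3
  have C1 := X.act_c I1
  have D1 := X.act_c J1
  have C3 := X.act_c I3
  have D3 := X.act_c J3
  obtain ⟨q5, d0⟩ : ∃ q, L.mul q1 q3 = q := ⟨_, rfl⟩
  obtain ⟨q5', I5⟩ : ∃ q', L.mul q5 q' = L.one := ⟨_, L.mul_ldiv _ _⟩
  have J5 : L.mul q5' q5 = L.one := hU.isym I5
  have i5 := X.pr_inv I5
  have j5 := X.pr_inv J5
  have h0 := X.pr_of d0
  have W5 : ∀ t, X.act q5 t = X.act q1 (X.act q3 t) := fun t => by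
    simp only [X.act_of' d0, C1, D1, C3, D3]
  have W5' : ∀ t, X.act q5' t = X.act q3' (X.act q1' t) := fun t =>
    X.act_inv_eq J5 (by simp only [W5, C1, D1, C3, D3])
  obtain ⟨q7, d1⟩ : ∃ q, L.mul q5 q1 = q := ⟨_, rfl⟩
  obtain ⟨q7', I7⟩ : ∃ q', L.mul q7 q' = L.one := ⟨_, L.mul_ldiv _ _⟩
  have J7 : L.mul q7' q7 = L.one := hU.isym I7
  have i7 := X.pr_inv I7
  have j7 := X.pr_inv J7
  have h1 := X.pr_of d1
  have W7 : ∀ t, X.act q7 t = X.act q1 (X.act q3 (X.act q1 t)) := fun t => by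
    simp only [X.act_of' d1, W5, C1, D1, C3, D3]
  have W7' : ∀ t, X.act q7' t = X.act q1' (X.act q3' (X.act q1' t)) := fun t =>
    X.act_inv_eq J7 (by simp only [W7, C1, D1, C3, D3])
  obtain ⟨q9, d2⟩ : ∃ q, L.mul q1' q3' = q := ⟨_, rfl⟩
  obtain ⟨q9', I9⟩ : ∃ q', L.mul q9 q' = L.one := ⟨_, L.mul_ldiv _ _⟩
  have J9 : L.mul q9' q9 = L.one := hU.isym I9
  have i9 := X.pr_inv I9
  have j9 := X.pr_inv J9
  have h2 := X.pr_of d2
  have W9 : ∀ t, X.act q9 t = X.act q1' (X.act q3' t) := fun t => by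
    simp only [X.act_of' d2, C1, D1, C3, D3]
  have W9' : ∀ t, X.act q9' t = X.act q3 (X.act q1 t) := fun t =>
    X.act_inv_eq J9 (by simp only [W9, C1, D1, C3, D3])
  have h3 : M.mul (X.pr q1) (X.pr q9') = (X.pr q7) :=
    hM.a0 j1 (M.mul_one _) (hIM.n4 j3 i9 h2) h0 h1
  obtain ⟨q11, d4⟩ : ∃ q, L.mul q1 q1 = q := ⟨_, rfl⟩
  obtain ⟨q11', I11⟩ : ∃ q', L.mul q11 q' = L.one := ⟨_, L.mul_ldiv _ _⟩
  have J11 : L.mul q11' q11 = L.one := hU.isym I11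
  have i11 := X.pr_inv I11
  have j11 := X.pr_inv J11
  have h4 := X.pr_of d4
  have W11 : ∀ t, X.act q11 t = X.act q1 (X.act q1 t) := fun t => by
    simp only [X.act_of' d4, C1, D1, C3, D3]
  have W11' : ∀ t, X.act q11' t = X.act q1' (X.act q1' t) := fun t =>
    X.act_inv_eq J11 (by simp only [W11, C1, D1, C3, D3])
  obtain ⟨q13, d5⟩ : ∃ q, L.mul q1 q3' = q := ⟨_, rfl⟩
  obtain ⟨q13', I13⟩ : ∃ q', L.mul q13 q' = L.one := ⟨_, L.mul_ldiv _ _⟩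
  have J13 : L.mul q13' q13 = L.one := hU.isym I13
  have i13 := X.pr_inv I13
  have j13 := X.pr_inv J13
  have h5 := X.pr_of d5
  obtain ⟨q15, d6⟩ : ∃ q, L.mul q3' q1 = q := ⟨_, rfl⟩
  obtain ⟨q15', I15⟩ : ∃ q', L.mul q15 q' = L.one := ⟨_, L.mul_ldiv _ _⟩
  have J15 : L.mul q15' q15 = L.one := hU.isym I15
  have i15 := X.pr_inv I15
  have j15 := X.pr_inv J15
  have h6 := X.pr_of d6
  have W15 : ∀ t, X.act q15 t = X.act q3' (X.act q1 t) := fun t => by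
    simp only [X.act_of' d6, C1, D1, C3, D3]
  have W15' : ∀ t, X.act q15' t = X.act q1' (X.act q3 t) := fun t =>
    X.act_inv_eq J15 (by simp only [W15, C1, D1, C3, D3])
  obtain ⟨q17, d7⟩ : ∃ q, L.mul q3 q3 = q := ⟨_, rfl⟩
  obtain ⟨q17', I17⟩ : ∃ q', L.mul q17 q' = L.one := ⟨_, L.mul_ldiv _ _⟩
  have J17 : L.mul q17' q17 = L.one := hU.isym I17
  have i17 := X.pr_inv I17
  have j17 := X.pr_inv J17
  have h7 := X.pr_of d7
  obtain ⟨q19, d8⟩ : ∃ q, L.mul q1 q5 = q := ⟨_, rfl⟩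
  obtain ⟨q19', I19⟩ : ∃ q', L.mul q19 q' = L.one := ⟨_, L.mul_ldiv _ _⟩
  have J19 : L.mul q19' q19 = L.one := hU.isym I19
  have i19 := X.pr_inv I19
  have j19 := X.pr_inv J19
  have h8 := X.pr_of d8
  obtain ⟨q25, d11⟩ : ∃ q, L.mul q3 q5 = q := ⟨_, rfl⟩
  obtain ⟨q25', I25⟩ : ∃ q', L.mul q25 q' = L.one := ⟨_, L.mul_ldiv _ _⟩
  have J25 : L.mul q25' q25 = L.one := hU.isym I25
  have i25 := X.pr_inv I25
  have j25 := X.pr_inv J25
  have h11 := X.pr_of d11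
  obtain ⟨q29, d13⟩ : ∃ q, L.mul q7 q1 = q := ⟨_, rfl⟩
  obtain ⟨q29', I29⟩ : ∃ q', L.mul q29 q' = L.one := ⟨_, L.mul_ldiv _ _⟩
  have J29 : L.mul q29' q29 = L.one := hU.isym I29
  have i29 := X.pr_inv I29
  have j29 := X.pr_inv J29
  have h13 := X.pr_of d13
  obtain ⟨q31, d14⟩ : ∃ q, L.mul q1 q7 = q := ⟨_, rfl⟩
  obtain ⟨q31', I31⟩ : ∃ q', L.mul q31 q' = L.one := ⟨_, L.mul_ldiv _ _⟩
  have J31 : L.mul q31' q31 = L.one := hU.isym I31
  have i31 := X.pr_inv I31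
  have j31 := X.pr_inv J31
  have h14 := X.pr_of d14
  obtain ⟨q35, d16⟩ : ∃ q, L.mul q3 q7 = q := ⟨_, rfl⟩
  obtain ⟨q35', I35⟩ : ∃ q', L.mul q35 q' = L.one := ⟨_, L.mul_ldiv _ _⟩
  have J35 : L.mul q35' q35 = L.one := hU.isym I35
  have i35 := X.pr_inv I35
  have j35 := X.pr_inv J35
  have h16 := X.pr_of d16
  have W35 : ∀ t, X.act q35 t = X.act q3 (X.act q1 (X.act q3 (X.act q1 t))) := fun t => by
    simp only [X.act_of' d16, W7, C1, D1, C3, D3]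
  have W35' : ∀ t, X.act q35' t = X.act q1' (X.act q3' (X.act q1' (X.act q3' t))) := fun t =>
    X.act_inv_eq J35 (by simp only [W35, C1, D1, C3, D3])
  obtain ⟨q37, d17⟩ : ∃ q, L.mul q7 q3' = q := ⟨_, rfl⟩
  obtain ⟨q37', I37⟩ : ∃ q', L.mul q37 q' = L.one := ⟨_, L.mul_ldiv _ _⟩
  have J37 : L.mul q37' q37 = L.one := hU.isym I37
  have i37 := X.pr_inv I37
  have j37 := X.pr_inv J37
  have h17 := X.pr_of d17
  obtain ⟨q41, d19⟩ : ∃ q, L.mul q9 q1 = q := ⟨_, rfl⟩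
  obtain ⟨q41', I41⟩ : ∃ q', L.mul q41 q' = L.one := ⟨_, L.mul_ldiv _ _⟩
  have J41 : L.mul q41' q41 = L.one := hU.isym I41
  have i41 := X.pr_inv I41
  have j41 := X.pr_inv J41
  have h19 := X.pr_of d19
  obtain ⟨q43, d20⟩ : ∃ q, L.mul q1' q9 = q := ⟨_, rfl⟩
  obtain ⟨q43', I43⟩ : ∃ q', L.mul q43 q' = L.one := ⟨_, L.mul_ldiv _ _⟩
  have J43 : L.mul q43' q43 = L.one := hU.isym I43
  have i43 := X.pr_inv I43
  have j43 := X.pr_inv J43
  have h20 := X.pr_of d20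
  obtain ⟨q45, d21⟩ : ∃ q, L.mul q3 q9 = q := ⟨_, rfl⟩
  obtain ⟨q45', I45⟩ : ∃ q', L.mul q45 q' = L.one := ⟨_, L.mul_ldiv _ _⟩
  have J45 : L.mul q45' q45 = L.one := hU.isym I45
  have i45 := X.pr_inv I45
  have j45 := X.pr_inv J45
  have h21 := X.pr_of d21
  obtain ⟨q47, d22⟩ : ∃ q, L.mul q9 q3' = q := ⟨_, rfl⟩
  obtain ⟨q47', I47⟩ : ∃ q', L.mul q47 q' = L.one := ⟨_, L.mul_ldiv _ _⟩
  have J47 : L.mul q47' q47 = L.one := hU.isym I47
  have i47 := X.pr_inv I47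
  have j47 := X.pr_inv J47
  have h22 := X.pr_of d22
  have h23 : M.mul (X.pr q5) (X.pr q11) = (X.pr q29) :=
    hM.a2 h0 h4 (hIM.n3 j1 j3 i9 h2) h3 h13
  have h24 : M.mul (X.pr q5') (X.pr q11) = (X.pr q15) :=
    hM.a2 (hIM.n5 i5 i7 h1) h4 (hIM.n4 j9 i7 h3) (hIM.n1 j1 h2) h6
  have h25 : M.mul (X.pr q29') (X.pr q1) = (X.pr q43) :=
    hM.b3 h4 (hIM.n5 i5 i29 h23) (hIM.n4 i3 i5 h0) (hIM.n1 j1 h20) (hIM.n1 j1 h2)
  have h26 : M.mul (X.pr q15') (X.pr q1) = (X.pr q41') :=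
    hM.b3 h4 (hIM.n5 j5 i15 h24) h1 (hIM.n5 i9 i41 h19) h3
  have h27 : M.mul (X.pr q11) (X.pr q9') = (X.pr q31) :=
    hM.a3 (hIM.n1 i1 h4) (hIM.n4 j3 i9 h2) h0 (hIM.n1 i1 h14) (hIM.n2 i1 h1)
  have h28 : M.mul (X.pr q11) (X.pr q9) = (X.pr q13) :=
    hM.a3 (hIM.n1 i1 h4) (hIM.n3 i1 j9 i7 h3) (hIM.n5 i5 i7 h1) (hIM.n1 i1 h5) (hIM.n3 i1 i3 i5 h0)
  have h29 : M.mul (X.pr q11) (X.pr q43) = (X.pr q3') :=
    hM.a3 (hIM.n1 i1 h4) (hIM.n2 i1 h25) (hIM.n5 i7 i29 h13) h2 (hIM.n3 i1 j9 i7 h3)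
  have h30 : M.mul (X.pr q11) (X.pr q41') = (X.pr q7) :=
    hM.a3 (hIM.n1 i1 h4) (hIM.n2 i1 h26) (hIM.n5 j3 i15 h6) (hIM.n1 i1 h3) (hIM.n4 j3 i9 h2)
  have h31 : M.mul (X.pr q7') (X.pr q13) = (X.pr q47) :=
    hM.a3 (hIM.n5 i1 i7 h3) (hIM.n2 i9 h28) (hIM.n1 i1 h4) (hIM.n1 i9 h22) (hIM.n5 j1 i9 h2)
  have h32 : M.mul (X.pr q41) (X.pr q9) = (X.pr q47) :=
    hM.a5 (hIM.n3 i1 j9 i7 h3) h28 h31 (hIM.n1 i1 h4) h19
  have h33 : M.mul (X.pr q43') (X.pr q15') = (X.pr q25) :=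
    hM.a3 (hIM.n2 i43 h29) (hIM.n4 i1 i15 h6) (hIM.n2 i1 h4) (hIM.n1 i3 h11) (hIM.n2 i3 h0)
  have h35 : M.mul (X.pr q9') (X.pr q3) = (X.pr q25) :=
    hM.a5 (hIM.n4 i43 j3 h29) (hIM.n3 j3 i1 i15 h6) h33 (hIM.n2 i1 h4) (hIM.n3 j1 j3 i9 h2)
  have h36 : M.mul (X.pr q19') (X.pr q11) = (X.pr q3') :=
    hM.b1 (hIM.n3 i1 i5 i19 h8) (hIM.n3 i1 i3 i5 h0) (hIM.n2 i1 h4) j1 (M.mul_one _)
  have h42 : M.mul (X.pr q17) (X.pr q1) = (X.pr q47') :=
    hM.a1 h5 (hIM.n5 j7 i47 h31) (hIM.n1 i3 h7) h0 h1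
  have h44 : M.mul (X.pr q5') (X.pr q13) = (X.pr q17') :=
    hM.a2 (hIM.n3 i1 i3 i5 h0) h5 j1 (M.mul_one _) (hIM.n3 i3 i3 i17 h7)
  have h46 : M.mul (X.pr q35) (X.pr q9) = (X.pr q9') :=
    hM.a3 (hIM.n1 i3 h16) h22 (hIM.n1 j7 h31) (hIM.n5 j1 i9 h2) h5
  have h47 : M.mul (X.pr q5') (X.pr q37) = (X.pr q13) :=
    hM.a2 (hIM.n3 i1 i3 i5 h0) h17 (hIM.n1 i1 h3) (hIM.n5 j1 i9 h2) h5
  have h49 : M.mul (X.pr q43') (X.pr q9) = (X.pr q45') :=
    hM.b3 (hIM.n1 j1 h2) (hIM.n2 i43 h29) h28 (hIM.n5 i3 i45 h21) h5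
  have h51 : M.mul (X.pr q1) (X.pr q35') = (X.pr q25') :=
    hM.b1 (hIM.n2 j3 h5) (hIM.n4 i5 i25 h11) (hIM.n4 i7 i35 h16) (hIM.n3 i7 j3 i37 h17) (hIM.n2 i37 h47)
  have h54 : M.mul (X.pr q15) (X.pr q9) = (X.pr q17') :=
    hM.a2 h6 h2 i1 (M.mul_one _) (hIM.n3 i3 i3 i17 h7)
  have h68 : M.mul (X.pr q41) (X.pr q43) = (X.pr q35') :=
    hM.a2 h19 h20 i1 (M.mul_one _) (hIM.n5 i35 j9 h46)
  have h69 : M.mul (X.pr q35') (X.pr q45') = (X.pr q47) :=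
    hM.a2 (hIM.n5 i35 j9 h46) h49 (hIM.n5 j1 i43 h20) h19 h32
  obtain ⟨c1_12, g1_12⟩ := X.lift ((hIM.n5 i1 i11 h4) : M.mul (X.pr q1) (X.pr q11') = (X.pr q1'))
  obtain ⟨c41_12, g41_12⟩ := X.lift ((hIM.n3 i11 j41 i7 h30) : M.mul (X.pr q41) (X.pr q11') = (X.pr q7'))
  obtain ⟨c41_2, g41_2⟩ := X.lift ((hIM.n2 i1 h19) : M.mul (X.pr q41) (X.pr q1') = (X.pr q9))
  obtain ⟨c1_9, g1_9⟩ := X.lift ((hIM.n1 j1 h2) : M.mul (X.pr q1) (X.pr q9) = (X.pr q3'))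
  obtain ⟨c15_2, g15_2⟩ := X.lift ((hIM.n2 i1 h6) : M.mul (X.pr q15) (X.pr q1') = (X.pr q3'))
  obtain ⟨c15_12, g15_12⟩ := X.lift ((hIM.n2 i11 h24) : M.mul (X.pr q15) (X.pr q11') = (X.pr q5'))
  obtain ⟨c1_8, g1_8⟩ := X.lift ((hIM.n5 i5 i7 h1) : M.mul (X.pr q1) (X.pr q7') = (X.pr q5'))
  have r0 := X.urel hU (L.mul_one _) (L.mul_one _) (X.one_l _) g1_12 (X.one_l _) g41_12 g41_2 (X.one_l _) g1_9 g15_2 g15_12 g1_8
  replace r0 := congrArg (fun t => X.act q1' t) r0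
  simp only [X.act_add, X.act_sub, X.act_neg, X.act_zero, X.act_one, neg_neg, neg_zero, sub_zero, add_zero, zero_add, zero_sub, sub_neg_eq_add, W5, W5', W7, W7', W9, W9', W11, W11', W15, W15', W35, W35', C1, D1, C3, D3] at r0
  obtain ⟨c2_13, g2_13⟩ := X.lift ((hIM.n1 i1 h5) : M.mul (X.pr q1') (X.pr q13) = (X.pr q3'))
  have r1 := X.urel hU (L.mul_one _) (L.mul_one _) (X.one_l _) (X.z d2) (X.one_l _) (X.z d5) g1_9 (X.one_l _) (X.z d2) (X.one_l _) (X.one_l _) g2_13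
  replace r1 := congrArg (fun t => X.act q1' t) r1
  simp only [X.act_add, X.act_sub, X.act_neg, X.act_zero, X.act_one, neg_neg, neg_zero, sub_zero, add_zero, zero_add, zero_sub, sub_neg_eq_add, W5, W5', W7, W7', W9, W9', W11, W11', W15, W15', W35, W35', C1, D1, C3, D3] at r1
  obtain ⟨c11_2, g11_2⟩ := X.lift ((hIM.n2 i1 h4) : M.mul (X.pr q11) (X.pr q1') = (X.pr q1))
  obtain ⟨c2_11, g2_11⟩ := X.lift ((hIM.n1 i1 h4) : M.mul (X.pr q1') (X.pr q11) = (X.pr q1))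
  have r2 := X.urel hU (L.mul_one _) (L.mul_one _) (X.one_l _) (X.one_r _) (X.one_l _) (X.one_r _) g11_2 (X.one_l _) (X.z J1) (X.z I1) (X.one_r _) g2_11
  replace r2 := congrArg (fun t => X.act q1' t) r2
  simp only [X.act_add, X.act_sub, X.act_neg, X.act_zero, X.act_one, neg_neg, neg_zero, sub_zero, add_zero, zero_add, zero_sub, sub_neg_eq_add, W5, W5', W7, W7', W9, W9', W11, W11', W15, W15', W35, W35', C1, D1, C3, D3] at r2
  obtain ⟨c4_2, g4_2⟩ := X.lift ((hIM.n3 i1 i3 i5 h0) : M.mul (X.pr q3') (X.pr q1') = (X.pr q5'))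
  obtain ⟨c2_6, g2_6⟩ := X.lift ((hIM.n3 i5 i1 i7 h1) : M.mul (X.pr q1') (X.pr q5') = (X.pr q7'))
  obtain ⟨c9_2, g9_2⟩ := X.lift ((hIM.n3 i1 j9 i7 h3) : M.mul (X.pr q9) (X.pr q1') = (X.pr q7'))
  have r3 := X.urel hU (L.mul_one _) (L.mul_one _) (X.one_l _) (X.one_r _) (X.one_l _) (X.one_r _) g4_2 (X.one_l _) g2_6 g9_2 (X.one_r _) (X.z d2)
  simp only [X.act_add, X.act_sub, X.act_neg, X.act_zero, X.act_one, neg_neg, neg_zero, sub_zero, add_zero, zero_add, zero_sub, sub_neg_eq_add, W5, W5', W7, W7', W9, W9', W11, W11', W15, W15', W35, W35', C1, D1, C3, D3] at r3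
  have r4 := X.urel hU I1 J1 (X.z d4) (X.one_l _) (X.z d4) (X.one_l _) (X.one_l _) (X.one_r _) (X.one_l _) (X.z J1) g2_11 (X.one_l _)
  replace r4 := congrArg (fun t => X.act q1' t) r4
  simp only [X.act_add, X.act_sub, X.act_neg, X.act_zero, X.act_one, neg_neg, neg_zero, sub_zero, add_zero, zero_add, zero_sub, sub_neg_eq_add, W5, W5', W7, W7', W9, W9', W11, W11', W15, W15', W35, W35', C1, D1, C3, D3] at r4
  obtain ⟨c1_47, g1_47⟩ := X.lift ((hIM.n5 i17 j47 h42) : M.mul (X.pr q1) (X.pr q47) = (X.pr q17'))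
  obtain ⟨c6_13, g6_13⟩ := X.lift (h44 : M.mul (X.pr q5') (X.pr q13) = (X.pr q17'))
  obtain ⟨c6_4, g6_4⟩ := X.lift ((hIM.n3 i3 i5 i25 h11) : M.mul (X.pr q5') (X.pr q3') = (X.pr q25'))
  obtain ⟨c1_36, g1_36⟩ := X.lift (h51 : M.mul (X.pr q1) (X.pr q35') = (X.pr q25'))
  obtain ⟨c8_4, g8_4⟩ := X.lift ((hIM.n3 i3 i7 i35 h16) : M.mul (X.pr q7') (X.pr q3') = (X.pr q35'))
  obtain ⟨c8_13, g8_13⟩ := X.lift (h31 : M.mul (X.pr q7') (X.pr q13) = (X.pr q47))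
  have r5 := X.urel hU I1 J1 (X.z d5) (X.one_l _) g1_47 g6_13 g6_4 g1_36 (X.one_l _) g8_4 g8_13 (X.one_l _)
  replace r5 := congrArg (fun t => X.act q1' (X.act q3 (X.act q1 t))) r5
  simp only [X.act_add, X.act_sub, X.act_neg, X.act_zero, X.act_one, neg_neg, neg_zero, sub_zero, add_zero, zero_add, zero_sub, sub_neg_eq_add, W5, W5', W7, W7', W9, W9', W11, W11', W15, W15', W35, W35', C1, D1, C3, D3] at r5
  obtain ⟨c4_9, g4_9⟩ := X.lift ((hIM.n3 j9 i3 i25 h35) : M.mul (X.pr q3') (X.pr q9) = (X.pr q25'))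
  obtain ⟨c7_9, g7_9⟩ := X.lift ((hIM.n2 j9 h3) : M.mul (X.pr q7) (X.pr q9) = (X.pr q1))
  obtain ⟨c7_36, g7_36⟩ := X.lift ((hIM.n5 i3 i35 h16) : M.mul (X.pr q7) (X.pr q35') = (X.pr q3'))
  have r6 := X.urel hU I1 J1 g1_36 g4_9 (X.one_r _) g7_9 g7_36 g1_9 g4_9 g1_36 g1_9 (X.one_r _)
  replace r6 := congrArg (fun t => X.act q1' (X.act q3 t)) r6
  simp only [X.act_add, X.act_sub, X.act_neg, X.act_zero, X.act_one, neg_neg, neg_zero, sub_zero, add_zero, zero_add, zero_sub, sub_neg_eq_add, W5, W5', W7, W7', W9, W9', W11, W11', W15, W15', W35, W35', C1, D1, C3, D3] at r6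
  obtain ⟨c1_10, g1_10⟩ := X.lift (h3 : M.mul (X.pr q1) (X.pr q9') = (X.pr q7))
  obtain ⟨c4_10, g4_10⟩ := X.lift ((hIM.n5 j1 i9 h2) : M.mul (X.pr q3') (X.pr q9') = (X.pr q1))
  have r7 := X.urel hU I1 J1 g1_10 (X.one_r _) g1_9 (X.one_r _) g4_10 (X.one_r _) (X.one_r _) g1_10 (X.one_r _) g7_9
  replace r7 := congrArg (fun t => X.act q1' (X.act q1' t)) r7
  simp only [X.act_add, X.act_sub, X.act_neg, X.act_zero, X.act_one, neg_neg, neg_zero, sub_zero, add_zero, zero_add, zero_sub, sub_neg_eq_add, W5, W5', W7, W7', W9, W9', W11, W11', W15, W15', W35, W35', C1, D1, C3, D3] at r7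
  obtain ⟨c7_2, g7_2⟩ := X.lift ((hIM.n2 i1 h1) : M.mul (X.pr q7) (X.pr q1') = (X.pr q5))
  have r8 := X.urel hU I1 J1 (X.z d0) g7_2 g1_8 g4_2 (X.z J3) (X.z I1) g7_2 (X.z d0) (X.z I1) (X.z I7)
  replace r8 := congrArg (fun t => X.act q1' (X.act q3' (X.act q1' t))) r8
  simp only [X.act_add, X.act_sub, X.act_neg, X.act_zero, X.act_one, neg_neg, neg_zero, sub_zero, add_zero, zero_add, zero_sub, sub_neg_eq_add, W5, W5', W7, W7', W9, W9', W11, W11', W15, W15', W35, W35', C1, D1, C3, D3] at r8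
  obtain ⟨c1_43, g1_43⟩ := X.lift ((hIM.n1 j1 h20) : M.mul (X.pr q1) (X.pr q43) = (X.pr q9))
  obtain ⟨c11_43, g11_43⟩ := X.lift (h29 : M.mul (X.pr q11) (X.pr q43) = (X.pr q3'))
  obtain ⟨c9_9, g9_9⟩ := X.lift ((hIM.n5 i35 j9 h46) : M.mul (X.pr q9) (X.pr q9) = (X.pr q35'))
  obtain ⟨c41_43, g41_43⟩ := X.lift (h68 : M.mul (X.pr q41) (X.pr q43) = (X.pr q35'))
  have r9 := X.urel hU I1 J1 g1_43 (X.one_r _) (X.z d4) (X.one_r _) g11_43 g1_9 g9_9 g41_43 (X.one_r _) (X.z d19)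
  replace r9 := congrArg (fun t => X.act q1' (X.act q3 (X.act q1 t))) r9
  simp only [X.act_add, X.act_sub, X.act_neg, X.act_zero, X.act_one, neg_neg, neg_zero, sub_zero, add_zero, zero_add, zero_sub, sub_neg_eq_add, W5, W5', W7, W7', W9, W9', W11, W11', W15, W15', W35, W35', C1, D1, C3, D3] at r9
  obtain ⟨c15_43, g15_43⟩ := X.lift ((hIM.n3 j43 j15 i25 h33) : M.mul (X.pr q15) (X.pr q43) = (X.pr q25'))
  have r10 := X.urel hU I1 J1 g1_9 g15_2 g1_12 (X.one_l _) (X.one_l _) g1_43 g15_43 g4_9 g4_2 g15_12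
  replace r10 := congrArg (fun t => X.act q1' (X.act q3 t)) r10
  simp only [X.act_add, X.act_sub, X.act_neg, X.act_zero, X.act_one, neg_neg, neg_zero, sub_zero, add_zero, zero_add, zero_sub, sub_neg_eq_add, W5, W5', W7, W7', W9, W9', W11, W11', W15, W15', W35, W35', C1, D1, C3, D3] at r10
  obtain ⟨c2_2, g2_2⟩ := X.lift ((hIM.n3 i1 i1 i11 h4) : M.mul (X.pr q1') (X.pr q1') = (X.pr q11'))
  have r11 := X.urel hU J1 I1 g2_2 (X.one_l _) g2_2 (X.one_l _) (X.one_l _) (X.one_r _) (X.one_l _) (X.z I1) g1_12 (X.one_l _)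
  replace r11 := congrArg (fun t => X.act q1' t) r11
  simp only [X.act_add, X.act_sub, X.act_neg, X.act_zero, X.act_one, neg_neg, neg_zero, sub_zero, add_zero, zero_add, zero_sub, sub_neg_eq_add, W5, W5', W7, W7', W9, W9', W11, W11', W15, W15', W35, W35', C1, D1, C3, D3] at r11
  obtain ⟨c2_26, g2_26⟩ := X.lift ((hIM.n1 i1 h51) : M.mul (X.pr q1') (X.pr q25') = (X.pr q35'))
  obtain ⟨c2_18, g2_18⟩ := X.lift ((hIM.n3 i17 i1 j47 h42) : M.mul (X.pr q1') (X.pr q17') = (X.pr q47))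
  have r12 := X.urel hU J1 I1 g2_13 (X.one_l _) g2_26 g8_4 g8_13 g2_18 (X.one_l _) g6_13 g6_4 (X.one_l _)
  replace r12 := congrArg (fun t => X.act q1' (X.act q3 t)) r12
  simp only [X.act_add, X.act_sub, X.act_neg, X.act_zero, X.act_one, neg_neg, neg_zero, sub_zero, add_zero, zero_add, zero_sub, sub_neg_eq_add, W5, W5', W7, W7', W9, W9', W11, W11', W15, W15', W35, W35', C1, D1, C3, D3] at r12
  obtain ⟨c11_9, g11_9⟩ := X.lift (h28 : M.mul (X.pr q11) (X.pr q9) = (X.pr q13))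
  have r13 := X.urel hU J1 I1 (X.z d20) (X.one_l _) (X.z d2) g1_43 g1_9 g2_13 (X.one_l _) g11_9 g11_43 (X.one_l _)
  replace r13 := congrArg (fun t => X.act q1' (X.act q1' t)) r13
  simp only [X.act_add, X.act_sub, X.act_neg, X.act_zero, X.act_one, neg_neg, neg_zero, sub_zero, add_zero, zero_add, zero_sub, sub_neg_eq_add, W5, W5', W7, W7', W9, W9', W11, W11', W15, W15', W35, W35', C1, D1, C3, D3] at r13
  have r14 := X.urel hU J1 I1 g2_2 (X.one_l _) g2_6 g41_12 g41_2 (X.z d2) (X.one_l _) g15_2 g15_12 (X.one_l _)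
  replace r14 := congrArg (fun t => X.act q1' t) r14
  simp only [X.act_add, X.act_sub, X.act_neg, X.act_zero, X.act_one, neg_neg, neg_zero, sub_zero, add_zero, zero_add, zero_sub, sub_neg_eq_add, W5, W5', W7, W7', W9, W9', W11, W11', W15, W15', W35, W35', C1, D1, C3, D3] at r14
  obtain ⟨c41_9, g41_9⟩ := X.lift (h32 : M.mul (X.pr q41) (X.pr q9) = (X.pr q47))
  obtain ⟨c15_9, g15_9⟩ := X.lift (h54 : M.mul (X.pr q15) (X.pr q9) = (X.pr q17'))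
  have r15 := X.urel hU J1 I1 (X.z d20) (X.one_l _) g2_26 g41_43 g41_9 g2_18 (X.one_l _) g15_9 g15_43 (X.one_l _)
  replace r15 := congrArg (fun t => X.act q1' (X.act q3 t)) r15
  simp only [X.act_add, X.act_sub, X.act_neg, X.act_zero, X.act_one, neg_neg, neg_zero, sub_zero, add_zero, zero_add, zero_sub, sub_neg_eq_add, W5, W5', W7, W7', W9, W9', W11, W11', W15, W15', W35, W35', C1, D1, C3, D3] at r15
  obtain ⟨c12_1, g12_1⟩ := X.lift ((hIM.n4 i1 i11 h4) : M.mul (X.pr q11') (X.pr q1) = (X.pr q1'))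
  obtain ⟨c2_31, g2_31⟩ := X.lift ((hIM.n1 i1 h14) : M.mul (X.pr q1') (X.pr q31) = (X.pr q7))
  obtain ⟨c2_19, g2_19⟩ := X.lift ((hIM.n1 i1 h8) : M.mul (X.pr q1') (X.pr q19) = (X.pr q5))
  obtain ⟨c12_19, g12_19⟩ := X.lift ((hIM.n3 j19 i11 j3 h36) : M.mul (X.pr q11') (X.pr q19) = (X.pr q3))
  obtain ⟨c3_1, g3_1⟩ := X.lift ((hIM.n3 j1 j3 i9 h2) : M.mul (X.pr q3) (X.pr q1) = (X.pr q9'))
  obtain ⟨c12_31, g12_31⟩ := X.lift ((hIM.n1 i11 h27) : M.mul (X.pr q11') (X.pr q31) = (X.pr q9'))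
  have r16 := X.urel hU J1 I1 (X.one_r _) g12_1 g2_31 (X.z d1) (X.one_r _) g2_19 g12_19 (X.one_r _) g3_1 g12_31
  replace r16 := congrArg (fun t => X.act q1' (X.act q3' t)) r16
  simp only [X.act_add, X.act_sub, X.act_neg, X.act_zero, X.act_one, neg_neg, neg_zero, sub_zero, add_zero, zero_add, zero_sub, sub_neg_eq_add, W5, W5', W7, W7', W9, W9', W11, W11', W15, W15', W35, W35', C1, D1, C3, D3] at r16
  obtain ⟨c10_2, g10_2⟩ := X.lift ((hIM.n4 j3 i9 h2) : M.mul (X.pr q9') (X.pr q1') = (X.pr q3))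
  have r17 := X.urel hU J1 I1 g2_2 (X.one_r _) g2_31 (X.one_r _) g7_2 g2_19 g12_19 g10_2 (X.one_r _) g12_31
  replace r17 := congrArg (fun t => X.act q1' (X.act q3' t)) r17
  simp only [X.act_add, X.act_sub, X.act_neg, X.act_zero, X.act_one, neg_neg, neg_zero, sub_zero, add_zero, zero_add, zero_sub, sub_neg_eq_add, W5, W5', W7, W7', W9, W9', W11, W11', W15, W15', W35, W35', C1, D1, C3, D3] at r17
  obtain ⟨c10_1, g10_1⟩ := X.lift ((hIM.n3 j1 i9 i43 h20) : M.mul (X.pr q9') (X.pr q1) = (X.pr q43'))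
  obtain ⟨c44_2, g44_2⟩ := X.lift ((hIM.n4 i9 i43 h20) : M.mul (X.pr q43') (X.pr q1') = (X.pr q9'))
  have r18 := X.urel hU I3 J3 (X.one_r _) g10_2 (X.one_r _) g10_2 (X.one_r _) g3_1 g10_1 (X.one_r _) g44_2 (X.one_r _)
  replace r18 := congrArg (fun t => X.act q1' (X.act q1' (X.act q3' t))) r18
  simp only [X.act_add, X.act_sub, X.act_neg, X.act_zero, X.act_one, neg_neg, neg_zero, sub_zero, add_zero, zero_add, zero_sub, sub_neg_eq_add, W5, W5', W7, W7', W9, W9', W11, W11', W15, W15', W35, W35', C1, D1, C3, D3] at r18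
  obtain ⟨c10_47, g10_47⟩ := X.lift ((hIM.n1 i9 h22) : M.mul (X.pr q9') (X.pr q47) = (X.pr q3'))
  obtain ⟨c4_4, g4_4⟩ := X.lift ((hIM.n3 i3 i3 i17 h7) : M.mul (X.pr q3') (X.pr q3') = (X.pr q17'))
  obtain ⟨c10_10, g10_10⟩ := X.lift ((hIM.n2 i9 h46) : M.mul (X.pr q9') (X.pr q9') = (X.pr q35))
  obtain ⟨c35_47, g35_47⟩ := X.lift ((hIM.n1 j35 h69) : M.mul (X.pr q35) (X.pr q47) = (X.pr q45'))
  obtain ⟨c10_4, g10_4⟩ := X.lift ((hIM.n3 i3 i9 i45 h21) : M.mul (X.pr q9') (X.pr q3') = (X.pr q45'))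
  have r19 := X.urel hU J3 I3 (X.one_r _) g10_47 g4_4 g1_47 (X.one_r _) g4_10 g10_10 (X.one_r _) g35_47 g10_4
  replace r19 := congrArg (fun t => X.act q1' (X.act q1' (X.act q3' t))) r19
  simp only [X.act_add, X.act_sub, X.act_neg, X.act_zero, X.act_one, neg_neg, neg_zero, sub_zero, add_zero, zero_add, zero_sub, sub_neg_eq_add, W5, W5', W7, W7', W9, W9', W11, W11', W15, W15', W35, W35', C1, D1, C3, D3] at r19
  obtain ⟨c7_41, g7_41⟩ := X.lift ((hIM.n2 j41 h30) : M.mul (X.pr q7) (X.pr q41) = (X.pr q11))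
  have r20 := X.urel hU I7 J7 g7_9 (X.one_l _) g7_41 (X.z d4) g1_9 g7_36 (X.one_l _) g9_9 (X.z d19) (X.one_l _)
  replace r20 := congrArg (fun t => X.act q1' (X.act q3 (X.act q1 t))) r20
  simp only [X.act_add, X.act_sub, X.act_neg, X.act_zero, X.act_one, neg_neg, neg_zero, sub_zero, add_zero, zero_add, zero_sub, sub_neg_eq_add, W5, W5', W7, W7', W9, W9', W11, W11', W15, W15', W35, W35', C1, D1, C3, D3] at r20
  obtain ⟨c9_44, g9_44⟩ := X.lift ((hIM.n5 j1 i43 h20) : M.mul (X.pr q9) (X.pr q43') = (X.pr q1))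
  obtain ⟨c9_46, g9_46⟩ := X.lift ((hIM.n5 i3 i45 h21) : M.mul (X.pr q9) (X.pr q45') = (X.pr q3'))
  obtain ⟨c36_46, g36_46⟩ := X.lift (h69 : M.mul (X.pr q35') (X.pr q45') = (X.pr q47))
  obtain ⟨c36_44, g36_44⟩ := X.lift ((hIM.n2 i43 h68) : M.mul (X.pr q35') (X.pr q43') = (X.pr q41))
  have r21 := X.urel hU I9 J9 g9_9 (X.one_r _) g9_44 (X.one_r _) g1_9 g9_46 g36_46 g41_9 (X.one_r _) g36_44
  replace r21 := congrArg (fun t => X.act q1' (X.act q3 (X.act q1 t))) r21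
  simp only [X.act_add, X.act_sub, X.act_neg, X.act_zero, X.act_one, neg_neg, neg_zero, sub_zero, add_zero, zero_add, zero_sub, sub_neg_eq_add, W5, W5', W7, W7', W9, W9', W11, W11', W15, W15', W35, W35', C1, D1, C3, D3] at r21
  obtain ⟨c10_41, g10_41⟩ := X.lift ((hIM.n1 i9 h19) : M.mul (X.pr q9') (X.pr q41) = (X.pr q1))
  obtain ⟨c47_10, g47_10⟩ := X.lift ((hIM.n2 i9 h32) : M.mul (X.pr q47) (X.pr q9') = (X.pr q41))
  have r22 := X.urel hU J9 I9 (X.one_r _) (X.one_l _) g10_41 g4_10 (X.one_r _) g10_47 (X.one_l _) (X.one_r _) g47_10 (X.one_l _)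
  replace r22 := congrArg (fun t => X.act q1' (X.act q3 (X.act q1 t))) r22
  simp only [X.act_add, X.act_sub, X.act_neg, X.act_zero, X.act_one, neg_neg, neg_zero, sub_zero, add_zero, zero_add, zero_sub, sub_neg_eq_add, W5, W5', W7, W7', W9, W9', W11, W11', W15, W15', W35, W35', C1, D1, C3, D3] at r22
  obtain ⟨c35_41, g35_41⟩ := X.lift ((hIM.n4 i43 j35 h68) : M.mul (X.pr q35) (X.pr q41) = (X.pr q43'))
  have r23 := X.urel hU J9 I9 g10_41 (X.one_r _) g10_10 (X.one_r _) g35_41 g10_1 (X.z d4) g7_41 (X.one_r _) g1_10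
  replace r23 := congrArg (fun t => X.act q1' (X.act q1' t)) r23
  simp only [X.act_add, X.act_sub, X.act_neg, X.act_zero, X.act_one, neg_neg, neg_zero, sub_zero, add_zero, zero_add, zero_sub, sub_neg_eq_add, W5, W5', W7, W7', W9, W9', W11, W11', W15, W15', W35, W35', C1, D1, C3, D3] at r23
  obtain ⟨c44_9, g44_9⟩ := X.lift (h49 : M.mul (X.pr q43') (X.pr q9) = (X.pr q45'))
  have r24 := X.urel hU J9 I9 (X.z J9) (X.z I1) (X.one_r _) g44_2 g44_9 g10_4 (X.z d5) g11_9 g11_2 (X.one_r _)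
  replace r24 := congrArg (fun t => X.act q1' (X.act q1' t)) r24
  simp only [X.act_add, X.act_sub, X.act_neg, X.act_zero, X.act_one, neg_neg, neg_zero, sub_zero, add_zero, zero_add, zero_sub, sub_neg_eq_add, W5, W5', W7, W7', W9, W9', W11, W11', W15, W15', W35, W35', C1, D1, C3, D3] at r24
  have r25 := X.urel hU I15 J15 g15_2 (X.one_l _) g15_9 g4_4 g4_2 g15_12 (X.one_l _) g2_2 (X.z d2) (X.one_l _)
  simp only [X.act_add, X.act_sub, X.act_neg, X.act_zero, X.act_one, neg_neg, neg_zero, sub_zero, add_zero, zero_add, zero_sub, sub_neg_eq_add, W5, W5', W7, W7', W9, W9', W11, W11', W15, W15', W35, W35', C1, D1, C3, D3] at r25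
  obtain ⟨c35_9, g35_9⟩ := X.lift (h46 : M.mul (X.pr q35) (X.pr q9) = (X.pr q9'))
  have r26 := X.urel hU I35 J35 g35_9 (X.one_r _) g35_41 (X.one_r _) g44_9 g35_47 g10_47 g1_9 (X.one_r _) g10_41
  replace r26 := congrArg (fun t => X.act q1' t) r26
  simp only [X.act_add, X.act_sub, X.act_neg, X.act_zero, X.act_one, neg_neg, neg_zero, sub_zero, add_zero, zero_add, zero_sub, sub_neg_eq_add, W5, W5', W7, W7', W9, W9', W11, W11', W15, W15', W35, W35', C1, D1, C3, D3] at r26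
  obtain ⟨c36_10, g36_10⟩ := X.lift ((hIM.n1 i35 h46) : M.mul (X.pr q35') (X.pr q9') = (X.pr q9))
  have r27 := X.urel hU J35 I35 g36_10 (X.one_r _) g36_46 (X.one_r _) g47_10 g36_44 g9_44 g4_10 (X.one_r _) g9_46
  replace r27 := congrArg (fun t => X.act q1' t) r27
  simp only [X.act_add, X.act_sub, X.act_neg, X.act_zero, X.act_one, neg_neg, neg_zero, sub_zero, add_zero, zero_add, zero_sub, sub_neg_eq_add, W5, W5', W7, W7', W9, W9', W11, W11', W15, W15', W35, W35', C1, D1, C3, D3] at r27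
  have key : c9_2 = 0 := by
    linear_combination (norm := module) - r0 - r1 + r2 - r3 + r4 + r5 - r6 + r7 - r8 - r9 - r10 + r11 - r12 + r13 + r14 + r15 - r16 + r17 - r18 + r19 - r20 + r21 + r22 - r23 - r24 + r25 + r26 - r27
  rw [key, X.sm_zero] at g9_2
  have E1 : L.inv q1 = q1' := ldiv_eq I1
  have E3 : L.inv q3 = q3' := ldiv_eq I3
  have E7 : L.inv q7 = q7' := ldiv_eq I7
  rw [d0, d1, E1, E3, E7, d2]
  exact g9_2.symm

/-- The lifting theorem for abelian nuclear normal subgroups. -/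
theorem NSub.saip {S : Q → Prop} (h : NSub L S) (hU : L.UF)
    (hm : ∀ x y z, ∃ a, S a ∧ L.mul (L.mul x (L.mul y z)) x =
      L.mul a (L.mul (L.mul x y) (L.mul z x))) : L.SAIP := by
  let _ := h.group
  refine h.ext.saip hU ?_
  intro x y z
  induction x using Quotient.inductionOn
  induction y using Quotient.inductionOn
  induction z using Quotient.inductionOn
  exact Quotient.sound (s := h.setoid) (hm _ _ _)

/-- The Moufang defects lie in the center of the kernel. -/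
theorem Hom.defect {N : Type*} {M : LoopStr N} {φ : Q → N} (hφ : Hom L M φ)
    (hK : ∀ k, φ k = M.one → L.Nuclear k) (hM : M.Moufang) (x y z : Q) :
    ∃ a, (φ a = M.one ∧ ∀ k, φ k = M.one → L.mul a k = L.mul k a) ∧
      L.mul (L.mul x (L.mul y z)) x = L.mul a (L.mul (L.mul x y) (L.mul z x)) := by
  set T := L.mul (L.mul x (L.mul y z)) x with hT
  set U := L.mul (L.mul x y) (L.mul z x) with hU
  have e0 : T = L.mul (L.rdiv T U) U := (L.rdiv_mul _ _).symm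
  refine ⟨L.rdiv T U, ⟨?_, ?_⟩, e0⟩
  · rw [hφ.rdiv]
    apply rdiv_eq
    rw [M.one_mul, hT, hU]
    simp only [hφ _ _]
    rw [hM]
  · intro k hk
    obtain ⟨k0, hk0, x0⟩ : ∃ k0, φ k0 = M.one ∧ L.mul x k0 = L.mul k x :=
      ⟨_, hφ.ker_conj' hk x, L.mul_ldiv _ _⟩
    obtain ⟨k1, hk1, y0⟩ : ∃ k1, φ k1 = M.one ∧ L.mul y k1 = L.mul k0 y :=
      ⟨_, hφ.ker_conj' hk0 y, L.mul_ldiv _ _⟩
    obtain ⟨k2, hk2, z0⟩ : ∃ k2, φ k2 = M.one ∧ L.mul z k2 = L.mul k1 z :=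
      ⟨_, hφ.ker_conj' hk1 z, L.mul_ldiv _ _⟩
    obtain ⟨k3, hk3, x1⟩ : ∃ k3, φ k3 = M.one ∧ L.mul x k3 = L.mul k2 x :=
      ⟨_, hφ.ker_conj' hk2 x, L.mul_ldiv _ _⟩
    have eT : L.mul k T = L.mul T k3 := by
      rw [hT, ← (hK k hk).l, ← (hK k hk).l, ← x0, (hK k0 hk0).m, ← (hK k0 hk0).l, ← y0,
        (hK k1 hk1).m, ← z0, ← (hK k2 hk2).r, ← (hK k2 hk2).r, (hK k2 hk2).m, ← x1,
        ← (hK k3 hk3).r]
    have eU : L.mul k U = L.mul U k3 := by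
      rw [hU, ← (hK k hk).l, ← (hK k hk).l, ← x0, (hK k0 hk0).m, ← y0, ← (hK k1 hk1).r,
        (hK k1 hk1).m, ← (hK k1 hk1).l, ← z0, (hK k2 hk2).m, ← x1, ← (hK k3 hk3).r,
        ← (hK k3 hk3).r]
    apply rcancel (a := U)
    rw [(hK k hk).m, eU, ← (hK k3 hk3).r, (hK k hk).l]
    rw [← e0, eT]

/-- A UF loop with a homomorphism to a Moufang loop whose kernel is contained in the nucleus has
the semi-automorphic inverse property. -/
theorem Hom.saip {N : Type*} {M : LoopStr N} {φ : Q → N} (hφ : Hom L M φ)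
    (hK : ∀ k, φ k = M.one → L.Nuclear k) (hU : L.UF) (hM : M.Moufang) : L.SAIP :=
  (hφ.nsub hK).saip hU (hφ.defect hK hM)

end LoopStr

end Pool.Agent.V7H71.UF
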