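import Pool.Agent.V7H71.SufIP.Saip
import Pool.Agent.V7H71.SufIP.Weak

/-!
# Universally flexible loops: the commutative case, and the case of the inverse property
-/

namespace Pool.Agent.V7H71.UF

namespace LoopStr

set_option linter.unusedVariables false
set_option linter.dupNamespace false

section closure

variable {Q : Type*} {L : LoopStr Q} (hU : L.UF)
  {v0 v1 v2 v3 v4 v5 v6 v7 v8 v9 v10 v11 v12 : Q}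
include hU

theorem UF.u2 (h0 : L.mul v0 v5 = v8) (h1 : L.mul v1 v4 = v8)
    (h3 : L.mul v3 v4 = v9) (h4 : L.mul v3 v5 = v11) (h5 : L.mul v0 v7 = v11)
    (h6 : L.mul v1 v7 = v12) (h7 : L.mul v2 v5 = v12) (h8 : L.mul v2 v4 = v10)
    (h9 : L.mul v1 v6 = v10) : L.mul v0 v6 = v9 := by
  have := ufx hU (h0.trans h1.symm) v12
  rwa [rdiv_eq h7, h8, ldiv_eq h9, ldiv_eq h6, h5, rdiv_eq h4, h3] at this

theorem UF.u3 (h0 : L.mul v0 v5 = v8) (h1 : L.mul v1 v4 = v8) (h2 : L.mul v0 v6 = v9)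
    (h4 : L.mul v3 v5 = v11) (h5 : L.mul v0 v7 = v11)
    (h6 : L.mul v1 v7 = v12) (h7 : L.mul v2 v5 = v12) (h8 : L.mul v2 v4 = v10)
    (h9 : L.mul v1 v6 = v10) : L.mul v3 v4 = v9 :=
  (hU.u2 h0 h1 rfl h4 h5 h6 h7 h8 h9).symm.trans h2

theorem UF.u4 (h0 : L.mul v0 v5 = v8) (h1 : L.mul v1 v4 = v8) (h2 : L.mul v0 v6 = v9)
    (h3 : L.mul v3 v4 = v9) (h5 : L.mul v0 v7 = v11)
    (h6 : L.mul v1 v7 = v12) (h7 : L.mul v2 v5 = v12) (h8 : L.mul v2 v4 = v10)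
    (h9 : L.mul v1 v6 = v10) : L.mul v3 v5 = v11 := by
  have e1 : L.mul (L.rdiv v11 v5) v5 = v11 := L.rdiv_mul _ _
  have e2 := hU.u3 h0 h1 h2 e1 h5 h6 h7 h8 h9
  rw [← rcancel (e2.trans h3.symm)]
  exact e1

theorem UF.u5 (h0 : L.mul v0 v5 = v8) (h1 : L.mul v1 v4 = v8) (h2 : L.mul v0 v6 = v9)
    (h3 : L.mul v3 v4 = v9) (h4 : L.mul v3 v5 = v11)
    (h6 : L.mul v1 v7 = v12) (h7 : L.mul v2 v5 = v12) (h8 : L.mul v2 v4 = v10)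
    (h9 : L.mul v1 v6 = v10) : L.mul v0 v7 = v11 :=
  (hU.u4 h0 h1 h2 h3 rfl h6 h7 h8 h9).symm.trans h4

theorem UF.u6 (h0 : L.mul v0 v5 = v8) (h1 : L.mul v1 v4 = v8) (h2 : L.mul v0 v6 = v9)
    (h3 : L.mul v3 v4 = v9) (h4 : L.mul v3 v5 = v11) (h5 : L.mul v0 v7 = v11)
    (h7 : L.mul v2 v5 = v12) (h8 : L.mul v2 v4 = v10)
    (h9 : L.mul v1 v6 = v10) : L.mul v1 v7 = v12 := by
  have e1 : L.mul v1 (L.ldiv v1 v12) = v12 := L.mul_ldiv _ _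
  have e2 := hU.u5 h0 h1 h2 h3 h4 e1 h7 h8 h9
  rw [← lcancel (e2.trans h5.symm)]
  exact e1

theorem UF.u8 (h0 : L.mul v0 v5 = v8) (h1 : L.mul v1 v4 = v8) (h2 : L.mul v0 v6 = v9)
    (h3 : L.mul v3 v4 = v9) (h4 : L.mul v3 v5 = v11) (h5 : L.mul v0 v7 = v11)
    (h6 : L.mul v1 v7 = v12) (h7 : L.mul v2 v5 = v12)
    (h9 : L.mul v1 v6 = v10) : L.mul v2 v4 = v10 := by
  have e1 : L.mul v1 (L.ldiv v1 (L.mul v2 v4)) = L.mul v2 v4 := L.mul_ldiv _ _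
  have e2 := hU.u2 h0 h1 h3 h4 h5 h6 h7 rfl e1
  rw [← e1, lcancel (e2.trans h2.symm)]
  exact h9

theorem UF.u9 (h0 : L.mul v0 v5 = v8) (h1 : L.mul v1 v4 = v8) (h2 : L.mul v0 v6 = v9)
    (h3 : L.mul v3 v4 = v9) (h4 : L.mul v3 v5 = v11) (h5 : L.mul v0 v7 = v11)
    (h6 : L.mul v1 v7 = v12) (h7 : L.mul v2 v5 = v12) (h8 : L.mul v2 v4 = v10) :
    L.mul v1 v6 = v10 :=
  (hU.u8 h0 h1 h2 h3 h4 h5 h6 h7 rfl).symm.trans h8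

theorem UF.u7 (h0 : L.mul v0 v5 = v8) (h1 : L.mul v1 v4 = v8) (h2 : L.mul v0 v6 = v9)
    (h3 : L.mul v3 v4 = v9) (h4 : L.mul v3 v5 = v11) (h5 : L.mul v0 v7 = v11)
    (h6 : L.mul v1 v7 = v12) (h8 : L.mul v2 v4 = v10)
    (h9 : L.mul v1 v6 = v10) : L.mul v2 v5 = v12 := by
  have e1 : L.mul (L.rdiv v12 v5) v5 = v12 := L.rdiv_mul _ _
  have e2 := hU.u8 h0 h1 h2 h3 h4 h5 h6 e1 h9
  rw [← rcancel (e2.trans h8.symm)]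
  exact e1

end closure

theorem ldiv_inv_eq {Q : Type*} {L : LoopStr Q} {x y : Q} (h : L.mul x y = L.one) :
    L.inv x = y := ldiv_eq h

/-- Commutative universally flexible loops have the semi-automorphic inverse property. -/
theorem UF.saip_of_comm {Q : Type*} {L : LoopStr Q} (hU : L.UF)
    (hC : ∀ x y, L.mul x y = L.mul y x) : L.SAIP := by
  intro q1 q3
  obtain ⟨q1', I1⟩ : ∃ q', L.mul q1 q' = L.one := ⟨_, L.mul_ldiv _ _⟩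
  have J1 := hU.isym I1
  obtain ⟨q3', I3⟩ : ∃ q', L.mul q3 q' = L.one := ⟨_, L.mul_ldiv _ _⟩
  have J3 := hU.isym I3
  obtain ⟨q5, h0⟩ : ∃ q, L.mul q1 q3 = q := ⟨_, rfl⟩
  obtain ⟨q5', I5⟩ : ∃ q', L.mul q5 q' = L.one := ⟨_, L.mul_ldiv _ _⟩
  have J5 := hU.isym I5
  obtain ⟨q7, h1⟩ : ∃ q, L.mul q5 q1 = q := ⟨_, rfl⟩
  obtain ⟨q7', I7⟩ : ∃ q', L.mul q7 q' = L.one := ⟨_, L.mul_ldiv _ _⟩
  have J7 := hU.isym I7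
  obtain ⟨q9, h2⟩ : ∃ q, L.mul q1' q3' = q := ⟨_, rfl⟩
  obtain ⟨q9', I9⟩ : ∃ q', L.mul q9 q' = L.one := ⟨_, L.mul_ldiv _ _⟩
  have J9 := hU.isym I9
  obtain ⟨q11, h3⟩ : ∃ q, L.mul q1 q1 = q := ⟨_, rfl⟩
  obtain ⟨q11', I11⟩ : ∃ q', L.mul q11 q' = L.one := ⟨_, L.mul_ldiv _ _⟩
  have J11 := hU.isym I11
  obtain ⟨q13, h4⟩ : ∃ q, L.mul q1' q7 = q := ⟨_, rfl⟩
  obtain ⟨q13', I13⟩ : ∃ q', L.mul q13 q' = L.one := ⟨_, L.mul_ldiv _ _⟩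
  have J13 := hU.isym I13
  obtain ⟨q15, h5⟩ : ∃ q, L.mul q q5 = q3 := ⟨_, L.rdiv_mul _ _⟩
  obtain ⟨q15', I15⟩ : ∃ q', L.mul q15 q' = L.one := ⟨_, L.mul_ldiv _ _⟩
  have J15 := hU.isym I15
  obtain ⟨q17, h6⟩ : ∃ q, L.mul q3 q7 = q := ⟨_, rfl⟩
  obtain ⟨q17', I17⟩ : ∃ q', L.mul q17 q' = L.one := ⟨_, L.mul_ldiv _ _⟩
  have J17 := hU.isym I17
  obtain ⟨q19, h7⟩ : ∃ q, L.mul q7 q9 = q := ⟨_, rfl⟩
  obtain ⟨q19', I19⟩ : ∃ q', L.mul q19 q' = L.one := ⟨_, L.mul_ldiv _ _⟩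
  have J19 := hU.isym I19
  obtain ⟨q21, h8⟩ : ∃ q, L.mul q11 q3 = q := ⟨_, rfl⟩
  obtain ⟨q21', I21⟩ : ∃ q', L.mul q21 q' = L.one := ⟨_, L.mul_ldiv _ _⟩
  have J21 := hU.isym I21
  obtain ⟨q23, h9⟩ : ∃ q, L.mul q11 q5 = q := ⟨_, rfl⟩
  obtain ⟨q23', I23⟩ : ∃ q', L.mul q23 q' = L.one := ⟨_, L.mul_ldiv _ _⟩
  have J23 := hU.isym I23
  obtain ⟨q25, h10⟩ : ∃ q, L.mul q11 q7 = q := ⟨_, rfl⟩
  obtain ⟨q25', I25⟩ : ∃ q', L.mul q25 q' = L.one := ⟨_, L.mul_ldiv _ _⟩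
  have J25 := hU.isym I25
  have h11 : L.mul q1' q11 = q1 :=
    hU.u8 h3 (L.one_mul _) h3 (L.one_mul _) (L.one_mul _) (L.mul_one _) (L.one_mul _) J1 (L.one_mul _)
  have h12 : L.mul q11' q1 = q1' :=
    hU.u7 h3 (L.one_mul _) (L.mul_one _) h11 J1 I1 (L.one_mul _) J11 (L.one_mul _)
  have h13 : L.mul q1 q21 = q23 :=
    hU.u2 h3 (L.one_mul _) ((hC _ _).trans h9) h1 ((hC _ _).trans h1) (L.one_mul _) ((hC _ _).trans h0) ((hC _ _).trans h8) (L.one_mul _)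
  have h14 : L.mul q1' q1' = q11' :=
    hU.u6 (L.mul_one _) h11 h3 (L.one_mul _) (L.one_mul _) I1 (L.mul_one _) J11 J1
  have h15 : L.mul q5 q13 = q17 :=
    hU.u2 h1 (L.one_mul _) h6 ((hC _ _).trans h0) (L.mul_one _) (L.one_mul _) J1 h4 (L.one_mul _)
  have h16 : L.mul q15 q7 = q5 :=
    hU.u5 h5 (L.one_mul _) h5 (L.one_mul _) (L.one_mul _) (L.one_mul _) ((hC _ _).trans h1) h0 (L.one_mul _)
  have h17 : L.mul q3 q15' = q13 :=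
    hU.u9 h5 (L.mul_one _) I15 (L.one_mul _) (L.one_mul _) h16 h6 ((hC _ _).trans h15) (L.mul_one _)
  have h18 : L.mul q13 q1 = q21 :=
    hU.u4 ((hC _ _).trans h0) (L.one_mul _) h6 ((hC _ _).trans h15) ((hC _ _).trans h8) (L.one_mul _) h3 ((hC _ _).trans h1) (L.one_mul _)
  have h19 : L.mul q15' q5 = q21 :=
    hU.u8 h0 (L.one_mul _) h13 h9 h8 ((hC _ _).trans h18) (L.one_mul _) ((hC _ _).trans h17) (L.one_mul _)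
  have h20 : L.mul q7' q15' = q9 :=
    hU.u7 h17 h4 ((hC _ _).trans h0) h16 I15 I3 h2 J7 J1
  have h21 : L.mul q15 q21 = q13 :=
    hU.u5 I15 (L.one_mul _) h5 (L.mul_one _) h17 (L.one_mul _) ((hC _ _).trans h19) (L.mul_one _) (L.one_mul _)
  have h22 : L.mul q23 q15 = q21 :=
    hU.u4 ((hC _ _).trans h5) (L.mul_one _) ((hC _ _).trans h9) (L.mul_one _) ((hC _ _).trans h19) h17 ((hC _ _).trans h21) (L.mul_one _) ((hC _ _).trans h8)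
  have h23 : L.mul q15' q7 = q23 :=
    hU.u2 J15 (L.one_mul _) (L.mul_one _) h22 h19 (L.one_mul _) ((hC _ _).trans h16) (L.mul_one _) (L.one_mul _)
  have h24 : L.mul q1 q23 = q25 :=
    hU.u2 ((hC _ _).trans h1) (L.one_mul _) h10 h9 h13 (L.one_mul _) h19 h23 (L.one_mul _)
  have h25 : L.mul q25 q15 = q23 :=
    hU.u8 (L.mul_one _) ((hC _ _).trans h16) ((hC _ _).trans h19) h22 (L.mul_one _) ((hC _ _).trans h9) ((hC _ _).trans h10) (L.mul_one _) ((hC _ _).trans h23)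
  have h26 : L.mul q7' q23 = q19 :=
    hU.u5 J7 (L.one_mul _) h20 (L.mul_one _) ((hC _ _).trans h7) (L.one_mul _) h23 (L.mul_one _) (L.one_mul _)
  have h27 : L.mul q9 q1' = q7' :=
    hU.u7 I1 J7 h24 h10 ((hC _ _).trans h11) (L.mul_one _) (L.mul_one _) ((hC _ _).trans h7) h26
  rw [ldiv_inv_eq I1, ldiv_inv_eq I3, h0, h1, ldiv_inv_eq I7, h2]
  exact h27.symm

/-- Universally flexible loops with the inverse property are Moufang. -/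
theorem UF.moufang_of_ip {Q : Type*} {L : LoopStr Q} (hU : L.UF) (hI : L.IP) : L.Moufang := by
  intro q1 q3 q5
  obtain ⟨q1', I1⟩ : ∃ q', L.mul q1 q' = L.one := ⟨_, L.mul_ldiv _ _⟩
  have J1 := hU.isym I1
  obtain ⟨q3', I3⟩ : ∃ q', L.mul q3 q' = L.one := ⟨_, L.mul_ldiv _ _⟩
  have J3 := hU.isym I3
  obtain ⟨q5', I5⟩ : ∃ q', L.mul q5 q' = L.one := ⟨_, L.mul_ldiv _ _⟩
  have J5 := hU.isym I5
  obtain ⟨q7, h0⟩ : ∃ q, L.mul q3 q5 = q := ⟨_, rfl⟩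
  obtain ⟨q7', I7⟩ : ∃ q', L.mul q7 q' = L.one := ⟨_, L.mul_ldiv _ _⟩
  have J7 := hU.isym I7
  obtain ⟨q9, h1⟩ : ∃ q, L.mul q1 q7 = q := ⟨_, rfl⟩
  obtain ⟨q9', I9⟩ : ∃ q', L.mul q9 q' = L.one := ⟨_, L.mul_ldiv _ _⟩
  have J9 := hU.isym I9
  obtain ⟨q11, h2⟩ : ∃ q, L.mul q9 q1 = q := ⟨_, rfl⟩
  obtain ⟨q11', I11⟩ : ∃ q', L.mul q11 q' = L.one := ⟨_, L.mul_ldiv _ _⟩
  have J11 := hU.isym I11
  obtain ⟨q13, h3⟩ : ∃ q, L.mul q1 q3 = q := ⟨_, rfl⟩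
  obtain ⟨q13', I13⟩ : ∃ q', L.mul q13 q' = L.one := ⟨_, L.mul_ldiv _ _⟩
  have J13 := hU.isym I13
  obtain ⟨q15, h4⟩ : ∃ q, L.mul q5 q1 = q := ⟨_, rfl⟩
  obtain ⟨q15', I15⟩ : ∃ q', L.mul q15 q' = L.one := ⟨_, L.mul_ldiv _ _⟩
  have J15 := hU.isym I15
  obtain ⟨q17, h5⟩ : ∃ q, L.mul q3 q5' = q := ⟨_, rfl⟩
  obtain ⟨q17', I17⟩ : ∃ q', L.mul q17 q' = L.one := ⟨_, L.mul_ldiv _ _⟩
  have J17 := hU.isym I17
  obtain ⟨q19, h6⟩ : ∃ q, L.mul q3 q9 = q := ⟨_, rfl⟩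
  obtain ⟨q19', I19⟩ : ∃ q', L.mul q19 q' = L.one := ⟨_, L.mul_ldiv _ _⟩
  have J19 := hU.isym I19
  obtain ⟨q21, h7⟩ : ∃ q, L.mul q3 q9' = q := ⟨_, rfl⟩
  obtain ⟨q21', I21⟩ : ∃ q', L.mul q21 q' = L.one := ⟨_, L.mul_ldiv _ _⟩
  have J21 := hU.isym I21
  obtain ⟨q23, h8⟩ : ∃ q, L.mul q3 q13 = q := ⟨_, rfl⟩
  obtain ⟨q23', I23⟩ : ∃ q', L.mul q23 q' = L.one := ⟨_, L.mul_ldiv _ _⟩
  have J23 := hU.isym I23
  obtain ⟨q25, h9⟩ : ∃ q, L.mul q5 q15 = q := ⟨_, rfl⟩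
  obtain ⟨q25', I25⟩ : ∃ q', L.mul q25 q' = L.one := ⟨_, L.mul_ldiv _ _⟩
  have J25 := hU.isym I25
  obtain ⟨q27, h10⟩ : ∃ q, L.mul q7 q9 = q := ⟨_, rfl⟩
  obtain ⟨q27', I27⟩ : ∃ q', L.mul q27 q' = L.one := ⟨_, L.mul_ldiv _ _⟩
  have J27 := hU.isym I27
  obtain ⟨q29, h11⟩ : ∃ q, L.mul q11 q7 = q := ⟨_, rfl⟩
  obtain ⟨q29', I29⟩ : ∃ q', L.mul q29 q' = L.one := ⟨_, L.mul_ldiv _ _⟩
  have J29 := hU.isym I29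
  obtain ⟨q31, h12⟩ : ∃ q, L.mul q7 q13 = q := ⟨_, rfl⟩
  obtain ⟨q31', I31⟩ : ∃ q', L.mul q31 q' = L.one := ⟨_, L.mul_ldiv _ _⟩
  have J31 := hU.isym I31
  obtain ⟨q33, h13⟩ : ∃ q, L.mul q15 q7 = q := ⟨_, rfl⟩
  obtain ⟨q33', I33⟩ : ∃ q', L.mul q33 q' = L.one := ⟨_, L.mul_ldiv _ _⟩
  have J33 := hU.isym I33
  obtain ⟨q35, h14⟩ : ∃ q, L.mul q9 q11 = q := ⟨_, rfl⟩
  obtain ⟨q35', I35⟩ : ∃ q', L.mul q35 q' = L.one := ⟨_, L.mul_ldiv _ _⟩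
  have J35 := hU.isym I35
  obtain ⟨q37, h15⟩ : ∃ q, L.mul q15' q9 = q := ⟨_, rfl⟩
  obtain ⟨q37', I37⟩ : ∃ q', L.mul q37 q' = L.one := ⟨_, L.mul_ldiv _ _⟩
  have J37 := hU.isym I37
  obtain ⟨q39, h16⟩ : ∃ q, L.mul q15' q13 = q := ⟨_, rfl⟩
  obtain ⟨q39', I39⟩ : ∃ q', L.mul q39 q' = L.one := ⟨_, L.mul_ldiv _ _⟩
  have J39 := hU.isym I39
  have h17 : L.mul q27 q29' = q1' :=
    hU.u9 h10 (L.mul_one _) (hI.n5 I11 I29 h11) (L.mul_one _) (hI.n4 I1 I11 h2) (hI.n5 I1 I9 h1) (hI.n2 I9 h10) (hI.n1 I1 h1) (L.mul_one _)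
  have h18 : L.mul q35' q29 = q1' :=
    hU.u4 (hI.n2 J29 h17) h10 (hI.n3 I9 I1 I11 h2) (hI.n4 I11 I35 h14) (L.mul_one _) (L.mul_one _) (hI.n1 I11 h11) (hI.n4 I1 I11 h2) (hI.n5 I1 I9 h1)
  have h19 : L.mul q37 q5' = q39 :=
    hU.u3 (L.mul_one _) (hI.n3 I5 I1 I15 h4) h16 (L.mul_one _) h15 (hI.n1 I1 h1) (L.mul_one _) (hI.n2 I5 h0) (hI.n1 I1 h3)
  have h20 : L.mul q23 q5 = q19 :=
    hU.u3 (hI.n5 I1 I13 h3) (hI.n4 I1 I15 h4) h6 (hI.n2 I13 h8) (L.mul_one _) (L.mul_one _) (hI.n2 I13 h16) (hI.n2 J5 h19) h15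
  have h21 : L.mul q31 q5 = q27 :=
    hU.u7 h0 (L.mul_one _) h8 (L.mul_one _) h20 h6 h10 (L.mul_one _) h12
  have h22 : L.mul q3 q33 = q27 :=
    hU.u2 (hI.n5 I1 I13 h3) (hI.n4 I1 I15 h4) h21 (hI.n2 I13 h12) h0 (hI.n4 I1 I15 h4) (hI.n5 I1 I13 h3) h0 (hI.n1 I15 h13)
  have h23 : L.mul q25' q33 = q37 :=
    hU.u8 (L.mul_one _) (hI.n1 I15 h13) h10 h22 (L.mul_one _) (hI.n2 I5 h0) (hI.n3 I5 I15 I25 h9) (L.mul_one _) h15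
  have h24 : L.mul q17 q33 = q19 :=
    hU.u7 (hI.n1 I15 h13) h0 (L.mul_one _) (hI.n4 I15 I25 h9) h23 h15 h6 (hI.n2 J5 h5) (L.mul_one _)
  have h25 : L.mul q19 q29' = q21 :=
    hU.u5 (hI.n2 I9 h6) (hI.n2 I5 h0) (hI.n2 I33 h24) h5 h7 (hI.n5 I11 I29 h11) (hI.n3 I9 I1 I11 h2) (hI.n3 I5 I1 I15 h4) (hI.n5 I15 I33 h13)
  have h26 : L.mul q11' q13 = q15' :=
    hU.u8 (hI.n2 I9 h6) (hI.n1 I1 h3) (hI.n2 I5 h20) h8 h7 h25 (hI.n2 I29 h18) (hI.n3 I9 I11 I35 h14) (hI.n3 I5 I1 I15 h4)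
  rw [h0, h1, h3, h4, h2]
  exact (hI.n5 J11 J15 h26).symm

theorem UF.suf {Q : Type*} {L : LoopStr Q} (hU : L.UF) : L.SUF :=
  ⟨fun a x y => hU L.one a x y, fun b x y => hU b L.one x y⟩

/-- Universally flexible loops with a one-sided inverse property or alternative law are Moufang. -/
theorem UF.moufang_of_weak {Q : Type*} {L : LoopStr Q} (hU : L.UF)
    (h : L.LIP ∨ L.RIP ∨ L.LAlt ∨ L.RAlt) : L.Moufang :=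
  hU.moufang_of_ip (hU.suf.ip_of_weak h)

theorem Hom.uf {Q N : Type*} {L : LoopStr Q} {M : LoopStr N} {φ : Q → N} (hφ : Hom L M φ)
    (hs : Function.Surjective φ) (hU : L.UF) : M.UF := by
  intro a b x y
  obtain ⟨a, rfl⟩ := hs a
  obtain ⟨b, rfl⟩ := hs b
  obtain ⟨x, rfl⟩ := hs x
  obtain ⟨y, rfl⟩ := hs y
  have := congrArg φ (hU a b x y)
  simpa only [iso, hφ _ _, hφ.ldiv, hφ.rdiv] using this

end LoopStr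

end Pool.Agent.V7H71.UF
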