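import Pool.Agent.V7H71.SufIP.UComm

/-!
# Universally flexible loops in which all squares are nuclear
-/

namespace Pool.Agent.V7H71.UF

namespace LoopStr

set_option linter.unusedVariables false
set_option linter.dupNamespace false

/-- All squares lie in the nucleus. -/
def SqNuc {Q : Type*} (L : LoopStr Q) : Prop := ∀ x, L.Nuclear (L.mul x x)

section closure

variable {Q : Type*} {L : LoopStr Q} (hN : L.SqNuc) {v0 v1 v2 v3 v4 v5 v6 : Q}
include hN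

theorem SqNuc.a3 (h0 : L.mul v0 v0 = v1) (h1 : L.mul v1 v2 = v3) (h2 : L.mul v2 v4 = v5)
    (h4 : L.mul v1 v5 = v6) : L.mul v3 v4 = v6 := by
  subst h0; rw [← h1, (hN v0).1, h2, h4]

theorem SqNuc.a4 (h0 : L.mul v0 v0 = v1) (h1 : L.mul v1 v2 = v3) (h2 : L.mul v2 v4 = v5)
    (h3 : L.mul v3 v4 = v6) : L.mul v1 v5 = v6 :=
  (hN.a3 h0 h1 h2 rfl).symm.trans h3

theorem SqNuc.a1 (h0 : L.mul v0 v0 = v1) (h2 : L.mul v2 v4 = v5) (h3 : L.mul v3 v4 = v6)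
    (h4 : L.mul v1 v5 = v6) : L.mul v1 v2 = v3 :=
  rcancel ((hN.a3 h0 rfl h2 h4).trans h3.symm)

theorem SqNuc.a2 (h0 : L.mul v0 v0 = v1) (h1 : L.mul v1 v2 = v3) (h3 : L.mul v3 v4 = v6)
    (h4 : L.mul v1 v5 = v6) : L.mul v2 v4 = v5 :=
  lcancel ((hN.a4 h0 h1 rfl h3).trans h4.symm)

theorem SqNuc.b2 (h0 : L.mul v0 v0 = v1) (h1 : L.mul v2 v1 = v3) (h3 : L.mul v1 v4 = v5)
    (h4 : L.mul v2 v5 = v6) : L.mul v3 v4 = v6 := by
  subst h0; rw [← h1, (hN v0).2.1, h3, h4]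

theorem SqNuc.b4 (h0 : L.mul v0 v0 = v1) (h1 : L.mul v2 v1 = v3) (h2 : L.mul v3 v4 = v6)
    (h3 : L.mul v1 v4 = v5) : L.mul v2 v5 = v6 :=
  (hN.b2 h0 h1 h3 rfl).symm.trans h2

theorem SqNuc.b1 (h0 : L.mul v0 v0 = v1) (h2 : L.mul v3 v4 = v6) (h3 : L.mul v1 v4 = v5)
    (h4 : L.mul v2 v5 = v6) : L.mul v2 v1 = v3 :=
  rcancel ((hN.b2 h0 rfl h3 h4).trans h2.symm)

theorem SqNuc.b3 (h0 : L.mul v0 v0 = v1) (h1 : L.mul v2 v1 = v3) (h2 : L.mul v3 v4 = v6)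
    (h4 : L.mul v2 v5 = v6) : L.mul v1 v4 = v5 :=
  lcancel ((hN.b4 h0 h1 h2 rfl).trans h4.symm)

theorem SqNuc.c2 (h0 : L.mul v0 v0 = v1) (h1 : L.mul v2 v4 = v3) (h3 : L.mul v4 v1 = v5)
    (h4 : L.mul v2 v5 = v6) : L.mul v3 v1 = v6 := by
  subst h0; rw [← h1, (hN v0).2.2, h3, h4]

theorem SqNuc.c4 (h0 : L.mul v0 v0 = v1) (h1 : L.mul v2 v4 = v3) (h2 : L.mul v3 v1 = v6)
    (h3 : L.mul v4 v1 = v5) : L.mul v2 v5 = v6 :=
  (hN.c2 h0 h1 h3 rfl).symm.trans h2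

theorem SqNuc.c1 (h0 : L.mul v0 v0 = v1) (h2 : L.mul v3 v1 = v6) (h3 : L.mul v4 v1 = v5)
    (h4 : L.mul v2 v5 = v6) : L.mul v2 v4 = v3 :=
  rcancel ((hN.c2 h0 rfl h3 h4).trans h2.symm)

theorem SqNuc.c3 (h0 : L.mul v0 v0 = v1) (h1 : L.mul v2 v4 = v3) (h2 : L.mul v3 v1 = v6)
    (h4 : L.mul v2 v5 = v6) : L.mul v4 v1 = v5 :=
  lcancel ((hN.c4 h0 h1 h2 rfl).trans h4.symm)

end closure

/-- Universally flexible loops with nuclear squares have the semi-automorphic inverse property. -/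
theorem UF.saip_of_sqNuc {Q : Type*} {L : LoopStr Q} (hU : L.UF) (hN : L.SqNuc) : L.SAIP := by
  intro q1 q3
  obtain ⟨q1', I1⟩ : ∃ q', L.mul q1 q' = L.one := ⟨_, L.mul_ldiv _ _⟩
  have J1 := hU.isym I1
  obtain ⟨q3', I3⟩ : ∃ q', L.mul q3 q' = L.one := ⟨_, L.mul_ldiv _ _⟩
  have J3 := hU.isym I3
  obtain ⟨q5, h0⟩ : ∃ q, L.mul q1 q3 = q := ⟨_, rfl⟩
  obtain ⟨q5', I5⟩ : ∃ q', L.mul q5 q' = L.one := ⟨_, L.mul_ldiv _ _⟩
  have J5 := hU.isym I5
  obtain ⟨q7, h1⟩ : ∃ q, L.mul q5 q1 = q := ⟨_, rfl⟩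
  obtain ⟨q7', I7⟩ : ∃ q', L.mul q7 q' = L.one := ⟨_, L.mul_ldiv _ _⟩
  have J7 := hU.isym I7
  obtain ⟨q9, h2⟩ : ∃ q, L.mul q1' q3' = q := ⟨_, rfl⟩
  obtain ⟨q9', I9⟩ : ∃ q', L.mul q9 q' = L.one := ⟨_, L.mul_ldiv _ _⟩
  have J9 := hU.isym I9
  obtain ⟨q11, h3⟩ : ∃ q, L.mul q1 q1 = q := ⟨_, rfl⟩
  obtain ⟨q11', I11⟩ : ∃ q', L.mul q11 q' = L.one := ⟨_, L.mul_ldiv _ _⟩
  have J11 := hU.isym I11
  obtain ⟨q13, h4⟩ : ∃ q, L.mul q q1 = q3 := ⟨_, L.rdiv_mul _ _⟩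
  obtain ⟨q13', I13⟩ : ∃ q', L.mul q13 q' = L.one := ⟨_, L.mul_ldiv _ _⟩
  have J13 := hU.isym I13
  obtain ⟨q15, h5⟩ : ∃ q, L.mul q1 q = q3 := ⟨_, L.mul_ldiv _ _⟩
  obtain ⟨q15', I15⟩ : ∃ q', L.mul q15 q' = L.one := ⟨_, L.mul_ldiv _ _⟩
  have J15 := hU.isym I15
  obtain ⟨q17, h6⟩ : ∃ q, L.mul q3 q = q1 := ⟨_, L.mul_ldiv _ _⟩
  obtain ⟨q17', I17⟩ : ∃ q', L.mul q17 q' = L.one := ⟨_, L.mul_ldiv _ _⟩
  have J17 := hU.isym I17
  obtain ⟨q19, h7⟩ : ∃ q, L.mul q1 q3' = q := ⟨_, rfl⟩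
  obtain ⟨q19', I19⟩ : ∃ q', L.mul q19 q' = L.one := ⟨_, L.mul_ldiv _ _⟩
  have J19 := hU.isym I19
  obtain ⟨q21, h8⟩ : ∃ q, L.mul q3' q1 = q := ⟨_, rfl⟩
  obtain ⟨q21', I21⟩ : ∃ q', L.mul q21 q' = L.one := ⟨_, L.mul_ldiv _ _⟩
  have J21 := hU.isym I21
  obtain ⟨q23, h9⟩ : ∃ q, L.mul q1 q = q3' := ⟨_, L.mul_ldiv _ _⟩
  obtain ⟨q23', I23⟩ : ∃ q', L.mul q23 q' = L.one := ⟨_, L.mul_ldiv _ _⟩
  have J23 := hU.isym I23
  obtain ⟨q25, h10⟩ : ∃ q, L.mul q q1 = q5 := ⟨_, L.rdiv_mul _ _⟩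
  obtain ⟨q25', I25⟩ : ∃ q', L.mul q25 q' = L.one := ⟨_, L.mul_ldiv _ _⟩
  have J25 := hU.isym I25
  obtain ⟨q27, h11⟩ : ∃ q, L.mul q5 q = q1 := ⟨_, L.mul_ldiv _ _⟩
  obtain ⟨q27', I27⟩ : ∃ q', L.mul q27 q' = L.one := ⟨_, L.mul_ldiv _ _⟩
  have J27 := hU.isym I27
  obtain ⟨q29, h12⟩ : ∃ q, L.mul q1 q5' = q := ⟨_, rfl⟩
  obtain ⟨q29', I29⟩ : ∃ q', L.mul q29 q' = L.one := ⟨_, L.mul_ldiv _ _⟩
  have J29 := hU.isym I29
  obtain ⟨q31, h13⟩ : ∃ q, L.mul q5' q = q1 := ⟨_, L.mul_ldiv _ _⟩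
  obtain ⟨q31', I31⟩ : ∃ q', L.mul q31 q' = L.one := ⟨_, L.mul_ldiv _ _⟩
  have J31 := hU.isym I31
  obtain ⟨q33, h14⟩ : ∃ q, L.mul q q1 = q9 := ⟨_, L.rdiv_mul _ _⟩
  obtain ⟨q33', I33⟩ : ∃ q', L.mul q33 q' = L.one := ⟨_, L.mul_ldiv _ _⟩
  have J33 := hU.isym I33
  obtain ⟨q35, h15⟩ : ∃ q, L.mul q1 q = q9 := ⟨_, L.mul_ldiv _ _⟩
  obtain ⟨q35', I35⟩ : ∃ q', L.mul q35 q' = L.one := ⟨_, L.mul_ldiv _ _⟩
  have J35 := hU.isym I35
  obtain ⟨q37, h16⟩ : ∃ q, L.mul q1 q = q9' := ⟨_, L.mul_ldiv _ _⟩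
  obtain ⟨q37', I37⟩ : ∃ q', L.mul q37 q' = L.one := ⟨_, L.mul_ldiv _ _⟩
  have J37 := hU.isym I37
  obtain ⟨q39, h17⟩ : ∃ q, L.mul q q1' = q3 := ⟨_, L.rdiv_mul _ _⟩
  obtain ⟨q39', I39⟩ : ∃ q', L.mul q39 q' = L.one := ⟨_, L.mul_ldiv _ _⟩
  have J39 := hU.isym I39
  obtain ⟨q41, h18⟩ : ∃ q, L.mul q3 q = q1' := ⟨_, L.mul_ldiv _ _⟩
  obtain ⟨q41', I41⟩ : ∃ q', L.mul q41 q' = L.one := ⟨_, L.mul_ldiv _ _⟩
  have J41 := hU.isym I41
  obtain ⟨q43, h19⟩ : ∃ q, L.mul q q1' = q3' := ⟨_, L.rdiv_mul _ _⟩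
  obtain ⟨q43', I43⟩ : ∃ q', L.mul q43 q' = L.one := ⟨_, L.mul_ldiv _ _⟩
  have J43 := hU.isym I43
  obtain ⟨q45, h20⟩ : ∃ q, L.mul q1' q = q3' := ⟨_, L.mul_ldiv _ _⟩
  obtain ⟨q45', I45⟩ : ∃ q', L.mul q45 q' = L.one := ⟨_, L.mul_ldiv _ _⟩
  have J45 := hU.isym I45
  obtain ⟨q47, h21⟩ : ∃ q, L.mul q3' q = q1' := ⟨_, L.mul_ldiv _ _⟩
  obtain ⟨q47', I47⟩ : ∃ q', L.mul q47 q' = L.one := ⟨_, L.mul_ldiv _ _⟩
  have J47 := hU.isym I47
  obtain ⟨q49, h22⟩ : ∃ q, L.mul q1' q5 = q := ⟨_, rfl⟩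
  obtain ⟨q49', I49⟩ : ∃ q', L.mul q49 q' = L.one := ⟨_, L.mul_ldiv _ _⟩
  have J49 := hU.isym I49
  obtain ⟨q51, h23⟩ : ∃ q, L.mul q1' q = q5 := ⟨_, L.mul_ldiv _ _⟩
  obtain ⟨q51', I51⟩ : ∃ q', L.mul q51 q' = L.one := ⟨_, L.mul_ldiv _ _⟩
  have J51 := hU.isym I51
  obtain ⟨q53, h24⟩ : ∃ q, L.mul q q5' = q1' := ⟨_, L.rdiv_mul _ _⟩
  obtain ⟨q53', I53⟩ : ∃ q', L.mul q53 q' = L.one := ⟨_, L.mul_ldiv _ _⟩
  have J53 := hU.isym I53
  obtain ⟨q55, h25⟩ : ∃ q, L.mul q q1' = q7 := ⟨_, L.rdiv_mul _ _⟩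
  obtain ⟨q55', I55⟩ : ∃ q', L.mul q55 q' = L.one := ⟨_, L.mul_ldiv _ _⟩
  have J55 := hU.isym I55
  obtain ⟨q57, h26⟩ : ∃ q, L.mul q9 q1' = q := ⟨_, rfl⟩
  obtain ⟨q57', I57⟩ : ∃ q', L.mul q57 q' = L.one := ⟨_, L.mul_ldiv _ _⟩
  have J57 := hU.isym I57
  obtain ⟨q59, h27⟩ : ∃ q, L.mul q3 q3 = q := ⟨_, rfl⟩
  obtain ⟨q59', I59⟩ : ∃ q', L.mul q59 q' = L.one := ⟨_, L.mul_ldiv _ _⟩
  have J59 := hU.isym I59
  obtain ⟨q61, h28⟩ : ∃ q, L.mul q q5 = q3 := ⟨_, L.rdiv_mul _ _⟩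
  obtain ⟨q61', I61⟩ : ∃ q', L.mul q61 q' = L.one := ⟨_, L.mul_ldiv _ _⟩
  have J61 := hU.isym I61
  obtain ⟨q63, h29⟩ : ∃ q, L.mul q q5' = q3 := ⟨_, L.rdiv_mul _ _⟩
  obtain ⟨q63', I63⟩ : ∃ q', L.mul q63 q' = L.one := ⟨_, L.mul_ldiv _ _⟩
  have J63 := hU.isym I63
  obtain ⟨q65, h30⟩ : ∃ q, L.mul q5' q = q3 := ⟨_, L.mul_ldiv _ _⟩
  obtain ⟨q65', I65⟩ : ∃ q', L.mul q65 q' = L.one := ⟨_, L.mul_ldiv _ _⟩
  have J65 := hU.isym I65
  obtain ⟨q67, h31⟩ : ∃ q, L.mul q q3 = q7 := ⟨_, L.rdiv_mul _ _⟩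
  obtain ⟨q67', I67⟩ : ∃ q', L.mul q67 q' = L.one := ⟨_, L.mul_ldiv _ _⟩
  have J67 := hU.isym I67
  obtain ⟨q69, h32⟩ : ∃ q, L.mul q9 q = q3 := ⟨_, L.mul_ldiv _ _⟩
  obtain ⟨q69', I69⟩ : ∃ q', L.mul q69 q' = L.one := ⟨_, L.mul_ldiv _ _⟩
  have J69 := hU.isym I69
  obtain ⟨q71, h33⟩ : ∃ q, L.mul q q3' = q5 := ⟨_, L.rdiv_mul _ _⟩
  obtain ⟨q71', I71⟩ : ∃ q', L.mul q71 q' = L.one := ⟨_, L.mul_ldiv _ _⟩
  have J71 := hU.isym I71
  obtain ⟨q73, h34⟩ : ∃ q, L.mul q5' q3' = q := ⟨_, rfl⟩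
  obtain ⟨q73', I73⟩ : ∃ q', L.mul q73 q' = L.one := ⟨_, L.mul_ldiv _ _⟩
  have J73 := hU.isym I73
  obtain ⟨q75, h35⟩ : ∃ q, L.mul q q3' = q5' := ⟨_, L.rdiv_mul _ _⟩
  obtain ⟨q75', I75⟩ : ∃ q', L.mul q75 q' = L.one := ⟨_, L.mul_ldiv _ _⟩
  have J75 := hU.isym I75
  obtain ⟨q77, h36⟩ : ∃ q, L.mul q5' q = q3' := ⟨_, L.mul_ldiv _ _⟩
  obtain ⟨q77', I77⟩ : ∃ q', L.mul q77 q' = L.one := ⟨_, L.mul_ldiv _ _⟩
  have J77 := hU.isym I77
  obtain ⟨q79, h37⟩ : ∃ q, L.mul q q3' = q7 := ⟨_, L.rdiv_mul _ _⟩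
  obtain ⟨q79', I79⟩ : ∃ q', L.mul q79 q' = L.one := ⟨_, L.mul_ldiv _ _⟩
  have J79 := hU.isym I79
  obtain ⟨q81, h38⟩ : ∃ q, L.mul q9 q = q3' := ⟨_, L.mul_ldiv _ _⟩
  obtain ⟨q81', I81⟩ : ∃ q', L.mul q81 q' = L.one := ⟨_, L.mul_ldiv _ _⟩
  have J81 := hU.isym I81
  obtain ⟨q83, h39⟩ : ∃ q, L.mul q9' q3' = q := ⟨_, rfl⟩
  obtain ⟨q83', I83⟩ : ∃ q', L.mul q83 q' = L.one := ⟨_, L.mul_ldiv _ _⟩
  have J83 := hU.isym I83
  obtain ⟨q85, h40⟩ : ∃ q, L.mul q q3' = q9' := ⟨_, L.rdiv_mul _ _⟩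
  obtain ⟨q85', I85⟩ : ∃ q', L.mul q85 q' = L.one := ⟨_, L.mul_ldiv _ _⟩
  have J85 := hU.isym I85
  obtain ⟨q87, h41⟩ : ∃ q, L.mul q5 q5 = q := ⟨_, rfl⟩
  obtain ⟨q87', I87⟩ : ∃ q', L.mul q87 q' = L.one := ⟨_, L.mul_ldiv _ _⟩
  have J87 := hU.isym I87
  obtain ⟨q89, h42⟩ : ∃ q, L.mul q q5 = q7 := ⟨_, L.rdiv_mul _ _⟩
  obtain ⟨q89', I89⟩ : ∃ q', L.mul q89 q' = L.one := ⟨_, L.mul_ldiv _ _⟩
  have J89 := hU.isym I89
  obtain ⟨q91, h43⟩ : ∃ q, L.mul q q5' = q7 := ⟨_, L.rdiv_mul _ _⟩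
  obtain ⟨q91', I91⟩ : ∃ q', L.mul q91 q' = L.one := ⟨_, L.mul_ldiv _ _⟩
  have J91 := hU.isym I91
  obtain ⟨q93, h44⟩ : ∃ q, L.mul q5' q9 = q := ⟨_, rfl⟩
  obtain ⟨q93', I93⟩ : ∃ q', L.mul q93 q' = L.one := ⟨_, L.mul_ldiv _ _⟩
  have J93 := hU.isym I93
  obtain ⟨q95, h45⟩ : ∃ q, L.mul q9 q5' = q := ⟨_, rfl⟩
  obtain ⟨q95', I95⟩ : ∃ q', L.mul q95 q' = L.one := ⟨_, L.mul_ldiv _ _⟩
  have J95 := hU.isym I95
  obtain ⟨q97, h46⟩ : ∃ q, L.mul q5' q = q9 := ⟨_, L.mul_ldiv _ _⟩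
  obtain ⟨q97', I97⟩ : ∃ q', L.mul q97 q' = L.one := ⟨_, L.mul_ldiv _ _⟩
  have J97 := hU.isym I97
  obtain ⟨q99, h47⟩ : ∃ q, L.mul q5' q9' = q := ⟨_, rfl⟩
  obtain ⟨q99', I99⟩ : ∃ q', L.mul q99 q' = L.one := ⟨_, L.mul_ldiv _ _⟩
  have J99 := hU.isym I99
  obtain ⟨q101, h48⟩ : ∃ q, L.mul q9 q9 = q := ⟨_, rfl⟩
  obtain ⟨q101', I101⟩ : ∃ q', L.mul q101 q' = L.one := ⟨_, L.mul_ldiv _ _⟩
  have J101 := hU.isym I101
  obtain ⟨q103, h49⟩ : ∃ q, L.mul q q11 = q3 := ⟨_, L.rdiv_mul _ _⟩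
  obtain ⟨q103', I103⟩ : ∃ q', L.mul q103 q' = L.one := ⟨_, L.mul_ldiv _ _⟩
  have J103 := hU.isym I103
  obtain ⟨q105, h50⟩ : ∃ q, L.mul q11 q = q3 := ⟨_, L.mul_ldiv _ _⟩
  obtain ⟨q105', I105⟩ : ∃ q', L.mul q105 q' = L.one := ⟨_, L.mul_ldiv _ _⟩
  have J105 := hU.isym I105
  obtain ⟨q107, h51⟩ : ∃ q, L.mul q q11 = q5 := ⟨_, L.rdiv_mul _ _⟩
  obtain ⟨q107', I107⟩ : ∃ q', L.mul q107 q' = L.one := ⟨_, L.mul_ldiv _ _⟩
  have J107 := hU.isym I107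
  obtain ⟨q109, h52⟩ : ∃ q, L.mul q9 q11 = q := ⟨_, rfl⟩
  obtain ⟨q109', I109⟩ : ∃ q', L.mul q109 q' = L.one := ⟨_, L.mul_ldiv _ _⟩
  have J109 := hU.isym I109
  obtain ⟨q111, h53⟩ : ∃ q, L.mul q11 q = q9 := ⟨_, L.mul_ldiv _ _⟩
  obtain ⟨q111', I111⟩ : ∃ q', L.mul q111 q' = L.one := ⟨_, L.mul_ldiv _ _⟩
  have J111 := hU.isym I111
  obtain ⟨q113, h54⟩ : ∃ q, L.mul q13 q5 = q := ⟨_, rfl⟩
  obtain ⟨q113', I113⟩ : ∃ q', L.mul q113 q' = L.one := ⟨_, L.mul_ldiv _ _⟩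
  have J113 := hU.isym I113
  obtain ⟨q115, h55⟩ : ∃ q, L.mul q13 q5' = q := ⟨_, rfl⟩
  obtain ⟨q115', I115⟩ : ∃ q', L.mul q115 q' = L.one := ⟨_, L.mul_ldiv _ _⟩
  have J115 := hU.isym I115
  have h56 : L.mul q1' q11 = q1 :=
    hU.u8 h3 (L.one_mul _) h3 (L.one_mul _) (L.one_mul _) (L.mul_one _) (L.one_mul _) J1 (L.one_mul _)
  have h57 : L.mul q11 q1' = q1 :=
    hU.u9 h3 (L.mul_one _) I1 (L.one_mul _) (L.one_mul _) (L.mul_one _) (L.mul_one _) h3 (L.mul_one _)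
  have h58 : L.mul q1 q11' = q1' :=
    hU.u6 (L.mul_one _) h3 h57 (L.one_mul _) (L.one_mul _) I11 (L.mul_one _) J1 I1
  have h59 : L.mul q1' q1' = q11' :=
    hU.u6 (L.mul_one _) h56 h3 (L.one_mul _) (L.one_mul _) I1 (L.mul_one _) J11 J1
  have h60 : L.mul q3 q105' = q11 :=
    hN.a3 h3 h50 I105 (L.mul_one _)
  have h61 : L.mul q105 q17 = q1' :=
    hN.a2 h3 h50 h6 h57
  have h62 : L.mul q105 q3' = q11' :=
    hN.a2 h3 h50 I3 I11
  have h63 : L.mul q9 q111' = q11 :=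
    hN.a3 h3 h53 I111 (L.mul_one _)
  have h64 : L.mul q111 q69 = q105 :=
    hN.a2 h3 h53 h32 h50
  have h65 : L.mul q111 q9' = q11' :=
    hN.a2 h3 h53 I9 I11
  have h66 : L.mul q1' q15 = q105 :=
    hN.a2 h3 h57 h5 h50
  have h67 : L.mul q1' q35 = q111 :=
    hN.a2 h3 h57 h15 h53
  have h68 : L.mul q11 q9 = q19 :=
    hN.a4 h3 h57 h2 h7
  have h69 : L.mul q11' q3 = q105 :=
    hN.a2 h3 I11 (L.one_mul _) h50
  have h70 : L.mul q11' q9 = q111 :=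
    hN.a2 h3 I11 (L.one_mul _) h53
  have h71 : L.mul q11' q1 = q1' :=
    hN.a2 h3 I11 (L.one_mul _) h57
  have h72 : L.mul q11' q19 = q9 :=
    hN.a2 h3 I11 (L.one_mul _) h68
  have h73 : L.mul q3 q11' = q103 :=
    hN.b2 h3 h49 I11 (L.mul_one _)
  have h74 : L.mul q11 q3' = q103' :=
    hN.b3 h3 h49 I3 I103
  have h75 : L.mul q5 q11' = q107 :=
    hN.b2 h3 h51 I11 (L.mul_one _)
  have h76 : L.mul q11 q5' = q107' :=
    hN.b3 h3 h51 I5 I107
  have h77 : L.mul q11 q109' = q9' :=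
    hN.b3 h3 h52 I109 I9
  have h78 : L.mul q109 q111 = q101 :=
    hN.b2 h3 h52 h53 h48
  have h79 : L.mul q109 q11' = q9 :=
    hN.b2 h3 h52 I11 (L.mul_one _)
  have h80 : L.mul q1' q103' = q19 :=
    hN.b4 h3 h56 h7 h74
  have h81 : L.mul q1' q107' = q29 :=
    hN.b4 h3 h56 h12 h76
  have h82 : L.mul q11 q3 = q51 :=
    hN.b3 h3 h56 h0 h23
  have h83 : L.mul q11 q23 = q45 :=
    hN.b3 h3 h56 h9 h20
  have h84 : L.mul q11 q35 = q3' :=
    hN.b3 h3 h56 h15 h2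
  have h85 : L.mul q11' q103' = q3' :=
    hN.b4 h3 J11 (L.one_mul _) h74
  have h86 : L.mul q11' q107' = q5' :=
    hN.b4 h3 J11 (L.one_mul _) h76
  have h87 : L.mul q11' q9' = q109' :=
    hN.b4 h3 J11 (L.one_mul _) h77
  have h88 : L.mul q11' q51 = q3 :=
    hN.b4 h3 J11 (L.one_mul _) h82
  have h89 : L.mul q11' q45 = q23 :=
    hN.b4 h3 J11 (L.one_mul _) h83
  have h90 : L.mul q11' q3' = q35 :=
    hN.b4 h3 J11 (L.one_mul _) h84
  have h91 : L.mul q3' q11 = q105' :=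
    hN.b1 h3 J105 h50 J3
  have h92 : L.mul q9' q11 = q111' :=
    hN.b1 h3 J111 h53 J9
  have h93 : L.mul q13 q11 = q39 :=
    hN.b1 h3 h17 h57 h4
  have h94 : L.mul q5 q11 = q55 :=
    hN.b1 h3 h25 h57 h1
  have h95 : L.mul q19' q11 = q9' :=
    hN.b1 h3 J9 h68 J19
  have h96 : L.mul q51' q11 = q3' :=
    hN.b1 h3 J3 h82 J51
  have h97 : L.mul q45' q11 = q23' :=
    hN.b1 h3 J23 h83 J45
  have h98 : L.mul q3 q11 = q35' :=
    hN.b1 h3 J35 h84 I3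
  have h99 : L.mul q13 q1' = q103 :=
    hN.c1 h3 h49 h56 h4
  have h100 : L.mul q61 q107 = q103 :=
    hN.c1 h3 h49 h51 h28
  have h101 : L.mul q1 q103 = q107 :=
    hN.c1 h3 h51 h49 h0
  have h102 : L.mul q25 q1' = q107 :=
    hN.c1 h3 h51 h56 h10
  have h103 : L.mul q71 q51' = q107 :=
    hN.c1 h3 h51 h96 h33
  have h104 : L.mul q1' q105' = q109 :=
    hN.c4 h3 h2 h52 h91
  have h105 : L.mul q41 q11 = q17 :=
    hN.c3 h3 h18 h56 h6
  have h106 : L.mul q105' q11' = q3' :=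
    hN.c1 h3 h91 J11 (L.mul_one _)
  have h107 : L.mul q43 q1 = q105' :=
    hN.c4 h3 h19 h91 h56
  have h108 : L.mul q111' q11' = q9' :=
    hN.c1 h3 h92 J11 (L.mul_one _)
  have h109 : L.mul q85 q105' = q111' :=
    hN.c4 h3 h40 h92 h91
  have h110 : L.mul q39 q11' = q13 :=
    hN.c1 h3 h93 J11 (L.mul_one _)
  have h111 : L.mul q55 q11' = q5 :=
    hN.c1 h3 h94 J11 (L.mul_one _)
  have h112 : L.mul q1 q35' = q55 :=
    hN.c4 h3 h0 h94 h98
  have h113 : L.mul q71 q105' = q55 :=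
    hN.c4 h3 h33 h94 h91
  have h114 : L.mul q85 q51' = q19' :=
    hN.c1 h3 h95 h96 h40
  have h115 : L.mul q9' q11' = q19' :=
    hN.c1 h3 h95 J11 (L.mul_one _)
  have h116 : L.mul q3' q11' = q51' :=
    hN.c1 h3 h96 J11 (L.mul_one _)
  have h117 : L.mul q23' q11' = q45' :=
    hN.c1 h3 h97 J11 (L.mul_one _)
  have h118 : L.mul q35' q11' = q3 :=
    hN.c1 h3 h98 J11 (L.mul_one _)
  have h119 : L.mul q39 q1 = q35' :=
    hN.c4 h3 h17 h98 h56
  have h120 : L.mul q61 q55 = q35' :=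
    hN.c4 h3 h28 h98 h94
  have h121 : L.mul q1 q13 = q25 :=
    hU.u5 (L.mul_one _) (L.one_mul _) h0 h10 (L.mul_one _) (L.one_mul _) (L.mul_one _) h4 (L.one_mul _)
  have h122 : L.mul q61 q3 = q15 :=
    hU.u7 h0 (L.one_mul _) h0 (L.one_mul _) (L.one_mul _) h5 (L.one_mul _) h28 (L.one_mul _)
  have h123 : L.mul q17 q11' = q41 :=
    hN.c3 h59 h6 h58 h18
  have h124 : L.mul q105' q1' = q21 :=
    hN.b4 h59 h106 h8 h71
  have h125 : L.mul q1' q23 = q35 :=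
    hN.a3 h59 h71 h9 h90
  have h126 : L.mul q1 q45 = q103' :=
    hU.u2 h15 h2 h74 h84 h9 h125 (L.one_mul _) (L.one_mul _) h20
  have h127 : L.mul q1' q37 = q109' :=
    hN.a3 h59 h71 h16 h87
  have h128 : L.mul q51 q41 = q1 :=
    hN.a3 h3 h82 h18 h57
  have h129 : L.mul q103' q47 = q1 :=
    hN.a3 h3 h74 h21 h57
  have h130 : L.mul q3' q59 = q3 :=
    hU.u8 h27 (L.one_mul _) h27 (L.one_mul _) (L.one_mul _) (L.mul_one _) (L.one_mul _) J3 (L.one_mul _)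
  have h131 : L.mul q59 q3' = q3 :=
    hU.u9 h27 (L.mul_one _) I3 (L.one_mul _) (L.one_mul _) (L.mul_one _) (L.mul_one _) h27 (L.mul_one _)
  have h132 : L.mul q3 q59' = q3' :=
    hU.u6 (L.mul_one _) h27 h131 (L.one_mul _) (L.one_mul _) I59 (L.mul_one _) J3 I3
  have h133 : L.mul q3' q3' = q59' :=
    hU.u6 (L.mul_one _) h130 h27 (L.one_mul _) (L.one_mul _) I3 (L.mul_one _) J59 J3
  have h134 : L.mul q59 q105' = q35' :=
    hN.a4 h27 h131 h91 h98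
  have h135 : L.mul q59 q51' = q103 :=
    hN.a4 h27 h131 h116 h73
  have h136 : L.mul q59' q3 = q3' :=
    hN.a2 h27 I59 (L.one_mul _) h131
  have h137 : L.mul q59' q35' = q105' :=
    hN.a2 h27 I59 (L.one_mul _) h134
  have h138 : L.mul q59' q103 = q51' :=
    hN.a2 h27 I59 (L.one_mul _) h135
  have h139 : L.mul q59 q43 = q39 :=
    hN.a1 h27 h19 h17 h131
  have h140 : L.mul q3' q35' = q11 :=
    hN.b4 h27 h130 h60 h134
  have h141 : L.mul q59 q41 = q47 :=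
    hN.b3 h27 h130 h18 h21
  have h142 : L.mul q59' q39 = q43 :=
    hN.b4 h27 J59 (L.one_mul _) h139
  have h143 : L.mul q59' q47 = q41 :=
    hN.b4 h27 J59 (L.one_mul _) h141
  have h144 : L.mul q1 q59 = q71 :=
    hN.b1 h27 h33 h131 h0
  have h145 : L.mul q67 q59 = q79 :=
    hN.b1 h27 h37 h131 h31
  have h146 : L.mul q35 q59 = q105 :=
    hN.b1 h27 I105 h134 I35
  have h147 : L.mul q103' q59 = q51 :=
    hN.b1 h27 I51 h135 J103
  have h148 : L.mul q39' q59 = q43' :=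
    hN.b1 h27 J43 h139 J39
  have h149 : L.mul q47' q59 = q41' :=
    hN.b1 h27 J41 h141 J47
  have h150 : L.mul q35' q105 = q59 :=
    hN.b4 h59 h118 h27 h69
  have h151 : L.mul q103 q51 = q59 :=
    hN.b4 h3 h49 h27 h82
  have h152 : L.mul q23 q59 = q15 :=
    hN.c3 h27 h9 h130 h5
  have h153 : L.mul q77 q59 = q65 :=
    hN.c3 h27 h36 h130 h30
  have h154 : L.mul q81 q59 = q69 :=
    hN.c3 h27 h38 h130 h32
  have h155 : L.mul q71 q59' = q1 :=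
    hN.c1 h27 h144 J59 (L.mul_one _)
  have h156 : L.mul q79 q59' = q67 :=
    hN.c1 h27 h145 J59 (L.mul_one _)
  have h157 : L.mul q111 q81 = q35 :=
    hN.c1 h27 h146 h154 h64
  have h158 : L.mul q105 q59' = q35 :=
    hN.c1 h27 h146 J59 (L.mul_one _)
  have h159 : L.mul q51 q59' = q103' :=
    hN.c1 h27 h147 J59 (L.mul_one _)
  have h160 : L.mul q43' q59' = q39' :=
    hN.c1 h27 h148 J59 (L.mul_one _)
  have h161 : L.mul q41' q59' = q47' :=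
    hN.c1 h27 h149 J59 (L.mul_one _)
  have h162 : L.mul q19 q59 = q5 :=
    hN.c2 h27 h7 h130 h0
  have h163 : L.mul q61 q19 = q3' :=
    hN.c1 h27 h130 h162 h28
  have h164 : L.mul q107' q65 = q51 :=
    hN.a3 h3 h76 h30 h82
  have h165 : L.mul q65 q59' = q77 :=
    hN.c3 h133 h30 h132 h36
  have h166 : L.mul q19 q69 = q51 :=
    hN.a3 h3 h68 h32 h82
  have h167 : L.mul q69 q59' = q81 :=
    hN.c3 h133 h32 h132 h38
  have h168 : L.mul q107' q77 = q103' :=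
    hN.a3 h3 h76 h36 h74
  have h169 : L.mul q19 q81 = q103' :=
    hN.a3 h3 h68 h38 h74
  have h170 : L.mul q19' q103' = q83 :=
    hN.b4 h3 h95 h39 h74
  have h171 : L.mul q111' q35 = q83 :=
    hN.b4 h59 h108 h39 h90
  have h172 : L.mul q5' q87 = q5 :=
    hU.u8 h41 (L.one_mul _) h41 (L.one_mul _) (L.one_mul _) (L.mul_one _) (L.one_mul _) J5 (L.one_mul _)
  have h173 : L.mul q87 q5' = q5 :=
    hU.u9 h41 (L.mul_one _) I5 (L.one_mul _) (L.one_mul _) (L.mul_one _) (L.mul_one _) h41 (L.mul_one _)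
  have h174 : L.mul q5 q87' = q5' :=
    hU.u6 (L.mul_one _) h41 h173 (L.one_mul _) (L.one_mul _) I87 (L.mul_one _) J5 I5
  have h175 : L.mul q5' q5' = q87' :=
    hU.u6 (L.mul_one _) h172 h41 (L.one_mul _) (L.one_mul _) I5 (L.mul_one _) J87 J5
  have h176 : L.mul q87' q5 = q5' :=
    hN.a2 h41 I87 (L.one_mul _) h173
  have h177 : L.mul q87 q75 = q71 :=
    hN.a1 h41 h35 h33 h173
  have h178 : L.mul q87 q27 = q31 :=
    hN.b3 h41 h172 h11 h13
  have h179 : L.mul q87' q71 = q75 :=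
    hN.b4 h41 J87 (L.one_mul _) h177
  have h180 : L.mul q87' q31 = q27 :=
    hN.b4 h41 J87 (L.one_mul _) h178
  have h181 : L.mul q61 q87 = q63 :=
    hN.b1 h41 h29 h173 h28
  have h182 : L.mul q89 q87 = q91 :=
    hN.b1 h41 h43 h173 h42
  have h183 : L.mul q71' q87 = q75' :=
    hN.b1 h41 J75 h177 J71
  have h184 : L.mul q31' q87 = q27' :=
    hN.b1 h41 J27 h178 J31
  have h185 : L.mul q63 q87' = q61 :=
    hN.c1 h41 h181 J87 (L.mul_one _)
  have h186 : L.mul q91 q87' = q89 :=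
    hN.c1 h41 h182 J87 (L.mul_one _)
  have h187 : L.mul q75' q87' = q71' :=
    hN.c1 h41 h183 J87 (L.mul_one _)
  have h188 : L.mul q27' q87' = q31' :=
    hN.c1 h41 h184 J87 (L.mul_one _)
  have h189 : L.mul q115 q87 = q113 :=
    hN.c2 h41 h55 h172 h54
  have h190 : L.mul q107' q97 = q19 :=
    hN.a3 h3 h76 h46 h68
  have h191 : L.mul q9' q101 = q9 :=
    hU.u8 h48 (L.one_mul _) h48 (L.one_mul _) (L.one_mul _) (L.mul_one _) (L.one_mul _) J9 (L.one_mul _)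
  have h192 : L.mul q101 q9' = q9 :=
    hU.u9 h48 (L.mul_one _) I9 (L.one_mul _) (L.one_mul _) (L.mul_one _) (L.mul_one _) h48 (L.mul_one _)
  have h193 : L.mul q9 q101' = q9' :=
    hU.u6 (L.mul_one _) h48 h192 (L.one_mul _) (L.one_mul _) I101 (L.mul_one _) J9 I9
  have h194 : L.mul q9' q9' = q101' :=
    hU.u6 (L.mul_one _) h191 h48 (L.one_mul _) (L.one_mul _) I9 (L.mul_one _) J101 J9
  have h195 : L.mul q101 q111' = q109 :=
    hN.a4 h48 h192 h92 h52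
  have h196 : L.mul q101' q9 = q9' :=
    hN.a2 h48 I101 (L.one_mul _) h192
  have h197 : L.mul q101' q109 = q111' :=
    hN.a2 h48 I101 (L.one_mul _) h195
  have h198 : L.mul q101 q85 = q1' :=
    hN.a1 h48 h40 h2 h192
  have h199 : L.mul q9' q109 = q11 :=
    hN.b4 h48 h191 h63 h195
  have h200 : L.mul q101' q1' = q85 :=
    hN.b4 h48 J101 (L.one_mul _) h198
  have h201 : L.mul q109' q101 = q111 :=
    hN.b1 h48 I111 h195 J109
  have h202 : L.mul q1 q101 = q85' :=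
    hN.b1 h48 J85 h198 I1
  have h203 : L.mul q37 q101 = q35 :=
    hN.c3 h48 h16 h191 h15
  have h204 : L.mul q111 q101' = q109' :=
    hN.c1 h48 h201 J101 (L.mul_one _)
  have h205 : L.mul q85' q101' = q1 :=
    hN.c1 h48 h202 J101 (L.mul_one _)
  have h206 : L.mul q99 q101 = q93 :=
    hN.c2 h48 h47 h191 h44
  have h207 : L.mul q103' q3 = q11 :=
    hN.c4 h3 J103 (L.one_mul _) h49
  have h208 : L.mul q3' q103 = q11' :=
    hN.c1 h3 J11 h49 J3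
  have h209 : L.mul q107' q5 = q11 :=
    hN.c4 h3 J107 (L.one_mul _) h51
  have h210 : L.mul q5' q107 = q11' :=
    hN.c1 h3 J11 h51 J5
  have h211 : L.mul q109' q9 = q11' :=
    hN.c1 h3 J11 h52 J109
  have h212 : L.mul q113 q87' = q115 :=
    hN.c2 h175 h54 h174 h55
  have h213 : L.mul q9 q19' = q11' :=
    hN.a3 h59 h72 I19 (L.mul_one _)
  have h214 : L.mul q19 q9' = q11 :=
    hN.a2 h59 h72 I9 J11
  have h215 : L.mul q3 q51' = q11' :=
    hN.a3 h59 h88 I51 (L.mul_one _)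
  have h216 : L.mul q51 q3' = q11 :=
    hN.a2 h59 h88 I3 J11
  have h217 : L.mul q23 q45' = q11' :=
    hN.a3 h59 h89 I45 (L.mul_one _)
  have h218 : L.mul q45 q23' = q11 :=
    hN.a2 h59 h89 I23 J11
  have h219 : L.mul q35 q3 = q11' :=
    hN.a3 h59 h90 J3 (L.mul_one _)
  have h220 : L.mul q51' q103' = q59' :=
    hN.b2 h59 h116 h85 h133
  have h221 : L.mul q111' q109' = q101' :=
    hN.b4 h59 h108 h194 h87
  have h222 : L.mul q105' q35 = q59' :=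
    hN.b4 h59 h106 h133 h90
  have h223 : L.mul q11' q13' = q39' :=
    hN.b3 h59 h110 I13 I39
  have h224 : L.mul q11' q5' = q55' :=
    hN.b3 h59 h111 I5 I55
  have h225 : L.mul q11' q41' = q17' :=
    hN.b3 h59 h123 I41 I17
  have h226 : L.mul q15 q59' = q23 :=
    hN.c3 h133 h66 h158 h125
  have h227 : L.mul q35 q101' = q37 :=
    hN.c3 h194 h67 h204 h127
  have h228 : L.mul q55' q65 = q105 :=
    hN.a3 h59 h224 h30 h69
  have h229 : L.mul q55' q97 = q111 :=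
    hN.a3 h59 h224 h46 h70
  have h230 : L.mul q55' q31 = q1' :=
    hN.a3 h59 h224 h13 h71
  have h231 : L.mul q61 q3' = q23 :=
    hU.u3 h72 h2 h89 h163 h85 h80 (L.one_mul _) (L.one_mul _) h20
  have h232 : L.mul q61 q103' = q45 :=
    hU.u6 h89 h231 h72 h2 h20 h85 (L.one_mul _) (L.one_mul _) h163
  have h233 : L.mul q11 q55' = q5' :=
    hU.u5 h76 (L.one_mul _) h76 (L.one_mul _) (L.one_mul _) (L.one_mul _) h224 h86 (L.one_mul _)
  have h234 : L.mul q109 q55' = q95 :=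
    hN.b4 h59 h79 h45 h224
  have h235 : L.mul q5 q59' = q19 :=
    hN.c2 h133 h23 h159 h80
  have h236 : L.mul q55' q77 = q35 :=
    hN.a2 h3 h233 h36 h84
  have h237 : L.mul q61 q9 = q35 :=
    hU.u8 h2 (L.one_mul _) h67 h70 h90 h125 (L.one_mul _) h231 (L.one_mul _)
  have h238 : L.mul q11 q39' = q13' :=
    hN.b3 h3 h93 I39 I13
  have h239 : L.mul q39 q55' = q115 :=
    hN.b2 h3 h93 h233 h55
  have h240 : L.mul q13' q39 = q11 :=
    hN.c4 h3 J13 (L.one_mul _) h93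
  have h241 : L.mul q39' q13 = q11' :=
    hN.c1 h3 J11 h93 J39
  have h242 : L.mul q55' q5 = q11' :=
    hN.c1 h3 J11 h94 J55
  have h243 : L.mul q5' q55 = q11 :=
    hN.c4 h3 J5 (L.one_mul _) h94
  have h244 : L.mul q11 q17' = q41' :=
    hN.b3 h3 h105 I17 I41
  have h245 : L.mul q17' q41 = q11' :=
    hN.c1 h3 J11 h105 J17
  have h246 : L.mul q41' q17 = q11 :=
    hN.c4 h3 J41 (L.one_mul _) h105
  have h247 : L.mul q5 q45 = q67 :=
    hU.u9 h7 h235 h126 h159 h216 h3 h1 h37 h156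
  have h248 : L.mul q39 q43' = q59 :=
    hN.a2 h133 h142 I43 J59
  have h249 : L.mul q43 q39' = q59' :=
    hN.a3 h133 h142 I39 (L.mul_one _)
  have h250 : L.mul q41 q47' = q59' :=
    hN.a3 h133 h143 I47 (L.mul_one _)
  have h251 : L.mul q47 q41' = q59 :=
    hN.a2 h133 h143 I41 J59
  have h252 : L.mul q59' q1' = q71' :=
    hN.b3 h133 h155 I1 I71
  have h253 : L.mul q59' q67' = q79' :=
    hN.b3 h133 h156 I67 I79
  have h254 : L.mul q59' q77' = q65' :=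
    hN.b3 h133 h165 I77 I65
  have h255 : L.mul q59' q81' = q69' :=
    hN.b3 h133 h167 I81 I69
  have h256 : L.mul q59' q23' = q15' :=
    hN.b3 h133 h226 I23 I15
  have h257 : L.mul q59' q19' = q5' :=
    hN.b3 h133 h235 I19 I5
  have h258 : L.mul q3' q41 = q71' :=
    hN.a3 h133 h136 h18 h252
  have h259 : L.mul q19' q77 = q3 :=
    hN.a2 h133 h257 h36 h136
  have h260 : L.mul q59 q71' = q1' :=
    hN.b3 h27 h144 I71 I1
  have h261 : L.mul q71' q1 = q59' :=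
    hN.c1 h27 J59 h144 J71
  have h262 : L.mul q1' q71 = q59 :=
    hN.c4 h27 J1 (L.one_mul _) h144
  have h263 : L.mul q59 q79' = q67' :=
    hN.b3 h27 h145 I79 I67
  have h264 : L.mul q67' q79 = q59 :=
    hN.c4 h27 J67 (L.one_mul _) h145
  have h265 : L.mul q79' q67 = q59' :=
    hN.c1 h27 J59 h145 J79
  have h266 : L.mul q59 q15' = q23' :=
    hN.b3 h27 h152 I15 I23
  have h267 : L.mul q15' q23 = q59' :=
    hN.c1 h27 J59 h152 J15
  have h268 : L.mul q23' q15 = q59 :=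
    hN.c4 h27 J23 (L.one_mul _) h152
  have h269 : L.mul q59 q65' = q77' :=
    hN.b3 h27 h153 I65 I77
  have h270 : L.mul q65' q77 = q59' :=
    hN.c1 h27 J59 h153 J65
  have h271 : L.mul q77' q65 = q59 :=
    hN.c4 h27 J77 (L.one_mul _) h153
  have h272 : L.mul q59 q69' = q81' :=
    hN.b3 h27 h154 I69 I81
  have h273 : L.mul q81' q69 = q59 :=
    hN.c4 h27 J81 (L.one_mul _) h154
  have h274 : L.mul q69' q81 = q59' :=
    hN.c1 h27 J59 h154 J69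
  have h275 : L.mul q59 q5' = q19' :=
    hN.b3 h27 h162 I5 I19
  have h276 : L.mul q19' q5 = q59 :=
    hN.c4 h27 J19 (L.one_mul _) h162
  have h277 : L.mul q5' q19 = q59' :=
    hN.c1 h27 J59 h162 J5
  have h278 : L.mul q71 q75' = q87 :=
    hN.a2 h175 h179 I75 J87
  have h279 : L.mul q75 q71' = q87' :=
    hN.a3 h175 h179 I71 (L.mul_one _)
  have h280 : L.mul q27 q31' = q87' :=
    hN.a3 h175 h180 I31 (L.mul_one _)
  have h281 : L.mul q31 q27' = q87 :=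
    hN.a2 h175 h180 I27 J87
  have h282 : L.mul q87' q61' = q63' :=
    hN.b3 h175 h185 I61 I63
  have h283 : L.mul q87' q89' = q91' :=
    hN.b3 h175 h186 I89 I91
  have h284 : L.mul q87' q115' = q113' :=
    hN.b3 h175 h212 I115 I113
  have h285 : L.mul q87 q63' = q61' :=
    hN.b3 h41 h181 I63 I61
  have h286 : L.mul q61' q63 = q87 :=
    hN.c4 h41 J61 (L.one_mul _) h181
  have h287 : L.mul q63' q61 = q87' :=
    hN.c1 h41 J87 h181 J63
  have h288 : L.mul q87 q91' = q89' :=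
    hN.b3 h41 h182 I91 I89
  have h289 : L.mul q89' q91 = q87 :=
    hN.c4 h41 J89 (L.one_mul _) h182
  have h290 : L.mul q91' q89 = q87' :=
    hN.c1 h41 J87 h182 J91
  have h291 : L.mul q87 q113' = q115' :=
    hN.b3 h41 h189 I113 I115
  have h292 : L.mul q115' q113 = q87 :=
    hN.c4 h41 J115 (L.one_mul _) h189
  have h293 : L.mul q113' q115 = q87' :=
    hN.c1 h41 J87 h189 J113
  have h294 : L.mul q61 q9' = q37 :=
    hN.c1 h48 h203 h191 h237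
  have h295 : L.mul q93 q101' = q99 :=
    hN.c2 h194 h44 h193 h47
  have h296 : L.mul q1' q85' = q101 :=
    hN.a2 h194 h200 I85 J101
  have h297 : L.mul q85 q1 = q101' :=
    hN.a3 h194 h200 J1 (L.mul_one _)
  have h298 : L.mul q101' q37' = q35' :=
    hN.b3 h194 h227 I37 I35
  have h299 : L.mul q101' q99' = q93' :=
    hN.b3 h194 h295 I99 I93
  have h300 : L.mul q101 q35' = q37' :=
    hN.b3 h48 h203 I35 I37
  have h301 : L.mul q37' q35 = q101 :=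
    hN.c4 h48 J37 (L.one_mul _) h203
  have h302 : L.mul q35' q37 = q101' :=
    hN.c1 h48 J101 h203 J35
  have h303 : L.mul q35 q69 = q15 :=
    hU.u9 h65 h219 h64 h69 h87 h204 h227 h294 h122
  have h304 : L.mul q101 q93' = q99' :=
    hN.b3 h48 h206 I93 I99
  have h305 : L.mul q99' q93 = q101 :=
    hN.c4 h48 J99 (L.one_mul _) h206
  have h306 : L.mul q93' q99 = q101' :=
    hN.c1 h48 J101 h206 J93
  have h307 : L.mul q35 q81 = q23 :=
    hN.c4 h133 h303 h226 h167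
  have h308 : L.mul q55 q23 = q67 :=
    hN.b4 h59 h111 h247 h89
  have h309 : L.mul q3' q81 = q45 :=
    hN.a3 h3 h84 h307 h83
  have h310 : L.mul q1 q81 = q67 :=
    hU.u5 h9 (L.mul_one _) h112 (L.mul_one _) h308 h309 h83 (L.mul_one _) h140
  have h311 : L.mul q55 q15 = q79 :=
    hN.c4 h27 h308 h145 h152
  have h312 : L.mul q1 q69 = q79 :=
    hN.c4 h27 h310 h145 h154
  have h313 : L.mul q1 q9' = q7 :=
    hU.u5 h0 h162 h312 h145 h31 h214 h207 h147 h166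
  have h314 : L.mul q1 q55' = q57 :=
    hU.u2 h313 h25 h26 I9 I1 h25 h313 I1 I55
  have h315 : L.mul q61 q7 = q9' :=
    hU.u8 h313 (L.one_mul _) h313 (L.one_mul _) (L.one_mul _) h16 (L.one_mul _) h294 (L.one_mul _)
  have h316 : L.mul q3 q1 = q9' :=
    hU.u8 (L.mul_one _) (L.one_mul _) h313 h1 (L.mul_one _) h0 (L.one_mul _) (L.mul_one _) (L.one_mul _)
  have h317 : L.mul q35' q1' = q9' :=
    hU.u8 h58 (L.one_mul _) h313 h25 h111 h0 (L.one_mul _) h118 (L.one_mul _)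
  have h318 : L.mul q7 q3' = q67 :=
    hU.u4 h7 (L.mul_one _) h313 (L.mul_one _) h310 h169 h74 (L.mul_one _) h214
  have h319 : L.mul q3' q1' = q5' :=
    hU.u8 (L.mul_one _) h57 h314 h26 (L.mul_one _) h15 h84 (L.mul_one _) h233
  have h320 : L.mul q35 q1' = q55' :=
    hU.u7 I1 (L.one_mul _) h15 (L.mul_one _) h26 h314 (L.one_mul _) (L.mul_one _) (L.one_mul _)
  have h321 : L.mul q1' q5' = q57 :=
    hN.b4 h3 h56 h314 h233
  have h322 : L.mul q3 q85' = q9 :=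
    hU.u2 h316 h40 h2 J1 I3 h40 h316 I3 I85
  have h323 : L.mul q3 q19 = q83 :=
    hU.u5 I3 (L.one_mul _) h316 (L.mul_one _) h39 (L.one_mul _) h7 (L.mul_one _) (L.one_mul _)
  have h324 : L.mul q15 q1 = q37 :=
    hU.u8 (L.mul_one _) (L.one_mul _) h16 h316 (L.mul_one _) h5 (L.one_mul _) (L.mul_one _) (L.one_mul _)
  have h325 : L.mul q105 q1 = q109' :=
    hN.a3 h59 h69 h316 h87
  have h326 : L.mul q101 q3 = q33 :=
    hN.a1 h48 h316 h14 h192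
  have h327 : L.mul q59' q9' = q21 :=
    hN.a4 h133 h136 h316 h8
  have h328 : L.mul q101' q33 = q3 :=
    hN.a1 h194 h14 h316 h196
  have h329 : L.mul q59 q21 = q9' :=
    hN.a4 h27 h131 h8 h316
  have h330 : L.mul q3 q1' = q19' :=
    hN.c4 h59 h316 h115 h58
  have h331 : L.mul q37' q1' = q9 :=
    hU.u7 h317 h16 h317 h16 I1 J35 h15 J37 I1
  have h332 : L.mul q35' q9 = q83 :=
    hU.u4 J9 I1 (L.mul_one _) h317 h39 h7 h68 h57 (L.mul_one _)
  have h333 : L.mul q35' q1 = q111' :=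
    hU.u2 h118 (L.mul_one _) (L.mul_one _) h108 h317 h330 h115 (L.mul_one _) h316
  have h334 : L.mul q7 q3 = q79 :=
    hU.u2 h318 (L.mul_one _) (L.mul_one _) h37 (L.mul_one _) (L.mul_one _) h318 (L.mul_one _) h31
  have h335 : L.mul q53 q1' = q47 :=
    hU.u7 h319 (L.one_mul _) h319 (L.one_mul _) (L.one_mul _) h21 (L.one_mul _) h24 (L.one_mul _)
  have h336 : L.mul q3' q115 = q57 :=
    hU.u2 h319 (L.one_mul _) h321 h59 h208 (L.one_mul _) h99 h55 (L.one_mul _)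
  have h337 : L.mul q3' q77 = q43 :=
    hU.u2 h319 (L.mul_one _) (L.mul_one _) h19 (L.mul_one _) (L.mul_one _) h319 (L.mul_one _) h36
  have h338 : L.mul q3 q71' = q5' :=
    hU.u3 h258 (L.one_mul _) h319 h18 h21 (L.one_mul _) h141 h260 (L.one_mul _)
  have h339 : L.mul q19 q1' = q29 :=
    hU.u8 (L.mul_one _) h59 h86 h319 (L.mul_one _) h85 h80 (L.mul_one _) h81
  have h340 : L.mul q3' q9 = q73 :=
    hU.u2 (L.mul_one _) (L.one_mul _) h34 (L.mul_one _) h319 (L.one_mul _) (L.mul_one _) h2 (L.one_mul _)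
  have h341 : L.mul q103' q1' = q107' :=
    hN.a3 h3 h74 h319 h76
  have h342 : L.mul q51' q1 = q5' :=
    hN.b4 h3 h96 h319 h57
  have h343 : L.mul q5' q11 = q21 :=
    hN.c2 h3 h319 h56 h8
  have h344 : L.mul q21 q11' = q5' :=
    hN.c2 h59 h8 h58 h319
  have h345 : L.mul q105 q71' = q55' :=
    hN.b4 h133 h158 h320 h252
  have h346 : L.mul q5 q91' = q57 :=
    hU.u2 h1 h43 h321 J1 I5 h43 h1 I5 I91
  have h347 : L.mul q11 q57 = q29 :=
    hN.a4 h3 h57 h321 h12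
  have h348 : L.mul q11' q29 = q57 :=
    hN.a4 h59 h71 h12 h321
  have h349 : L.mul q57 q87 = q49 :=
    hN.c2 h41 h321 h172 h22
  have h350 : L.mul q49 q87' = q57 :=
    hN.c2 h175 h22 h174 h321
  have h351 : L.mul q33 q3' = q101 :=
    hU.u7 I3 J1 I3 J1 h2 h322 h296 h14 h2
  have h352 : L.mul q41 q3' = q85' :=
    hU.u7 I3 (L.one_mul _) h18 (L.mul_one _) h2 h322 (L.one_mul _) (L.mul_one _) (L.one_mul _)
  have h353 : L.mul q1' q33' = q9' :=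
    hU.u2 h296 h351 h40 I85 J1 h14 h322 I3 I33
  have h354 : L.mul q51 q85' = q19 :=
    hN.a3 h3 h82 h322 h68
  have h355 : L.mul q105 q85' = q111 :=
    hN.a3 h59 h69 h322 h70
  have h356 : L.mul q77 q19 = q103' :=
    hU.u7 J19 (L.one_mul _) h259 (L.mul_one _) h323 h170 (L.one_mul _) (L.mul_one _) (L.one_mul _)
  have h357 : L.mul q15 q85' = q35 :=
    hN.c4 h48 h324 h203 h202
  have h358 : L.mul q37' q1 = q109 :=
    hU.u7 h325 h127 h325 h127 J1 I105 h104 J37 J1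
  have h359 : L.mul q3 q33' = q101' :=
    hN.a2 h48 h326 I33 I101
  have h360 : L.mul q33 q11 = q37' :=
    hN.a3 h48 h326 h98 h300
  have h361 : L.mul q37' q11' = q33 :=
    hN.a3 h48 h300 h118 h326
  have h362 : L.mul q33' q101 = q3' :=
    hN.b1 h48 J3 h326 J33
  have h363 : L.mul q37 q33 = q11' :=
    hN.b4 h48 h203 h219 h326
  have h364 : L.mul q9' q21' = q59 :=
    hN.a2 h133 h327 I21 J59
  have h365 : L.mul q21 q9 = q59' :=
    hN.a3 h133 h327 J9 (L.mul_one _)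
  have h366 : L.mul q71' q33' = q21 :=
    hN.a3 h133 h252 h353 h327
  have h367 : L.mul q21' q59' = q9 :=
    hN.b1 h133 I9 h327 J21
  have h368 : L.mul q5 q21 = q11 :=
    hN.b4 h133 h235 h214 h327
  have h369 : L.mul q71 q21 = q7 :=
    hN.b4 h133 h155 h313 h327
  have h370 : L.mul q3' q101' = q33' :=
    hN.b1 h194 J33 h328 J3
  have h371 : L.mul q9 q59 = q21' :=
    hN.b1 h27 J21 h329 I9
  have h372 : L.mul q3 q77 = q39 :=
    hU.u2 h330 (L.mul_one _) (L.mul_one _) h17 (L.mul_one _) (L.mul_one _) h330 (L.mul_one _) h259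
  have h373 : L.mul q53 q71' = q41 :=
    hU.u7 h338 (L.one_mul _) h330 h275 h260 h18 (L.one_mul _) h24 (L.one_mul _)
  have h374 : L.mul q103 q1 = q19' :=
    hU.u3 h98 h119 h330 h49 (L.mul_one _) (L.mul_one _) h93 h4 h17
  have h375 : L.mul q1' q43 = q37' :=
    hU.u5 (L.mul_one _) (L.one_mul _) h2 h331 (L.mul_one _) (L.one_mul _) (L.mul_one _) h19 (L.one_mul _)
  have h376 : L.mul q9' q77 = q35' :=
    hU.u5 (L.mul_one _) h316 h92 h333 (L.mul_one _) h372 (L.mul_one _) h119 h98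
  have h377 : L.mul q103' q115 = q29 :=
    hN.a3 h3 h74 h336 h347
  have h378 : L.mul q3' q113 = q49 :=
    hN.c4 h41 h336 h349 h189
  have h379 : L.mul q3 q75' = q5 :=
    hU.u2 h338 h35 h33 I71 I3 h35 h338 I3 I75
  have h380 : L.mul q5 q71' = q29 :=
    hU.u9 I3 I5 h338 (L.one_mul _) (L.one_mul _) h132 h235 h7 h12
  have h381 : L.mul q51 q71' = q107' :=
    hN.a3 h3 h82 h338 h76
  have h382 : L.mul q51' q19 = q73 :=
    hN.b4 h3 h96 h340 h68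
  have h383 : L.mul q105' q111 = q73 :=
    hN.b4 h59 h106 h340 h70
  have h384 : L.mul q87 q51' = q25 :=
    hN.a1 h41 h342 h10 h173
  have h385 : L.mul q87' q25 = q51' :=
    hN.a1 h175 h10 h342 h176
  have h386 : L.mul q87 q21 = q55 :=
    hN.a4 h41 h173 h343 h94
  have h387 : L.mul q87' q55 = q21 :=
    hN.a4 h175 h176 h94 h343
  have h388 : L.mul q11 q21' = q5 :=
    hN.b3 h3 h343 I21 J5
  have h389 : L.mul q21 q35 = q73 :=
    hN.b2 h3 h343 h84 h34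
  have h390 : L.mul q21 q111 = q93 :=
    hN.b2 h3 h343 h53 h44
  have h391 : L.mul q21 q109' = q99 :=
    hN.b2 h3 h343 h77 h47
  have h392 : L.mul q21 q55' = q87' :=
    hN.b2 h3 h343 h233 h175
  have h393 : L.mul q75 q105' = q21 :=
    hN.c4 h3 h35 h343 h91
  have h394 : L.mul q21' q5' = q11' :=
    hN.c1 h3 J11 h343 J21
  have h395 : L.mul q53 q21 = q1 :=
    hN.c4 h3 h24 h56 h343
  have h396 : L.mul q63 q21 = q35' :=
    hN.c4 h3 h29 h98 h343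
  have h397 : L.mul q11' q5 = q21' :=
    hN.b3 h59 h344 J5 I21
  have h398 : L.mul q21' q71' = q57 :=
    hU.u9 h62 h394 h345 h224 h90 h158 h367 h2 h321
  have h399 : L.mul q5' q89' = q57 :=
    hN.b4 h41 h172 h346 h288
  have h400 : L.mul q57 q29' = q11' :=
    hN.a2 h3 h347 I29 I11
  have h401 : L.mul q29 q57' = q11 :=
    hN.a3 h3 h347 I57 (L.mul_one _)
  have h402 : L.mul q107' q89' = q29 :=
    hN.a3 h3 h76 h399 h347
  have h403 : L.mul q29' q11 = q57' :=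
    hN.b1 h3 J57 h347 J29
  have h404 : L.mul q57' q11' = q29' :=
    hN.b1 h59 J29 h348 J57
  have h405 : L.mul q87 q49' = q57' :=
    hN.b3 h41 h349 I49 I57
  have h406 : L.mul q21' q75' = q49 :=
    hN.c4 h41 h398 h349 h183
  have h407 : L.mul q49' q57 = q87' :=
    hN.c1 h41 J87 h349 J49
  have h408 : L.mul q57' q49 = q87 :=
    hN.c4 h41 J57 (L.one_mul _) h349
  have h409 : L.mul q87' q57' = q49' :=
    hN.b3 h175 h350 I57 I49
  have h410 : L.mul q17 q35 = q85' :=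
    hN.b4 h59 h123 h352 h90
  have h411 : L.mul q41 q33' = q1 :=
    hN.c4 h194 h352 h205 h370
  have h412 : L.mul q11' q33' = q37 :=
    hN.b3 h59 h58 h353 h16
  have h413 : L.mul q11 q37 = q33' :=
    hN.b3 h3 h56 h16 h353
  have h414 : L.mul q77 q9 = q3' :=
    hU.u4 h68 (L.one_mul _) h74 h356 h84 (L.one_mul _) h237 h163 (L.one_mul _)
  have h415 : L.mul q11' q77 = q61 :=
    hN.a1 h59 h356 h163 h85
  have h416 : L.mul q11 q61 = q77 :=
    hN.a1 h3 h163 h356 h74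
  have h417 : L.mul q77 q5 = q51 :=
    hN.c4 h27 h356 h147 h162
  have h418 : L.mul q33' q37' = q11 :=
    hN.c4 h3 J33 (L.one_mul _) h360
  have h419 : L.mul q77 q9' = q33' :=
    hN.c1 h48 h362 h191 h414
  have h420 : L.mul q3' q35 = q93 :=
    hU.u6 h365 h133 h365 h133 h340 h389 h44 h34 h340
  have h421 : L.mul q1' q3 = q21' :=
    hN.c1 h133 h367 h132 h2
  have h422 : L.mul q33 q71 = q21' :=
    hN.c1 h133 h367 h155 h14
  have h423 : L.mul q1 q105 = q21' :=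
    hN.c1 h133 h367 h158 h15
  have h424 : L.mul q61 q21' = q105 :=
    hN.c1 h133 h158 h367 h237
  have h425 : L.mul q77 q21' = q3 :=
    hN.c1 h133 h132 h367 h414
  have h426 : L.mul q103 q77 = q13 :=
    hU.u7 h372 h93 h316 h95 h259 (L.mul_one _) (L.mul_one _) h49 h4
  have h427 : L.mul q35' q61 = q39 :=
    hN.b4 h59 h118 h372 h415
  have h428 : L.mul q9' q61 = q3 :=
    hU.u5 h92 h333 h115 h374 h49 h427 h93 h4 h118
  have h429 : L.mul q85 q43 = q35' :=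
    hN.a3 h194 h200 h375 h298
  have h430 : L.mul q3 q61 = q13 :=
    hU.u6 h376 h98 (L.mul_one _) h95 h259 h428 h426 h49 (L.mul_one _)
  have h431 : L.mul q19' q61 = q103 :=
    hU.u6 h115 (L.mul_one _) h376 (L.mul_one _) h118 h428 h73 (L.mul_one _) h259
  have h432 : L.mul q111' q61 = q35' :=
    hU.u4 h428 (L.mul_one _) h92 (L.mul_one _) h376 h372 h427 (L.mul_one _) h98
  have h433 : L.mul q21 q77 = q105' :=
    hN.a3 h133 h327 h376 h137
  have h434 : L.mul q9 q77 = q37' :=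
    hN.a3 h48 h192 h376 h300
  have h435 : L.mul q77 q11' = q61 :=
    hN.c3 h59 h376 h118 h428
  have h436 : L.mul q61 q11 = q77 :=
    hN.c3 h3 h428 h98 h376
  have h437 : L.mul q17 q3 = q75' :=
    hU.u8 (L.mul_one _) (L.one_mul _) h379 h0 (L.mul_one _) h6 (L.one_mul _) (L.mul_one _) (L.one_mul _)
  have h438 : L.mul q105 q75' = q21' :=
    hN.a3 h59 h69 h379 h397
  have h439 : L.mul q27 q5' = q71' :=
    hU.u7 I5 (L.one_mul _) h11 (L.mul_one _) h12 h380 (L.one_mul _) (L.mul_one _) (L.one_mul _)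
  have h440 : L.mul q51' q3' = q93 :=
    hU.u3 h277 h133 h44 h382 h34 h133 h277 h34 h340
  have h441 : L.mul q51' q25' = q87' :=
    hN.a2 h41 h384 I25 I87
  have h442 : L.mul q25 q51 = q87 :=
    hN.a3 h41 h384 J51 (L.mul_one _)
  have h443 : L.mul q25' q87 = q51 :=
    hN.b1 h41 I51 h384 J25
  have h444 : L.mul q51 q87' = q25' :=
    hN.b1 h175 J25 h385 I51
  have h445 : L.mul q55 q21' = q87 :=
    hN.a3 h41 h386 I21 (L.mul_one _)
  have h446 : L.mul q55' q87 = q21' :=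
    hN.b1 h41 J21 h386 J55
  have h447 : L.mul q21' q87' = q55' :=
    hN.b1 h175 J55 h387 J21
  have h448 : L.mul q77 q105 = q15 :=
    hU.u6 h82 h417 h388 (L.one_mul _) (L.one_mul _) h50 h122 h28 h425
  have h449 : L.mul q1 q21' = q49 :=
    hU.u3 h421 (L.one_mul _) h22 h0 h23 (L.one_mul _) h82 h388 (L.one_mul _)
  have h450 : L.mul q21' q27 = q1' :=
    hN.a2 h3 h388 h11 h57
  have h451 : L.mul q39 q21' = q113 :=
    hN.b2 h3 h93 h388 h54
  have h452 : L.mul q1' q71' = q95 :=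
    hU.u6 h394 h59 h394 h59 h321 h398 h45 h26 h321
  have h453 : L.mul q61 q49 = q21' :=
    hU.u5 h28 (L.one_mul _) h424 h69 h397 (L.one_mul _) h22 h421 (L.one_mul _)
  have h454 : L.mul q77 q49 = q5 :=
    hN.a2 h59 h415 h453 h397
  have h455 : L.mul q17 q37 = q1 :=
    hN.c4 h194 h410 h205 h227
  have h456 : L.mul q77 q3' = q45 :=
    hU.u3 h68 h7 h83 h414 h84 h15 (L.one_mul _) (L.one_mul _) h9
  have h457 : L.mul q77 q35 = q23 :=
    hU.u3 h70 h67 h89 h414 h85 h80 h68 h84 h20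
  have h458 : L.mul q77 q37' = q43 :=
    hU.u2 (L.mul_one _) (L.one_mul _) h337 (L.mul_one _) h414 (L.one_mul _) (L.mul_one _) h434 (L.one_mul _)
  have h459 : L.mul q77 q109 = q105' :=
    hN.c4 h3 h414 h91 h52
  have h460 : L.mul q11' q61' = q77' :=
    hU.u2 h415 (L.mul_one _) (L.mul_one _) J77 J11 h436 (L.one_mul _) (L.one_mul _) I61
  have h461 : L.mul q77' q11 = q61' :=
    hU.u6 h460 (L.mul_one _) h415 (L.mul_one _) I61 J11 (L.one_mul _) (L.one_mul _) J77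
  have h462 : L.mul q61 q77' = q11' :=
    hN.a3 h59 h415 I77 (L.mul_one _)
  have h463 : L.mul q77 q61' = q11 :=
    hN.a2 h59 h415 I61 J11
  have h464 : L.mul q61' q11' = q77' :=
    hN.b1 h59 J77 h415 J61
  have h465 : L.mul q21 q61 = q3' :=
    hN.b4 h59 h344 h36 h415
  have h466 : L.mul q105' q61 = q43 :=
    hN.b4 h59 h106 h337 h415
  have h467 : L.mul q109 q61 = q37' :=
    hN.b4 h59 h79 h434 h415
  have h468 : L.mul q11 q77' = q61' :=
    hU.u2 h416 (L.mul_one _) (L.mul_one _) J61 I11 h435 (L.one_mul _) (L.one_mul _) I77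
  have h469 : L.mul q77 q5' = q25' :=
    hN.c4 h175 h417 h444 h174
  have h470 : L.mul q65 q21 = q33' :=
    hN.b4 h133 h165 h419 h327
  have h471 : L.mul q93 q35' = q3' :=
    hU.u9 h420 (L.mul_one _) h140 (L.mul_one _) h84 (L.mul_one _) (L.mul_one _) h420 (L.mul_one _)
  have h472 : L.mul q93 q3 = q51' :=
    hU.u4 J3 (L.one_mul _) h420 (L.mul_one _) h116 (L.one_mul _) h219 (L.mul_one _) (L.one_mul _)
  have h473 : L.mul q3' q37 = q99 :=
    hN.c4 h194 h420 h295 h227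
  have h474 : L.mul q7 q61 = q5 :=
    hU.u8 (L.mul_one _) (L.one_mul _) h28 h428 (L.mul_one _) h315 (L.one_mul _) (L.mul_one _) (L.one_mul _)
  have h475 : L.mul q37 q61 = q15 :=
    hU.u3 (L.mul_one _) (L.one_mul _) h122 (L.mul_one _) h294 (L.one_mul _) (L.mul_one _) h428 (L.one_mul _)
  have h476 : L.mul q109' q61 = q105 :=
    hN.a3 h59 h87 h428 h69
  have h477 : L.mul q9 q61 = q33 :=
    hN.a3 h48 h192 h428 h326
  have h478 : L.mul q101' q61 = q69 :=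
    hN.b3 h194 h193 h428 h32
  have h479 : L.mul q101 q69 = q61 :=
    hN.b3 h48 h191 h32 h428
  have h480 : L.mul q5' q61 = q51' :=
    hN.a3 h133 h257 h431 h138
  have h481 : L.mul q57 q77 = q9 :=
    hU.u4 h434 (L.mul_one _) h26 (L.mul_one _) (L.mul_one _) (L.mul_one _) h434 (L.mul_one _) h331
  have h482 : L.mul q77 q111 = q35 :=
    hN.b4 h59 h435 h237 h70
  have h483 : L.mul q77 q109' = q37 :=
    hN.b4 h59 h435 h294 h87
  have h484 : L.mul q61 q107' = q25' :=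
    hN.b2 h59 h435 h86 h469
  have h485 : L.mul q77' q61 = q11' :=
    hN.c4 h59 J77 (L.one_mul _) h435
  have h486 : L.mul q7 q77 = q55 :=
    hN.c1 h59 h111 h435 h474
  have h487 : L.mul q61' q77 = q11 :=
    hN.c1 h59 I11 h435 J61
  have h488 : L.mul q41 q51 = q75' :=
    hN.b4 h3 h105 h437 h82
  have h489 : L.mul q59 q27 = q53 :=
    hN.a1 h27 h439 h24 h260
  have h490 : L.mul q59' q53 = q27 :=
    hN.a1 h133 h24 h439 h252
  have h491 : L.mul q27 q5 = q75' :=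
    hN.c4 h41 h439 h183 h172
  have h492 : L.mul q51 q93 = q3' :=
    hU.u8 h440 (L.one_mul _) h440 (L.one_mul _) (L.one_mul _) h96 (L.one_mul _) h216 (L.one_mul _)
  have h493 : L.mul q3 q93 = q35 :=
    hU.u5 I3 (L.one_mul _) h215 (L.mul_one _) h90 (L.one_mul _) h440 (L.mul_one _) (L.one_mul _)
  have h494 : L.mul q51' q33' = q99 :=
    hN.c4 h194 h440 h295 h370
  have h495 : L.mul q1' q25' = q5' :=
    hN.c1 h41 h172 h443 h23
  have h496 : L.mul q41 q25' = q71' :=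
    hN.c1 h41 h183 h443 h488
  have h497 : L.mul q61 q57 = q55' :=
    hN.c1 h41 h446 h349 h453
  have h498 : L.mul q9 q53 = q1' :=
    hN.b4 h27 h371 h450 h489
  have h499 : L.mul q95 q71 = q1' :=
    hU.u9 h452 (L.mul_one _) h262 (L.mul_one _) h260 (L.mul_one _) (L.mul_one _) h452 (L.mul_one _)
  have h500 : L.mul q77 q57 = q5' :=
    hN.c4 h175 h454 h174 h350
  have h501 : L.mul q25' q77 = q45 :=
    hU.u3 (L.mul_one _) (L.one_mul _) h456 (L.mul_one _) h469 (L.one_mul _) (L.mul_one _) h36 (L.one_mul _)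
  have h502 : L.mul q61 q29 = q5' :=
    hU.u5 h497 h224 h484 h469 h500 h348 (L.one_mul _) (L.one_mul _) h86
  have h503 : L.mul q99 q37' = q3' :=
    hN.b4 h48 h206 h471 h300
  have h504 : L.mul q3' q93' = q51 :=
    hU.u6 h472 h116 h472 h116 J3 I93 h82 I11 J3
  have h505 : L.mul q99 q33 = q51' :=
    hN.b4 h48 h206 h472 h326
  have h506 : L.mul q5 q61 = q25 :=
    hU.u6 (L.mul_one _) h1 (L.mul_one _) h1 (L.mul_one _) h474 (L.mul_one _) h10 (L.mul_one _)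
  have h507 : L.mul q61 q69' = q101 :=
    hN.a2 h194 h478 I69 J101
  have h508 : L.mul q69 q61' = q101' :=
    hN.a3 h194 h478 I61 (L.mul_one _)
  have h509 : L.mul q69' q101' = q61' :=
    hN.b1 h194 J61 h478 J69
  have h510 : L.mul q61' q101 = q69' :=
    hN.b1 h48 J69 h479 J61
  have h511 : L.mul q29 q77 = q19 :=
    hN.a3 h3 h347 h481 h68
  have h512 : L.mul q57 q65 = q21' :=
    hN.c4 h27 h481 h371 h153
  have h513 : L.mul q77 q29 = q107' :=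
    hU.u6 h484 h469 h497 h224 h86 h502 (L.one_mul _) (L.one_mul _) h500
  have h514 : L.mul q53 q27' = q59 :=
    hN.a3 h27 h489 I27 (L.mul_one _)
  have h515 : L.mul q27 q1' = q41 :=
    hN.a2 h27 h489 h335 h141
  have h516 : L.mul q27 q53' = q59' :=
    hN.a2 h27 h489 I53 I59
  have h517 : L.mul q53' q59 = q27' :=
    hN.b1 h27 J27 h489 J53
  have h518 : L.mul q19 q53 = q1 :=
    hN.b4 h27 h162 h11 h489
  have h519 : L.mul q27' q59' = q53' :=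
    hN.b1 h133 J53 h490 J27
  have h520 : L.mul q51 q99 = q33' :=
    hN.c4 h194 h492 h370 h295
  have h521 : L.mul q93' q3' = q35' :=
    hU.u3 h493 h90 h98 J93 I3 h90 h493 I3 J11
  have h522 : L.mul q3 q99 = q37 :=
    hN.c4 h194 h493 h227 h295
  have h523 : L.mul q45 q1' = q25' :=
    hU.u8 (L.mul_one _) (L.one_mul _) h495 h319 (L.mul_one _) h20 (L.one_mul _) (L.mul_one _) (L.one_mul _)
  have h524 : L.mul q1 q25' = q107' :=
    hN.a3 h3 h57 h495 h76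
  have h525 : L.mul q47 q25' = q1' :=
    hN.a3 h27 h141 h496 h260
  have h526 : L.mul q9' q53 = q85 :=
    hN.a3 h194 h196 h498 h200
  have h527 : L.mul q35' q3 = q93' :=
    hU.u7 J3 (L.one_mul _) h140 (L.mul_one _) h82 h504 (L.one_mul _) (L.mul_one _) (L.one_mul _)
  have h528 : L.mul q35 q93' = q3 :=
    hN.a3 h59 h90 h504 h88
  have h529 : L.mul q33' q99' = q51 :=
    hN.b4 h48 h362 h504 h304
  have h530 : L.mul q61 q25 = q13 :=
    hU.u2 (L.mul_one _) (L.one_mul _) h430 (L.mul_one _) h28 (L.one_mul _) (L.mul_one _) h506 (L.one_mul _)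
  have h531 : L.mul q107 q77 = q25 :=
    hN.b4 h3 h51 h506 h416
  have h532 : L.mul q29 q65 = q5 :=
    hN.c4 h27 h511 h162 h153
  have h533 : L.mul q27 q19' = q1' :=
    hU.u5 h515 (L.one_mul _) h515 (L.one_mul _) (L.one_mul _) (L.one_mul _) h330 h18 (L.one_mul _)
  have h534 : L.mul q53 q59' = q27 :=
    hN.b1 h133 h515 h252 h373
  have h535 : L.mul q27 q59 = q53 :=
    hN.b1 h27 h373 h260 h515
  have h536 : L.mul q27 q1 = q17 :=
    hN.c4 h3 h515 h105 h56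
  have h537 : L.mul q59' q27' = q53' :=
    hU.u6 h516 (L.mul_one _) h535 (L.mul_one _) I53 I27 (L.one_mul _) (L.one_mul _) J59
  have h538 : L.mul q59 q53' = q27' :=
    hU.u7 h516 (L.one_mul _) (L.mul_one _) h534 I53 I27 (L.one_mul _) I59 (L.one_mul _)
  have h539 : L.mul q3 q51 = q93' :=
    hU.u2 I3 (L.one_mul _) (L.mul_one _) h521 h98 (L.one_mul _) h216 (L.mul_one _) (L.one_mul _)
  have h540 : L.mul q99' q3' = q37' :=
    hN.a3 h48 h304 h521 h300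
  have h541 : L.mul q93' q51' = q3 :=
    hN.c4 h59 h521 h118 h116
  have h542 : L.mul q83 q53 = q9' :=
    hU.u4 h526 (L.mul_one _) h39 (L.mul_one _) (L.mul_one _) (L.mul_one _) h526 (L.mul_one _) h40
  have h543 : L.mul q37' q3 = q99' :=
    hN.a3 h48 h300 h527 h304
  have h544 : L.mul q37 q99' = q3 :=
    hN.b4 h48 h203 h528 h304
  have h545 : L.mul q63 q51' = q13 :=
    hN.b4 h175 h185 h530 h385
  have h546 : L.mul q27 q9' = q1 :=
    hN.c4 h3 h533 h56 h95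
  have h547 : L.mul q5 q53 = q71 :=
    hN.c1 h133 h155 h534 h11
  have h548 : L.mul q27' q53 = q59 :=
    hN.c1 h133 I59 h534 J27
  have h549 : L.mul q53' q27 = q59' :=
    hN.c4 h133 J53 (L.one_mul _) h534
  have h550 : L.mul q75' q27 = q17 :=
    hU.u3 (L.mul_one _) (L.one_mul _) h536 (L.mul_one _) h491 (L.one_mul _) (L.mul_one _) h11 (L.one_mul _)
  have h551 : L.mul q33 q51 = q99' :=
    hN.a3 h48 h326 h539 h304
  have h552 : L.mul q99' q51' = q33 :=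
    hN.c4 h59 h540 h361 h116
  have h553 : L.mul q63 q3' = q39 :=
    hN.c4 h3 h545 h93 h96
  have h554 : L.mul q27 q9 = q85' :=
    hN.c4 h48 h546 h202 h191
  have h555 : L.mul q5' q53 = q75 :=
    hN.a3 h175 h176 h547 h179
  have h556 : L.mul q71' q31 = q17 :=
    hN.b4 h41 h183 h550 h178
  have h557 : L.mul q93' q21 = q111' :=
    hU.u7 h329 h40 h139 h553 h396 h134 h109 h521 h429
  have h558 : L.mul q73 q53 = q5' :=
    hU.u4 h555 (L.mul_one _) h34 (L.mul_one _) (L.mul_one _) (L.mul_one _) h555 (L.mul_one _) h35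
  have h559 : L.mul q99' q21 = q109 :=
    hN.a3 h48 h304 h557 h195
  have h560 : L.mul q93' q5' = q9' :=
    hN.c4 h59 h557 h108 h344
  have h561 : L.mul q53 q73 = q9 :=
    hU.u5 (L.mul_one _) (L.one_mul _) h24 h498 (L.mul_one _) (L.one_mul _) (L.mul_one _) h558 (L.one_mul _)
  have h562 : L.mul q99' q5' = q9 :=
    hN.c4 h59 h559 h79 h344
  have h563 : L.mul q91 q3' = q55 :=
    hU.u7 I3 I5 h316 h560 h521 h98 h94 h43 h1
  have h564 : L.mul q99' q87' = q95 :=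
    hU.u5 h562 (L.one_mul _) h305 h48 h45 (L.one_mul _) h175 h44 (L.one_mul _)
  have h565 : L.mul q95 q5 = q9 :=
    hN.b2 h175 h564 h176 h562
  have h566 : L.mul q91 q51' = q5 :=
    hN.c4 h59 h563 h111 h116
  have h567 : L.mul q99' q75 = q1' :=
    hN.b4 h175 h564 h499 h179
  have h568 : L.mul q87' q95' = q99 :=
    hN.b3 h175 h564 I95 J99
  have h569 : L.mul q95 q25 = q33 :=
    hN.b2 h175 h564 h385 h552
  have h570 : L.mul q95 q55 = q109 :=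
    hN.b2 h175 h564 h387 h559
  have h571 : L.mul q95 q87 = q99' :=
    hN.b2 h175 h564 J87 (L.mul_one _)
  have h572 : L.mul q33 q25' = q95 :=
    hN.c4 h175 h551 h564 h444
  have h573 : L.mul q9 q5 = q99' :=
    hN.c1 h175 h564 h174 h45
  have h574 : L.mul q109 q21' = q99' :=
    hN.c1 h175 h564 h447 h234
  have h575 : L.mul q1' q75' = q99' :=
    hN.c1 h175 h564 h187 h452
  have h576 : L.mul q95' q99' = q87 :=
    hN.c1 h175 I87 h564 J95
  have h577 : L.mul q33' q95 = q25' :=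
    hN.c4 h175 h529 h444 h564
  have h578 : L.mul q99 q95 = q87' :=
    hN.c4 h175 I99 (L.one_mul _) h564
  have h579 : L.mul q89 q25 = q5 :=
    hN.b4 h41 h182 h566 h384
  have h580 : L.mul q93' q75 = q85 :=
    hN.a3 h194 h299 h567 h200
  have h581 : L.mul q95' q33 = q25 :=
    hN.a2 h175 h568 h505 h385
  have h582 : L.mul q87 q99 = q95' :=
    hN.a4 h41 I87 h568 (L.one_mul _)
  have h583 : L.mul q5 q9' = q95' :=
    hN.a2 h175 h176 h47 h568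
  have h584 : L.mul q55 q109' = q95' :=
    hN.a2 h175 h387 h391 h568
  have h585 : L.mul q25 q33' = q95' :=
    hN.a2 h175 h385 h494 h568
  have h586 : L.mul q25' q95' = q33' :=
    hN.b2 h175 h444 h568 h520
  have h587 : L.mul q75 q85' = q93 :=
    hU.u9 h495 h35 h296 h351 h572 h452 h279 h441 h440
  have h588 : L.mul q9' q5 = q93' :=
    hN.a3 h194 h196 h573 h299
  have h589 : L.mul q111' q21' = q93' :=
    hN.a3 h194 h197 h574 h299
  have h590 : L.mul q85 q75' = q93' :=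
    hN.a3 h194 h200 h575 h299
  have h591 : L.mul q71 q1 = q95' :=
    hU.u3 h368 h3 h583 h369 h1 h3 h368 h1 h313
  have h592 : L.mul q75 q1 = q99 :=
    hN.c4 h194 h587 h295 h205
  have h593 : L.mul q71' q95' = q1 :=
    hU.u8 h591 (L.one_mul _) h591 (L.one_mul _) (L.one_mul _) h155 (L.one_mul _) h261 (L.one_mul _)
  have h594 : L.mul q5' q95' = q9' :=
    hU.u6 h366 h343 h556 h105 h411 h593 h353 h56 h13
  have h595 : L.mul q75' q99 = q1 :=
    hN.b4 h175 h187 h593 h568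
  have h596 : L.mul q5 q99 = q9' :=
    hU.u8 h47 (L.one_mul _) h47 (L.one_mul _) (L.one_mul _) h594 (L.one_mul _) h583 (L.one_mul _)
  have h597 : L.mul q55' q95' = q109' :=
    hN.a3 h59 h224 h594 h87
  have h598 : L.mul q95' q101 = q97 :=
    hN.c3 h48 h594 h191 h46
  have h599 : L.mul q97 q101' = q95' :=
    hN.c3 h194 h46 h193 h594
  have h600 : L.mul q75' q93 = q85' :=
    hN.c4 h48 h595 h202 h206
  have h601 : L.mul q5 q93 = q9 :=
    hU.u2 h596 h560 h562 J99 I5 h560 h596 I5 J93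
  have h602 : L.mul q21' q99 = q109' :=
    hN.a3 h59 h397 h596 h87
  have h603 : L.mul q87' q97 = q93 :=
    hN.a4 h175 h568 h598 h206
  have h604 : L.mul q87 q93 = q97 :=
    hN.a4 h41 h582 h206 h598
  have h605 : L.mul q101 q97' = q95 :=
    hN.b3 h48 h598 I97 J95
  have h606 : L.mul q97 q93' = q87 :=
    hN.b2 h48 h598 h304 h576
  have h607 : L.mul q97 q3 = q25 :=
    hN.b2 h48 h598 h326 h581
  have h608 : L.mul q5 q9 = q97 :=
    hN.c4 h48 h583 h598 h191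
  have h609 : L.mul q55 q111 = q97 :=
    hN.c4 h48 h584 h598 h201
  have h610 : L.mul q25 q3' = q97 :=
    hN.c4 h48 h585 h598 h362
  have h611 : L.mul q71 q85' = q97 :=
    hN.c4 h48 h591 h598 h202
  have h612 : L.mul q97' q95' = q101' :=
    hN.c1 h48 J101 h598 J97
  have h613 : L.mul q25' q97 = q3' :=
    hN.c4 h48 h586 h362 h598
  have h614 : L.mul q71' q97 = q85' :=
    hN.c4 h48 h593 h202 h598
  have h615 : L.mul q95 q97 = q101 :=
    hN.c4 h48 I95 (L.one_mul _) h598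
  have h616 : L.mul q101' q95 = q97' :=
    hN.b3 h194 h599 J95 I97
  have h617 : L.mul q3 q91' = q55' :=
    hU.u6 I5 I3 h601 h2 h321 h346 h224 h90 h493
  have h618 : L.mul q21' q93 = q111 :=
    hN.a3 h59 h397 h601 h70
  have h619 : L.mul q93 q97' = q87' :=
    hN.a3 h175 h603 I97 (L.mul_one _)
  have h620 : L.mul q93' q87' = q97' :=
    hN.b1 h175 J97 h603 J93
  have h621 : L.mul q97' q87 = q93' :=
    hN.b1 h41 J93 h604 J97
  have h622 : L.mul q97' q71 = q85 :=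
    hN.a2 h48 h605 h499 h198
  have h623 : L.mul q97' q5 = q9' :=
    hN.a2 h48 h605 h565 h192
  have h624 : L.mul q97' q25 = q3 :=
    hN.a2 h48 h605 h569 h326
  have h625 : L.mul q97' q55 = q111' :=
    hN.a2 h48 h605 h570 h195
  have h626 : L.mul q9' q5' = q97' :=
    hN.a2 h48 h192 h45 h605
  have h627 : L.mul q111' q55' = q97' :=
    hN.a2 h48 h195 h234 h605
  have h628 : L.mul q85 q71' = q97' :=
    hN.a2 h48 h198 h452 h605
  have h629 : L.mul q3 q25' = q97' :=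
    hN.a2 h48 h326 h572 h605
  have h630 : L.mul q3' q97' = q25' :=
    hN.b2 h48 h362 h605 h577
  have h631 : L.mul q107 q19 = q97 :=
    hN.b4 h3 h51 h608 h68
  have h632 : L.mul q63 q91' = q115 :=
    hU.u9 (L.mul_one _) h29 h617 h224 (L.mul_one _) h215 h545 (L.mul_one _) h55
  have h633 : L.mul q51 q91' = q5' :=
    hN.a3 h3 h82 h617 h233
  have h634 : L.mul q97' q107 = q19' :=
    hN.c4 h59 h623 h115 h75
  have h635 : L.mul q19' q107' = q97' :=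
    hN.b4 h3 h95 h626 h76
  have h636 : L.mul q61 q89' = q115 :=
    hN.b4 h41 h181 h632 h288
  have h637 : L.mul q25' q89' = q5' :=
    hN.b4 h41 h443 h633 h288
  have h638 : L.mul q103 q29 = q115 :=
    hU.u4 h502 (L.mul_one _) h100 (L.mul_one _) h636 h399 h348 (L.mul_one _) h210
  have h639 : L.mul q3 q57 = q115 :=
    hN.b4 h59 h73 h638 h348
  have h640 : L.mul q3 q49 = q113 :=
    hN.c4 h41 h639 h189 h349
  have h641 : L.mul q61 q61 = q11' :=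
    hU.u6 (L.mul_one _) h28 h640 h54 (L.mul_one _) h430 (L.mul_one _) h397 h453
  have e : q61 = q77' := Eq.symm (rcancel (h485.trans h641.symm))
  subst e
  have e : q61' = q77 := lcancel (I61.trans J77.symm)
  subst e
  have h642 : L.mul q115 q5 = q13 :=
    hU.u7 h28 (L.mul_one _) h497 (L.mul_one _) h242 h462 h430 (L.mul_one _) h639
  have h643 : L.mul q115 q55 = q39 :=
    hN.c1 h462 h110 h111 h642
  have h644 : L.mul q65' q5 = q3' :=
    hU.u3 h271 h276 h163 J65 I61 h259 h30 J5 J19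
  have h645 : L.mul q65' q55 = q105' :=
    hN.a3 h133 h254 h120 h137
  have h646 : L.mul q65' q107 = q51' :=
    hN.a3 h133 h254 h100 h138
  have h647 : L.mul q65' q7 = q21 :=
    hN.a3 h133 h254 h315 h327
  have h648 : L.mul q21' q65' = q33 :=
    hN.b4 h133 h367 h477 h254
  have h649 : L.mul q69' q9' = q3' :=
    hN.b4 h194 h509 h414 h196
  have h650 : L.mul q63' q49 = q5' :=
    hN.a3 h175 h282 h454 h176
  have h651 : L.mul q5' q67 = q45 :=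
    hU.u2 h36 (L.one_mul _) h456 h463 h243 (L.one_mul _) h486 h318 (L.one_mul _)
  have h652 : L.mul q69' q35' = q43 :=
    hN.b4 h194 h509 h458 h298
  have h653 : L.mul q69' q111' = q105' :=
    hN.b4 h194 h509 h459 h197
  have h654 : L.mul q55' q67 = q23 :=
    hN.a2 h463 h233 h651 h83
  have h655 : L.mul q69' q19' = q51' :=
    hN.c1 h463 h96 h95 h649
  have h656 : L.mul q57 q67 = q3' :=
    hU.u5 h481 h46 h481 h46 h36 h651 h501 h613 h36
  have h657 : L.mul q5 q63' = q3' :=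
    hN.b4 h175 h174 h36 h282
  have h658 : L.mul q21' q63' = q35 :=
    hN.b4 h175 h447 h236 h282
  have h659 : L.mul q3 q63' = q23 :=
    hU.u2 h372 h553 h231 I61 I3 h553 h372 I3 I63
  have h660 : L.mul q49 q63' = q9 :=
    hN.b4 h175 h350 h481 h282
  have h661 : L.mul q51 q63' = q45 :=
    hN.b4 h175 h444 h501 h282
  have h662 : L.mul q115 q7 = q3 :=
    hU.u5 h642 h530 h642 h530 h28 h315 h623 h624 h28
  have h663 : L.mul q113 q5' = q13 :=
    hU.u9 h54 (L.mul_one _) h55 (L.mul_one _) h642 (L.mul_one _) (L.mul_one _) h54 (L.mul_one _)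
  have h664 : L.mul q113 q21 = q39 :=
    hN.b4 h175 h212 h643 h387
  have h665 : L.mul q81' q9' = q3 :=
    hU.u7 h649 h38 h649 h38 I9 J69 h32 J81 I9
  have h666 : L.mul q81' q35' = q39 :=
    hN.a3 h27 h272 h652 h139
  have h667 : L.mul q81' q111' = q35' :=
    hN.a3 h27 h272 h653 h134
  have h668 : L.mul q55' q79 = q15 :=
    hN.c4 h27 h654 h152 h145
  have h669 : L.mul q81' q19' = q103 :=
    hN.a3 h27 h272 h655 h135
  have h670 : L.mul q29 q67 = q103' :=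
    hN.a3 h3 h347 h656 h74
  have h671 : L.mul q57 q79 = q3 :=
    hN.c4 h27 h656 h130 h145
  have h672 : L.mul q91 q63' = q67 :=
    hU.u4 h657 (L.one_mul _) h94 h563 h247 (L.one_mul _) h661 h216 (L.one_mul _)
  have h673 : L.mul q81' q3 = q13 :=
    hN.c4 h59 h666 h110 h118
  have h674 : L.mul q81' q1' = q115 :=
    hU.u4 h330 (L.one_mul _) h73 h669 h639 (L.one_mul _) h26 h213 (L.one_mul _)
  have h675 : L.mul q29 q79 = q51 :=
    hN.c4 h27 h670 h147 h145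
  have h676 : L.mul q89 q61' = q67 :=
    hN.b4 h41 h182 h672 h285
  have h677 : L.mul q89 q65 = q79 :=
    hN.c4 h27 h676 h145 h153
  have h678 : L.mul q29 q7 = q11 :=
    hU.u2 h532 (L.one_mul _) h209 h164 h675 (L.one_mul _) h677 h42 (L.one_mul _)
  have e : q7 = q57' := Eq.symm (lcancel (h401.trans h678.symm))
  subst e
  have e : q7' = q57 := lcancel (I7.trans J57.symm)
  subst e
  rw [ldiv_inv_eq I1, ldiv_inv_eq I3, h0, h1, ldiv_inv_eq I7, h2]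
  exact h26.symm

end LoopStr

end Pool.Agent.V7H71.UF
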